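import Pool.Agent.QUB.Line

/-! The uncrossing inequality, Tutte's and Bixby's lemma.

PLAN. `unc`: with `B = (gs p).erase x \ A`, `B' = (gs p).erase x \ A'`, `C = p.1`, `G = p.2`: use `hr.sub` for
`C ∪ A` and `C ∪ x ∪ A'`, and for `C ∪ B`, `C ∪ x ∪ B'`; `lam p (A ∩ A') = r (C ∪ (A ∩ A')) + r (C ∪ x ∪ B ∪ B') - r G - r C`;
finally `r (G - x) ≤ r G`, `r (C ∪ x) ≤ r C + 1`.
`tutte`: `A` with `lam (p \ x) A ≤ 0`, `A'` with `lam (p / x) A' ≤ 0`: by `unc` (for `A, A'` and for `A, B'`) one of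
`A ∩ A'`, `B ∩ B'` and one of `A ∩ B'`, `B ∩ A'` is empty; so one of `A, B, A', B'` is empty.
`ok_iff`: unfold.
`bixby`: suppose `A` separates `N₁`, `N₂` in `p \ x` (not in `p`), and `A'` separates `N₃`, `N₄` in `p / x` (not in `p`).
By `unc` one of `lam p (A ∩ A')`, `lam p (B ∩ B')` is `≤ 1`, and one of `lam p (A ∩ B')`, `lam p (B ∩ A')`. If
`lam p (A ∩ A') ≤ 1` and `lam p (A ∩ B') ≤ 1`: `N₂` has three elements outside `A`, so `N₁` has at most two elements in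
each of the two sets (not separated), so at most one by (F1) (`N₁ ∈ Ln p`), so `|N₁ ∩ A| ≤ 2`: contradiction. The other
three cases are symmetric (use `lam_compl` and the complements: `lam p (B ∩ B') ≤ 1`, `lam p (B ∩ A') ≤ 1`: `N₂` in `B`;
`A ∩ A'`, `B ∩ A'`: `N₃` in `A'`; `A ∩ B'`, `B ∩ B'`: `N₄` in `B'`). A private lemma for the common step is useful.
-/

namespace QUB

open Finset

variable {E : Type*} [DecidableEq E] {r : Finset E → ℤ} {p : Mn E}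

private theorem bix_mem {x : E} {A : Finset E} (hA : A ⊆ (gs p).erase x) {y : E} (hy : y ∈ A) :
    y ≠ x ∧ y ∈ p.2 ∧ y ∉ p.1 := by
  have h := mem_erase.1 (hA hy)
  have h2 := mem_sdiff.1 h.2
  exact ⟨h.1, h2.1, h2.2⟩

/-- Uncrossing a separation of `p \ x` and a separation of `p / x`. -/
theorem unc (hr : Rk r) (hp : p.1 ⊆ p.2) {x : E} (hx : x ∈ gs p) {A A' : Finset E}
    (hA : A ⊆ (gs p).erase x) (hA' : A' ⊆ (gs p).erase x) :
    lam r p (A ∩ A') + lam r p (((gs p).erase x \ A) ∩ ((gs p).erase x \ A')) ≤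
      lam r (rm true x p) A + lam r (rm false x p) A' + 1 := by
  obtain ⟨hxG, hxC⟩ := mem_sdiff.1 hx
  have h1 := hr.sub (p.1 ∪ A) (insert x p.1 ∪ A')
  have h2 := hr.sub (p.2.erase x \ A) (p.2 \ A')
  have e1 : (p.1 ∪ A) ∪ (insert x p.1 ∪ A')
      = p.2 \ (((gs p).erase x \ A) ∩ ((gs p).erase x \ A')) := by
    ext y
    have a1 : y ∈ p.1 → y ∈ p.2 := fun hy => hp hy
    have a2 : y ∈ A → y ≠ x ∧ y ∈ p.2 ∧ y ∉ p.1 := fun hy => bix_mem hA hy
    have a3 : y ∈ A' → y ≠ x ∧ y ∈ p.2 ∧ y ∉ p.1 := fun hy => bix_mem hA' hy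
    simp only [mem_union, mem_sdiff, mem_inter, mem_insert, gs, mem_erase]
    by_cases hyx : y = x
    · subst hyx
      tauto
    · tauto
  have e2 : (p.1 ∪ A) ∩ (insert x p.1 ∪ A') = p.1 ∪ (A ∩ A') := by
    ext y
    have a2 : y ∈ A → y ≠ x ∧ y ∈ p.2 ∧ y ∉ p.1 := fun hy => bix_mem hA hy
    have a3 : y ∈ A' → y ≠ x ∧ y ∈ p.2 ∧ y ∉ p.1 := fun hy => bix_mem hA' hy
    simp only [mem_union, mem_inter, mem_insert]
    by_cases hyx : y = x
    · subst hyx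
      tauto
    · tauto
  have e3 : (p.2.erase x \ A) ∪ (p.2 \ A') = p.2 \ (A ∩ A') := by
    ext y
    have a2 : y ∈ A → y ≠ x ∧ y ∈ p.2 ∧ y ∉ p.1 := fun hy => bix_mem hA hy
    have a3 : y ∈ A' → y ≠ x ∧ y ∈ p.2 ∧ y ∉ p.1 := fun hy => bix_mem hA' hy
    simp only [mem_union, mem_sdiff, mem_inter, mem_erase]
    by_cases hyx : y = x
    · subst hyx
      tauto
    · tauto
  have e4 : (p.2.erase x \ A) ∩ (p.2 \ A')
      = p.1 ∪ (((gs p).erase x \ A) ∩ ((gs p).erase x \ A')) := by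
    ext y
    have a1 : y ∈ p.1 → y ∈ p.2 := fun hy => hp hy
    have a2 : y ∈ A → y ≠ x ∧ y ∈ p.2 ∧ y ∉ p.1 := fun hy => bix_mem hA hy
    have a3 : y ∈ A' → y ≠ x ∧ y ∈ p.2 ∧ y ∉ p.1 := fun hy => bix_mem hA' hy
    simp only [mem_union, mem_sdiff, mem_inter, mem_erase, gs]
    by_cases hyx : y = x
    · subst hyx
      tauto
    · tauto
  rw [e1, e2] at h1
  rw [e3, e4] at h2
  have h3 : r (p.2.erase x) ≤ r p.2 := hr.mono _ _ (erase_subset _ _)
  have h4 := hr.unit p.1 x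
  simp only [lam, rm]
  linarith

private theorem bix_co {x : E} {A : Finset E} (hx : x ∈ gs p) (hA : A ⊆ (gs p).erase x) :
    (gs p \ A).Nonempty := by
  refine ⟨x, mem_sdiff.2 ⟨hx, fun h => ?_⟩⟩
  exact (mem_erase.1 (hA h)).1 rfl

private theorem bix_ne {x : E} (hx : x ∈ gs p) (h : Cn r p) {D D' : Finset E}
    (hD : D ⊆ (gs p).erase x) (hD' : D' ⊆ (gs p).erase x) (hs : lam r p D + lam r p D' ≤ 1) :
    D = ∅ ∨ D' = ∅ := by
  by_contra hcon
  rw [not_or] at hcon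
  obtain ⟨n1, n2⟩ := hcon
  have h1 := h D (hD.trans (erase_subset _ _)) (nonempty_iff_ne_empty.2 n1) (bix_co hx hD)
  have h2 := h D' (hD'.trans (erase_subset _ _)) (nonempty_iff_ne_empty.2 n2) (bix_co hx hD')
  linarith

/-- Tutte: every element of a connected matroid has a connected removal. -/
theorem tutte (hr : Rk r) (hp : p.1 ⊆ p.2) {x : E} (hx : x ∈ gs p) (h : Cn r p) :
    Cn r (rm true x p) ∨ Cn r (rm false x p) := by
  by_contra hcon
  rw [not_or] at hcon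
  obtain ⟨c1, c2⟩ := hcon
  unfold Cn at c1 c2
  push Not at c1 c2
  obtain ⟨A, hA, nA, nB, lA⟩ := c1
  obtain ⟨A', hA', nA', nB', lA'⟩ := c2
  rw [gs_rm] at hA nB hA' nB'
  have sB : (gs p).erase x \ A ⊆ (gs p).erase x := sdiff_subset
  have sB' : (gs p).erase x \ A' ⊆ (gs p).erase x := sdiff_subset
  have u1 := unc hr hp hx hA hA'
  have u2 := unc hr hp hx hA sB'
  have e1 : lam r (rm false x p) ((gs p).erase x \ A') = lam r (rm false x p) A' := by
    have h1 := lam_compl (p := rm false x p) r (wf_rm hp hx) (A := A') (by rw [gs_rm]; exact hA')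
    rwa [gs_rm] at h1
  have e2 : (gs p).erase x \ ((gs p).erase x \ A') = A' := Finset.sdiff_sdiff_eq_self hA'
  rw [e1, e2] at u2
  have d1 := bix_ne hx h (inter_subset_left.trans hA) (inter_subset_left.trans sB)
    (show lam r p (A ∩ A') + lam r p (((gs p).erase x \ A) ∩ ((gs p).erase x \ A')) ≤ 1 by
      linarith)
  have d2 := bix_ne hx h (inter_subset_left.trans hA) (inter_subset_left.trans sB)
    (show lam r p (A ∩ ((gs p).erase x \ A')) + lam r p (((gs p).erase x \ A) ∩ A') ≤ 1 by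
      linarith)
  have key : ∀ D F : Finset E, D ⊆ (gs p).erase x → D ∩ F = ∅ → D ∩ ((gs p).erase x \ F) = ∅ →
      D = ∅ := by
    intro D F hD k1 k2
    rw [eq_empty_iff_forall_notMem]
    intro y hy
    by_cases hyF : y ∈ F
    · have : y ∈ D ∩ F := mem_inter.2 ⟨hy, hyF⟩
      rw [k1] at this
      exact notMem_empty _ this
    · have : y ∈ D ∩ ((gs p).erase x \ F) := mem_inter.2 ⟨hy, mem_sdiff.2 ⟨hD hy, hyF⟩⟩
      rw [k2] at this
      exact notMem_empty _ this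
  rcases d1 with d1 | d1
  · rcases d2 with d2 | d2
    · exact nA.ne_empty (key A A' hA d1 d2)
    · rw [inter_comm] at d1 d2
      exact nA'.ne_empty (key A' A hA' d1 d2)
  · rcases d2 with d2 | d2
    · rw [inter_comm] at d1 d2
      exact nB'.ne_empty (key ((gs p).erase x \ A') A sB' d2 d1)
    · exact nB.ne_empty (key ((gs p).erase x \ A) A' sB d2 d1)

theorem ok_iff (hr : Rk r) (hp : p.1 ⊆ p.2) :
    Ok r p ↔ ∀ N₁ N₂, Ln r p N₁ → Ln r p N₂ → ¬ Spd r p N₁ N₂ := by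
  have key : ∀ N A : Finset E, Ln r p N → N ∩ (gs p \ A) = N \ A := by
    intro N A hN
    ext y
    have h1 : y ∈ N → y ∈ gs p := fun hy => hN.sub hy
    simp only [mem_inter, mem_sdiff]
    tauto
  constructor
  · rintro h N₁ N₂ h1 h2 ⟨A, hA, lA, c1, c2⟩
    refine h A hA lA ⟨⟨N₁, h1, c1⟩, ⟨N₂, h2, ?_⟩⟩
    rw [key N₂ A h2]
    exact c2
  · rintro h A hA lA ⟨⟨N₁, h1, c1⟩, ⟨N₂, h2, c2⟩⟩
    rw [key N₂ A h2] at c2
    exact h N₁ N₂ h1 h2 ⟨A, hA, lA, c1, c2⟩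

private theorem bix_or (hr : Rk r) (hp : p.1 ⊆ p.2) {N D₁ D₂ S : Finset E} (hN : Ln r p N)
    (h1 : D₁ ⊆ gs p) (h2 : D₂ ⊆ gs p) (l1 : lam r p D₁ ≤ 1) (l2 : lam r p D₂ ≤ 1)
    (hS : N ∩ S ⊆ D₁ ∪ D₂) (h3 : 3 ≤ (N ∩ S).card) :
    3 ≤ (N ∩ D₁).card ∨ 3 ≤ (N ∩ D₂).card := by
  by_contra hcon
  rw [not_or] at hcon
  obtain ⟨n1, n2⟩ := hcon
  have f1 := F1 hr hp h1 l1 hN
  have f2 := F1 hr hp h2 l2 hN
  have h4 : N ∩ S ⊆ (N ∩ D₁) ∪ (N ∩ D₂) := by
    intro y hy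
    have hyN := (mem_inter.1 hy).1
    rcases mem_union.1 (hS hy) with h5 | h5
    · exact mem_union_left _ (mem_inter.2 ⟨hyN, h5⟩)
    · exact mem_union_right _ (mem_inter.2 ⟨hyN, h5⟩)
  have h5 := card_le_card h4
  have h6 := card_union_le (N ∩ D₁) (N ∩ D₂)
  omega

private theorem bix_s1 {N₁ N₂ A D : Finset E} (hD : D ⊆ gs p) (l : lam r p D ≤ 1) (hDA : D ⊆ A)
    (c1 : 3 ≤ (N₁ ∩ D).card) (c2 : 3 ≤ (N₂ \ A).card) : Spd r p N₁ N₂ :=
  ⟨D, hD, l, c1, c2.trans (card_le_card (sdiff_subset_sdiff (Subset.refl _) hDA))⟩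

private theorem bix_s2 (hp : p.1 ⊆ p.2) {N₁ N₂ A D : Finset E} (hD : D ⊆ gs p)
    (l : lam r p D ≤ 1) (hA : A ⊆ gs p) (hDA : Disjoint D A)
    (c1 : 3 ≤ (N₁ ∩ A).card) (c2 : 3 ≤ (N₂ ∩ D).card) : Spd r p N₁ N₂ := by
  refine ⟨gs p \ D, sdiff_subset, ?_, c1.trans (card_le_card ?_), c2.trans (card_le_card ?_)⟩
  · rw [lam_compl r hp hD]
    exact l
  · intro y hy
    obtain ⟨y1, y2⟩ := mem_inter.1 hy
    exact mem_inter.2 ⟨y1, mem_sdiff.2 ⟨hA y2, fun h => disjoint_left.1 hDA h y2⟩⟩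
  · intro y hy
    obtain ⟨y1, y2⟩ := mem_inter.1 hy
    exact mem_sdiff.2 ⟨y1, fun h => (mem_sdiff.1 h).2 y2⟩

/-- Bixby: one of the two removals separates nothing new. -/
theorem bixby (hr : Rk r) (hp : p.1 ⊆ p.2) {x : E} (hx : x ∈ gs p) :
    (∀ N₁ N₂, Ln r (rm true x p) N₁ → Ln r (rm true x p) N₂ → Spd r (rm true x p) N₁ N₂ →
        Spd r p N₁ N₂) ∨
      (∀ N₁ N₂, Ln r (rm false x p) N₁ → Ln r (rm false x p) N₂ → Spd r (rm false x p) N₁ N₂ →
        Spd r p N₁ N₂) := by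
  by_contra hcon
  rw [not_or] at hcon
  obtain ⟨c1, c2⟩ := hcon
  push Not at c1 c2
  obtain ⟨N₁, N₂, hN₁, hN₂, ⟨A, hA, lA, k1, k2⟩, n1⟩ := c1
  obtain ⟨N₃, N₄, hN₃, hN₄, ⟨A', hA', lA', k3, k4⟩, n2⟩ := c2
  have s2 := hN₂.sub
  have s4 := hN₄.sub
  rw [gs_rm] at hA hA' s2 s4
  set S := (gs p).erase x with hS
  have hSp : S ⊆ gs p := erase_subset _ _
  have sB : S \ A ⊆ S := sdiff_subset
  have sB' : S \ A' ⊆ S := sdiff_subset
  have u1 := unc hr hp hx hA hA'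
  have u2 := unc hr hp hx hA sB'
  rw [← hS] at u1 u2
  have e1 : lam r (rm false x p) (S \ A') = lam r (rm false x p) A' := by
    have h1 := lam_compl (p := rm false x p) r (wf_rm hp hx) (A := A') (by rw [gs_rm]; exact hA')
    rwa [gs_rm] at h1
  have e2 : S \ (S \ A') = A' := Finset.sdiff_sdiff_eq_self hA'
  rw [e1, e2] at u2
  have d1 : lam r p (A ∩ A') ≤ 1 ∨ lam r p ((S \ A) ∩ (S \ A')) ≤ 1 := by
    by_contra hc
    rw [not_or] at hc
    omega
  have d2 : lam r p (A ∩ (S \ A')) ≤ 1 ∨ lam r p ((S \ A) ∩ A') ≤ 1 := by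
    by_contra hc
    rw [not_or] at hc
    omega
  have k2' : 3 ≤ (N₂ ∩ (S \ A)).card := by
    have : N₂ ∩ (S \ A) = N₂ \ A := by
      ext y
      have h1 : y ∈ N₂ → y ∈ S := fun hy => s2 hy
      simp only [mem_inter, mem_sdiff]
      tauto
    rw [this]
    exact k2
  have k4' : 3 ≤ (N₄ ∩ (S \ A')).card := by
    have : N₄ ∩ (S \ A') = N₄ \ A' := by
      ext y
      have h1 : y ∈ N₄ → y ∈ S := fun hy => s4 hy
      simp only [mem_inter, mem_sdiff]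
      tauto
    rw [this]
    exact k4
  have t1 : A ∩ A' ⊆ gs p := (inter_subset_left.trans hA).trans hSp
  have t2 : (S \ A) ∩ (S \ A') ⊆ gs p := (inter_subset_left.trans sB).trans hSp
  have t3 : A ∩ (S \ A') ⊆ gs p := (inter_subset_left.trans hA).trans hSp
  have t4 : (S \ A) ∩ A' ⊆ gs p := (inter_subset_left.trans sB).trans hSp
  have dA : Disjoint (S \ A) A := sdiff_disjoint
  have dA' : Disjoint (S \ A') A' := sdiff_disjoint
  rcases d1 with d1 | d1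
  · rcases d2 with d2 | d2
    · -- inside A
      have h1 : N₁ ∩ A ⊆ (A ∩ A') ∪ (A ∩ (S \ A')) := by
        intro y hy
        have h2 : y ∈ A := (mem_inter.1 hy).2
        have h3 : y ∈ S := hA h2
        simp only [mem_union, mem_inter, mem_sdiff]
        tauto
      rcases bix_or hr hp hN₁.rm t1 t3 d1 d2 h1 k1 with h | h
      · exact n1 (bix_s1 t1 d1 inter_subset_left h k2)
      · exact n1 (bix_s1 t3 d2 inter_subset_left h k2)
    · -- inside A'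
      have h1 : N₃ ∩ A' ⊆ (A ∩ A') ∪ ((S \ A) ∩ A') := by
        intro y hy
        have h2 : y ∈ A' := (mem_inter.1 hy).2
        have h3 : y ∈ S := hA' h2
        simp only [mem_union, mem_inter, mem_sdiff]
        tauto
      rcases bix_or hr hp hN₃.rm t1 t4 d1 d2 h1 k3 with h | h
      · exact n2 (bix_s1 t1 d1 inter_subset_right h k4)
      · exact n2 (bix_s1 t4 d2 inter_subset_right h k4)
  · rcases d2 with d2 | d2
    · -- outside A'
      have h1 : N₄ ∩ (S \ A') ⊆ ((S \ A) ∩ (S \ A')) ∪ (A ∩ (S \ A')) := by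
        intro y hy
        have h2 : y ∈ S \ A' := (mem_inter.1 hy).2
        have h3 : y ∈ S := sB' h2
        simp only [mem_union, mem_inter, mem_sdiff] at h2 ⊢
        tauto
      rcases bix_or hr hp hN₄.rm t2 t3 d1 d2 h1 k4' with h | h
      · exact n2 (bix_s2 hp t2 d1 (hA'.trans hSp) (dA'.mono_left inter_subset_right) k3 h)
      · exact n2 (bix_s2 hp t3 d2 (hA'.trans hSp) (dA'.mono_left inter_subset_right) k3 h)
    · -- outside A
      have h1 : N₂ ∩ (S \ A) ⊆ ((S \ A) ∩ (S \ A')) ∪ ((S \ A) ∩ A') := by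
        intro y hy
        have h2 : y ∈ S \ A := (mem_inter.1 hy).2
        have h3 : y ∈ S := sB h2
        simp only [mem_union, mem_inter, mem_sdiff] at h2 ⊢
        tauto
      rcases bix_or hr hp hN₂.rm t2 t4 d1 d2 h1 k2' with h | h
      · exact n1 (bix_s2 hp t2 d1 (hA.trans hSp) (dA.mono_left inter_subset_left) k1 h)
      · exact n1 (bix_s2 hp t4 d2 (hA.trans hSp) (dA.mono_left inter_subset_left) k1 h)

theorem bixby_ok (hr : Rk r) (hp : p.1 ⊆ p.2) {x : E} (hx : x ∈ gs p) (h : Ok r p) :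
    Ok r (rm true x p) ∨ Ok r (rm false x p) := by
  have h0 := (ok_iff hr hp).1 h
  rcases bixby hr hp hx with hb | hb
  · left
    rw [ok_iff hr (wf_rm hp hx)]
    intro N₁ N₂ h1 h2 h3
    exact h0 N₁ N₂ h1.rm h2.rm (hb N₁ N₂ h1 h2 h3)
  · right
    rw [ok_iff hr (wf_rm hp hx)]
    intro N₁ N₂ h1 h2 h3
    exact h0 N₁ N₂ h1.rm h2.rm (hb N₁ N₂ h1 h2 h3)

end QUB
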