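import Pool.Agent.QUB.Bix

/-! Tutte's and Bixby's lemma at the same time.

PLAN: suppose neither removal is connected and fine. Both disconnected: `tutte`. Both not `Ok`: `bixby_ok`. Remaining (for
one of the two types, the other is symmetric): `A` with `lam (p \ x) A ≤ 0`, `A` and `B = (gs p).erase x \ A` nonempty, and `A'` with
`lam (p / x) A' ≤ 1`, `A'` and `B'` heavy in `p / x` (so in `p`). `unc` (for `A, A'` and for `A, B'`):
`lam p (A ∩ A') + lam p (B ∩ B') ≤ 2`, `lam p (A ∩ B') + lam p (B ∩ A') ≤ 2`. If the four sets are nonempty all four values are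
`≤ 1` (`hc`), so by `ho` and (F1) a line `N` with `|N ∩ A'| ≥ 3` meets `A ∩ A'` and `B ∩ A'` in at most one element each (the complements
contain the heavy `B'`): contradiction. If for example `A ∩ A' = ∅`: `1 ≤ lam p A = lam p (A ∩ B')`, so
`lam p A' = lam p (B ∩ A') ≤ 1`, against `ho`. The other three cases in the same way (`lam p B' ≤ 1` if `B ∩ B' = ∅` or `A ∩ B' = ∅`).
-/

namespace QUB

open Finset

variable {E : Type*} [DecidableEq E] {r : Finset E → ℤ} {p : Mn E}

private theorem bc_unc (hr : Rk r) (hp : p.1 ⊆ p.2) {x : E} (hx : x ∈ gs p) (t : Bool)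
    {A A' : Finset E} (hA : A ⊆ (gs p).erase x) (hA' : A' ⊆ (gs p).erase x) :
    lam r p (A ∩ A') + lam r p (((gs p).erase x \ A) ∩ ((gs p).erase x \ A')) ≤
      lam r (rm t x p) A + lam r (rm (!t) x p) A' + 1 := by
  cases t
  · have h := unc hr hp hx hA' hA
    rw [inter_comm A' A, inter_comm ((gs p).erase x \ A')] at h
    show _ ≤ lam r (rm false x p) A + lam r (rm true x p) A' + 1
    linarith
  · exact unc hr hp hx hA hA'

private theorem bc_no (ho : Ok r p) {Z Z' N N' : Finset E} (hZ : Z ⊆ gs p) (hl : lam r p Z ≤ 1)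
    (hN : Ln r p N) (h3 : 3 ≤ (N ∩ Z).card) (hN' : Ln r p N') (h3' : 3 ≤ (N' ∩ Z').card)
    (hZ' : Z' ⊆ gs p \ Z) : False :=
  ho Z hZ hl ⟨⟨N, hN, h3⟩, N', hN', h3'.trans (card_le_card (inter_subset_inter_left hZ'))⟩

private theorem bc_main (hr : Rk r) (hp : p.1 ⊆ p.2) {x : E} (hx : x ∈ gs p) (hc : Cn r p)
    (ho : Ok r p) (t : Bool) (h1 : ¬ Cn r (rm t x p)) (h2 : ¬ Ok r (rm (!t) x p)) : False := by
  unfold Cn at h1
  unfold Ok at h2
  push Not at h1 h2
  obtain ⟨A, hA, hAne, hBne, hAl⟩ := h1
  obtain ⟨A', hA', hAl', ⟨N, hN, hN3⟩, N', hN', hN3'⟩ := h2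
  rw [gs_rm] at hA hBne hA' hN3'
  set S := (gs p).erase x with hS
  have hSg : S ⊆ gs p := erase_subset _ _
  have hxS : x ∉ S := fun h => (mem_erase.1 h).1 rfl
  have hlB : lam r (rm (!t) x p) (S \ A') = lam r (rm (!t) x p) A' := by
    have h := lam_compl (p := rm (!t) x p) r (wf_rm hp hx) (A := A') (by rw [gs_rm]; exact hA')
    rwa [gs_rm] at h
  have hu1 := bc_unc hr hp hx t hA hA'
  have hu2 := bc_unc hr hp hx t hA (A' := S \ A') sdiff_subset
  rw [← hS] at hu1 hu2
  have hSS : S \ (S \ A') = A' := by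
    rw [sdiff_sdiff_right_self]
    exact inter_eq_right.2 hA'
  rw [hlB, hSS] at hu2
  have hN := Ln.rm hN
  have hN' := Ln.rm hN'
  have hpos : ∀ Z ⊆ S, Z.Nonempty → 1 ≤ lam r p Z := by
    intro Z hZ hne
    exact hc Z (hZ.trans hSg) hne ⟨x, mem_sdiff.2 ⟨hx, fun h => hxS (hZ h)⟩⟩
  have hdis : S \ A' ⊆ gs p \ A' := sdiff_subset_sdiff hSg (subset_refl _)
  have hdis' : A' ⊆ gs p \ (S \ A') := by
    intro y hy
    exact mem_sdiff.2 ⟨hSg (hA' hy), fun h => (mem_sdiff.1 h).2 hy⟩
  have fin1 : lam r p A' ≤ 1 → False := fun h =>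
    bc_no ho (hA'.trans hSg) h hN hN3 hN' hN3' hdis
  have fin2 : lam r p (S \ A') ≤ 1 → False := fun h =>
    bc_no ho (sdiff_subset.trans hSg) h hN' hN3' hN hN3 hdis'
  by_cases e1 : (A ∩ A').Nonempty
  · by_cases e2 : ((S \ A) ∩ A').Nonempty
    · by_cases e3 : (A ∩ (S \ A')).Nonempty
      · by_cases e4 : ((S \ A) ∩ (S \ A')).Nonempty
        · have s1 : A ∩ A' ⊆ S := inter_subset_left.trans hA
          have s2 : (S \ A) ∩ A' ⊆ S := inter_subset_right.trans hA'
          have s3 : A ∩ (S \ A') ⊆ S := inter_subset_left.trans hA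
          have s4 : (S \ A) ∩ (S \ A') ⊆ S := inter_subset_left.trans sdiff_subset
          have p1 := hpos _ s1 e1
          have p2 := hpos _ s2 e2
          have p3 := hpos _ s3 e3
          have p4 := hpos _ s4 e4
          have l1 : lam r p (A ∩ A') ≤ 1 := by linarith
          have l2 : lam r p ((S \ A) ∩ A') ≤ 1 := by linarith
          have f1 := F1 hr hp (s1.trans hSg) l1 hN
          have f2 := F1 hr hp (s2.trans hSg) l2 hN
          have hcard : (N ∩ A').card = (N ∩ (A ∩ A')).card + (N ∩ ((S \ A) ∩ A')).card := by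
            rw [← card_union_of_disjoint]
            · congr 1
              ext y
              have h1 : y ∈ A' → y ∈ S := fun hy => hA' hy
              simp only [mem_inter, mem_union, mem_sdiff]
              tauto
            · rw [disjoint_left]
              intro y hy hy'
              simp only [mem_inter, mem_sdiff] at hy hy'
              exact hy'.2.1.2 hy.2.1
          have hd1 : S \ A' ⊆ gs p \ (A ∩ A') := by
            intro y hy
            exact mem_sdiff.2 ⟨hSg (mem_sdiff.1 hy).1, fun h => (mem_sdiff.1 hy).2 (mem_inter.1 h).2⟩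
          have hd2 : S \ A' ⊆ gs p \ ((S \ A) ∩ A') := by
            intro y hy
            exact mem_sdiff.2 ⟨hSg (mem_sdiff.1 hy).1, fun h => (mem_sdiff.1 hy).2 (mem_inter.1 h).2⟩
          by_cases h3 : 3 ≤ (N ∩ (A ∩ A')).card
          · exact bc_no ho (s1.trans hSg) l1 hN h3 hN' hN3' hd1
          · refine bc_no ho (s2.trans hSg) l2 hN ?_ hN' hN3' hd2
            omega
        · -- `B ∩ B' = ∅`
          have h3 : (S \ A) ∩ A' = S \ A := by
            rw [not_nonempty_iff_eq_empty] at e4
            apply inter_eq_left.2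
            intro y hy
            by_contra h
            have h4 : y ∈ (S \ A) ∩ (S \ A') :=
              mem_inter.2 ⟨hy, mem_sdiff.2 ⟨(mem_sdiff.1 hy).1, h⟩⟩
            rw [e4] at h4
            exact notMem_empty y h4
          have h4 : A ∩ (S \ A') = S \ A' := by
            rw [not_nonempty_iff_eq_empty] at e4
            apply inter_eq_right.2
            intro y hy
            by_contra h
            have h4 : y ∈ (S \ A) ∩ (S \ A') :=
              mem_inter.2 ⟨mem_sdiff.2 ⟨(mem_sdiff.1 hy).1, h⟩, hy⟩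
            rw [e4] at h4
            exact notMem_empty y h4
          have h5 := hpos (S \ A) sdiff_subset hBne
          rw [h3, h4] at hu2
          exact fin2 (by linarith)
      · -- `A ∩ B' = ∅`
        rw [not_nonempty_iff_eq_empty] at e3
        have h3 : A ∩ A' = A := by
          apply inter_eq_left.2
          intro y hy
          by_contra h
          have h4 : y ∈ A ∩ (S \ A') := mem_inter.2 ⟨hy, mem_sdiff.2 ⟨hA hy, h⟩⟩
          rw [e3] at h4
          exact notMem_empty y h4
        have h4 : (S \ A) ∩ (S \ A') = S \ A' := by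
          apply inter_eq_right.2
          intro y hy
          refine mem_sdiff.2 ⟨(mem_sdiff.1 hy).1, fun h => ?_⟩
          have h4 : y ∈ A ∩ (S \ A') := mem_inter.2 ⟨h, hy⟩
          rw [e3] at h4
          exact notMem_empty y h4
        have h5 := hpos A hA hAne
        rw [h3, h4] at hu1
        exact fin2 (by linarith)
    · -- `B ∩ A' = ∅`
      rw [not_nonempty_iff_eq_empty] at e2
      have h3 : A ∩ A' = A' := by
        apply inter_eq_right.2
        intro y hy
        by_contra h
        have h4 : y ∈ (S \ A) ∩ A' := mem_inter.2 ⟨mem_sdiff.2 ⟨hA' hy, h⟩, hy⟩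
        rw [e2] at h4
        exact notMem_empty y h4
      have h4 : (S \ A) ∩ (S \ A') = S \ A := by
        apply inter_eq_left.2
        intro y hy
        refine mem_sdiff.2 ⟨(mem_sdiff.1 hy).1, fun h => ?_⟩
        have h4 : y ∈ (S \ A) ∩ A' := mem_inter.2 ⟨hy, h⟩
        rw [e2] at h4
        exact notMem_empty y h4
      have h5 := hpos (S \ A) sdiff_subset hBne
      rw [h3, h4] at hu1
      exact fin1 (by linarith)
  · -- `A ∩ A' = ∅`
    rw [not_nonempty_iff_eq_empty] at e1
    have h3 : A ∩ (S \ A') = A := by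
      apply inter_eq_left.2
      intro y hy
      refine mem_sdiff.2 ⟨hA hy, fun h => ?_⟩
      have h4 : y ∈ A ∩ A' := mem_inter.2 ⟨hy, h⟩
      rw [e1] at h4
      exact notMem_empty y h4
    have h4 : (S \ A) ∩ A' = A' := by
      apply inter_eq_right.2
      intro y hy
      refine mem_sdiff.2 ⟨hA' hy, fun h => ?_⟩
      have h4 : y ∈ A ∩ A' := mem_inter.2 ⟨h, hy⟩
      rw [e1] at h4
      exact notMem_empty y h4
    have h5 := hpos A hA hAne
    rw [h3, h4] at hu2
    exact fin1 (by linarith)

/-- Every element of a connected and fine matroid has a removal which is connected and fine. -/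
theorem bixby_cn (hr : Rk r) (hp : p.1 ⊆ p.2) {x : E} (hx : x ∈ gs p) (hc : Cn r p) (ho : Ok r p) :
    ∃ t, Cn r (rm t x p) ∧ Ok r (rm t x p) := by
  by_contra hno
  push Not at hno
  by_cases h1 : Cn r (rm true x p)
  · have h2 : ¬ Ok r (rm true x p) := hno true h1
    have h3 : Ok r (rm false x p) := (bixby_ok hr hp hx ho).resolve_left h2
    have h4 : ¬ Cn r (rm false x p) := fun h => hno false h h3
    exact bc_main hr hp hx hc ho false h4 h2
  · have h2 : Cn r (rm false x p) := (tutte hr hp hx hc).resolve_left h1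
    have h3 : ¬ Ok r (rm false x p) := hno false h2
    exact bc_main hr hp hx hc ho true h1 h3

end QUB
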