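import Mathlib

/-!
# Layer B of (Q4): rank functions, minors, the connectivity function, four point line minors

A matroid on the elements of `E` is given by its rank function `r : Finset E → ℤ`.  A minor is a pair
`p = (C, G)` with `C ⊆ G` (contract `C`, delete everything outside `G`), its ground set is `gs p = G \ C`.
-/

namespace QUB

open Finset

variable {E : Type*} [DecidableEq E]

/-- Rank function of a matroid. -/
structure Rk (r : Finset E → ℤ) : Prop where
  empty : r ∅ = 0
  mono : ∀ A B : Finset E, A ⊆ B → r A ≤ r B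
  unit : ∀ (A : Finset E) (x : E), r (insert x A) ≤ r A + 1
  sub : ∀ A B : Finset E, r (A ∪ B) + r (A ∩ B) ≤ r A + r B

/-- A minor `(C, G)`. -/
abbrev Mn (E : Type*) := Finset E × Finset E

/-- Ground set of a minor. -/
def gs (p : Mn E) : Finset E := p.2 \ p.1

/-- Removal of `x` from a minor: `t = true` deletes, `t = false` contracts. -/
def rm (t : Bool) (x : E) (p : Mn E) : Mn E :=
  match t with
  | true => (p.1, p.2.erase x)
  | false => (insert x p.1, p.2)

/-- Connectivity function of the minor `p` (for `A ⊆ gs p`). -/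
def lam (r : Finset E → ℤ) (p : Mn E) (A : Finset E) : ℤ :=
  r (p.1 ∪ A) + r (p.2 \ A) - r p.2 - r p.1

/-- `N` is the ground set of a minor of `p` which is a four point line. -/
def Ln (r : Finset E → ℤ) (p : Mn E) (N : Finset E) : Prop :=
  N.card = 4 ∧ ∃ Y : Finset E, p.1 ⊆ Y ∧ Y ∪ N ⊆ p.2 ∧ Disjoint N Y ∧ r (Y ∪ N) = r Y + 2 ∧
    ∀ i ∈ N, ∀ j ∈ N, i ≠ j → r (insert i (insert j Y)) = r Y + 2

/-- `A` is heavy: it contains three elements of some four point line minor. -/
def Hv (r : Finset E → ℤ) (p : Mn E) (A : Finset E) : Prop := ∃ N, Ln r p N ∧ 3 ≤ (N ∩ A).card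

/-- No separation of order at most two has two heavy sides. -/
def Ok (r : Finset E → ℤ) (p : Mn E) : Prop :=
  ∀ A ⊆ gs p, lam r p A ≤ 1 → ¬ (Hv r p A ∧ Hv r p (gs p \ A))

/-- The minor is connected. -/
def Cn (r : Finset E → ℤ) (p : Mn E) : Prop :=
  ∀ A ⊆ gs p, A.Nonempty → (gs p \ A).Nonempty → 1 ≤ lam r p A

/-- `N₁` and `N₂` are separated in `p`. -/
def Spd (r : Finset E → ℤ) (p : Mn E) (N₁ N₂ : Finset E) : Prop :=
  ∃ A ⊆ gs p, lam r p A ≤ 1 ∧ 3 ≤ (N₁ ∩ A).card ∧ 3 ≤ (N₂ \ A).card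

/-- `X` is a heavy side of a separation of `rm t w p` whose other side is heavy, too. -/
def Nbs (r : Finset E → ℤ) (p : Mn E) (w : E) (t : Bool) (X : Finset E) : Prop :=
  X ⊆ (gs p).erase w ∧ lam r (rm t w p) X ≤ 1 ∧ Hv r (rm t w p) X ∧
    Hv r (rm t w p) ((gs p).erase w \ X)

/-- `X` is inclusion-minimal among all sides of splits. -/
def Mnl (r : Finset E → ℤ) (p : Mn E) (X : Finset E) : Prop :=
  ∀ x ∈ gs p, ∀ (t : Bool) (A : Finset E), Nbs r p x t A → ¬ A ⊂ X

/-- No side of a split at `x` is properly contained in `X`. -/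
def Mne (r : Finset E → ℤ) (p : Mn E) (x : E) (X : Finset E) : Prop :=
  ∀ (t : Bool) (A : Finset E), Nbs r p x t A → ¬ A ⊂ X

theorem Mnl.at {r : Finset E → ℤ} {p : Mn E} {X : Finset E} (h : Mnl r p X) {x : E}
    (hx : x ∈ gs p) : Mne r p x X := fun t A hA => h x hx t A hA

/-! ## First properties -/

theorem gs_rm (t : Bool) (x : E) (p : Mn E) : gs (rm t x p) = (gs p).erase x := by
  cases t <;> (ext y; simp [gs, rm]; tauto)

theorem wf_rm {t : Bool} {x : E} {p : Mn E} (h : p.1 ⊆ p.2) (hx : x ∈ gs p) :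
    (rm t x p).1 ⊆ (rm t x p).2 := by
  cases t
  · intro y hy
    simp only [rm, mem_insert] at hy ⊢
    rcases hy with rfl | hy
    · exact (mem_sdiff.1 hx).1
    · exact h hy
  · intro y hy
    simp only [rm, mem_erase] at hy ⊢
    refine ⟨?_, h hy⟩
    rintro rfl
    exact (mem_sdiff.1 hx).2 hy

theorem rm_comm (s t : Bool) {x y : E} (p : Mn E) : rm s x (rm t y p) = rm t y (rm s x p) := by
  cases s <;> cases t <;> simp [rm, erase_right_comm, Finset.insert_comm]

end QUB
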