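import Pool.Agent.QUB.Line

/-! Duality.

The dual of the minor `(C, G)` is `(Gᶜ, Cᶜ)`; the rank function is `rd r X = |X| + r Xᶜ - r univ`.
-/

namespace QUB

open Finset

variable {E : Type*} [DecidableEq E] [Fintype E] {r : Finset E → ℤ} {p : Mn E}

/-- rank function of the dual matroid -/
def rd (r : Finset E → ℤ) : Finset E → ℤ := fun X => (X.card : ℤ) + r Xᶜ - r univ

/-- the dual minor -/
def dp (p : Mn E) : Mn E := (p.2ᶜ, p.1ᶜ)

omit [Fintype E] in
private theorem du_union (hr : Rk r) (X Y : Finset E) : r (X ∪ Y) ≤ r X + Y.card := by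
  induction Y using Finset.induction_on with
  | empty => simp
  | insert a s ha ih =>
    have h1 : X ∪ insert a s = insert a (X ∪ s) := Finset.union_insert a X s
    have h2 := hr.unit (X ∪ s) a
    rw [h1, Finset.card_insert_of_notMem ha]
    push_cast
    linarith

theorem rk_rd (hr : Rk r) : Rk (rd r) := by
  refine ⟨?_, ?_, ?_, ?_⟩
  · unfold rd
    rw [Finset.compl_empty, Finset.card_empty]
    simp
  · intro A B h
    have h1 : Aᶜ = Bᶜ ∪ (B \ A) := by
      ext y
      have h2 : y ∈ A → y ∈ B := fun hy => h hy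
      simp only [mem_compl, mem_union, mem_sdiff]
      tauto
    have h3 := du_union hr Bᶜ (B \ A)
    rw [← h1] at h3
    have h4 : (B \ A).card + A.card = B.card := Finset.card_sdiff_add_card_eq_card h
    have h5 : ((B \ A).card : ℤ) + A.card = B.card := by exact_mod_cast h4
    unfold rd
    linarith
  · intro A x
    have h1 : (insert x A)ᶜ ⊆ Aᶜ := Finset.compl_subset_compl.2 (Finset.subset_insert x A)
    have h2 := hr.mono _ _ h1
    have h3 : (insert x A).card ≤ A.card + 1 := Finset.card_insert_le x A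
    have h4 : ((insert x A).card : ℤ) ≤ A.card + 1 := by exact_mod_cast h3
    unfold rd
    linarith
  · intro A B
    have h1 := hr.sub Aᶜ Bᶜ
    have h2 : Aᶜ ∪ Bᶜ = (A ∩ B)ᶜ := by
      ext y; simp only [mem_compl, mem_union, mem_inter]; tauto
    have h3 : Aᶜ ∩ Bᶜ = (A ∪ B)ᶜ := by
      ext y; simp only [mem_compl, mem_union, mem_inter]; tauto
    rw [h2, h3] at h1
    have h4 : (A ∪ B).card + (A ∩ B).card = A.card + B.card := Finset.card_union_add_card_inter A B
    have h5 : ((A ∪ B).card : ℤ) + (A ∩ B).card = A.card + B.card := by exact_mod_cast h4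
    unfold rd
    linarith

theorem rd_rd (hr : Rk r) : rd (rd r) = r := by
  funext X
  have h1 : X.card + Xᶜ.card = Fintype.card E := Finset.card_add_card_compl X
  have h2 : (X.card : ℤ) + Xᶜ.card = (univ : Finset E).card := by
    rw [Finset.card_univ]; exact_mod_cast h1
  have h3 := hr.empty
  simp only [rd, compl_compl, Finset.compl_univ]
  linarith

omit [Fintype E] in
private theorem du_prod {p q : Mn E} (h1 : p.1 = q.1) (h2 : p.2 = q.2) : p = q := Prod.ext h1 h2

theorem dp_dp (p : Mn E) : dp (dp p) = p :=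
  du_prod (compl_compl p.1) (compl_compl p.2)

theorem wf_dp (h : p.1 ⊆ p.2) : (dp p).1 ⊆ (dp p).2 := Finset.compl_subset_compl.2 h

theorem gs_dp (p : Mn E) : gs (dp p) = gs p := by
  ext y
  simp only [gs, dp, mem_sdiff, mem_compl]
  tauto

theorem rm_dp (t : Bool) (x : E) (p : Mn E) : rm t x (dp p) = dp (rm (!t) x p) := by
  cases t
  · refine du_prod ?_ rfl
    ext y
    simp only [rm, dp, Bool.not_false, mem_insert, mem_compl, mem_erase]
    tauto
  · refine du_prod rfl ?_
    ext y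
    simp only [rm, dp, Bool.not_true, mem_insert, mem_compl, mem_erase]
    tauto

theorem lam_dp (h : p.1 ⊆ p.2) {A : Finset E} (hA : A ⊆ gs p) :
    lam (rd r) (dp p) A = lam r p A := by
  have hA1 : ∀ y ∈ A, y ∈ p.2 ∧ y ∉ p.1 := fun y hy => mem_sdiff.1 (hA hy)
  have e1 : (p.2ᶜ ∪ A)ᶜ = p.2 \ A := by
    ext y; simp only [mem_compl, mem_union, mem_sdiff]; tauto
  have e2 : (p.1ᶜ \ A)ᶜ = p.1 ∪ A := by
    ext y; simp only [mem_compl, mem_union, mem_sdiff]; tauto
  have c1 : (p.2ᶜ ∪ A).card = p.2ᶜ.card + A.card := by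
    apply Finset.card_union_of_disjoint
    rw [Finset.disjoint_left]
    intro y hy hyA
    exact (mem_compl.1 hy) (hA1 y hyA).1
  have c2 : (p.1ᶜ \ A).card + A.card = p.1ᶜ.card := by
    apply Finset.card_sdiff_add_card_eq_card
    intro y hy
    exact mem_compl.2 (hA1 y hy).2
  have c1' : ((p.2ᶜ ∪ A).card : ℤ) = p.2ᶜ.card + A.card := by exact_mod_cast c1
  have c2' : ((p.1ᶜ \ A).card : ℤ) + A.card = p.1ᶜ.card := by exact_mod_cast c2
  show rd r (p.2ᶜ ∪ A) + rd r (p.1ᶜ \ A) - rd r p.1ᶜ - rd r p.2ᶜ =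
    r (p.1 ∪ A) + r (p.2 \ A) - r p.2 - r p.1
  unfold rd
  rw [e1, e2, compl_compl, compl_compl]
  linarith

private theorem du_ln {N : Finset E} (hN : Ln r p N) : Ln (rd r) (dp p) N := by
  obtain ⟨h4, Y, h1, h2, h3, h5, h6⟩ := hN
  rw [Finset.disjoint_left] at h3
  have hYN : ∀ y, y ∈ Y ∨ y ∈ N → y ∈ p.2 := fun y hy => h2 (mem_union.2 hy)
  have hd : Disjoint N (Y ∪ N)ᶜ := by
    rw [Finset.disjoint_left]
    intro y hy hy2
    exact (mem_compl.1 hy2) (mem_union.2 (Or.inr hy))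
  refine ⟨h4, (Y ∪ N)ᶜ, ?_, ?_, hd, ?_, ?_⟩
  · exact Finset.compl_subset_compl.2 h2
  · intro y hy
    show y ∈ p.1ᶜ
    rw [mem_compl]
    intro hy1
    rcases mem_union.1 hy with h | h
    · exact (mem_compl.1 h) (mem_union.2 (Or.inl (h1 hy1)))
    · exact h3 h (h1 hy1)
  · have e1 : ((Y ∪ N)ᶜ ∪ N)ᶜ = Y := by
      ext y
      have := @h3 y
      simp only [mem_compl, mem_union]
      tauto
    have c1 : ((Y ∪ N)ᶜ ∪ N).card = (Y ∪ N)ᶜ.card + N.card :=
      Finset.card_union_of_disjoint hd.symm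
    have c2 : (((Y ∪ N)ᶜ ∪ N).card : ℤ) = (Y ∪ N)ᶜ.card + 4 := by
      rw [c1, h4]; push_cast; rfl
    unfold rd
    rw [e1, compl_compl]
    linarith
  · intro i hi j hj hij
    have hc : (N \ {i, j}).card = 2 := by
      have hs : ({i, j} : Finset E) ⊆ N := by
        intro y hy
        rcases mem_insert.1 hy with rfl | hy
        · exact hi
        · rw [mem_singleton.1 hy]; exact hj
      have := Finset.card_sdiff_add_card_eq_card hs
      rw [Finset.card_pair hij, h4] at this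
      omega
    obtain ⟨k, l, hkl, hN⟩ := Finset.card_eq_two.1 hc
    have hm : ∀ y, (y ∈ N ∧ ¬ (y = i ∨ y = j)) ↔ (y = k ∨ y = l) := by
      intro y
      have : y ∈ N \ {i, j} ↔ y ∈ ({k, l} : Finset E) := by rw [hN]
      simpa only [mem_sdiff, mem_insert, mem_singleton] using this
    have hk : k ∈ N := ((hm k).2 (Or.inl rfl)).1
    have hl : l ∈ N := ((hm l).2 (Or.inr rfl)).1
    have e1 : (insert i (insert j (Y ∪ N)ᶜ))ᶜ = insert k (insert l Y) := by
      ext y
      have h7 := hm y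
      have h8 := @h3 y
      have h9 : y = i → y ∈ N := fun h => h ▸ hi
      have h10 : y = j → y ∈ N := fun h => h ▸ hj
      simp only [mem_compl, mem_insert, mem_union]
      tauto
    have c1 : (insert i (insert j (Y ∪ N)ᶜ)).card = (Y ∪ N)ᶜ.card + 2 := by
      rw [Finset.card_insert_of_notMem, Finset.card_insert_of_notMem]
      · intro hy
        exact (mem_compl.1 hy) (mem_union.2 (Or.inr hj))
      · rw [mem_insert, not_or]
        exact ⟨hij, fun hy => (mem_compl.1 hy) (mem_union.2 (Or.inr hi))⟩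
    have c2 : ((insert i (insert j (Y ∪ N)ᶜ)).card : ℤ) = (Y ∪ N)ᶜ.card + 2 := by
      exact_mod_cast c1
    have h11 := h6 k hk l hl hkl
    unfold rd
    rw [e1, compl_compl]
    linarith

theorem ln_dp (hr : Rk r) (h : p.1 ⊆ p.2) (N : Finset E) : Ln (rd r) (dp p) N ↔ Ln r p N := by
  refine ⟨fun hN => ?_, du_ln⟩
  have h1 := du_ln hN
  rwa [rd_rd hr, dp_dp] at h1

theorem hv_dp (hr : Rk r) (h : p.1 ⊆ p.2) (A : Finset E) : Hv (rd r) (dp p) A ↔ Hv r p A := by
  unfold Hv
  simp only [ln_dp hr h]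

theorem ok_dp (hr : Rk r) (h : p.1 ⊆ p.2) : Ok (rd r) (dp p) ↔ Ok r p := by
  unfold Ok
  simp only [hv_dp hr h, gs_dp]
  refine forall_congr' fun A => forall_congr' fun hA => ?_
  rw [lam_dp h hA]

theorem cn_dp (h : p.1 ⊆ p.2) : Cn (rd r) (dp p) ↔ Cn r p := by
  unfold Cn
  simp only [gs_dp]
  refine forall_congr' fun A => forall_congr' fun hA => ?_
  rw [lam_dp h hA]

theorem nbs_dp (hr : Rk r) (h : p.1 ⊆ p.2) {w : E} (hw : w ∈ gs p) (t : Bool) (X : Finset E) :
    Nbs (rd r) (dp p) w t X ↔ Nbs r p w (!t) X := by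
  have hq : (rm (!t) w p).1 ⊆ (rm (!t) w p).2 := wf_rm h hw
  unfold Nbs
  rw [gs_dp, rm_dp, hv_dp hr hq, hv_dp hr hq]
  refine and_congr_right fun hX => ?_
  rw [lam_dp hq (by rw [gs_rm]; exact hX)]

theorem mnl_dp (hr : Rk r) (h : p.1 ⊆ p.2) (X : Finset E) : Mnl (rd r) (dp p) X ↔ Mnl r p X := by
  unfold Mnl
  rw [gs_dp]
  constructor
  · intro H x hx t A hA
    refine H x hx (!t) A ?_
    rw [nbs_dp hr h hx, Bool.not_not]
    exact hA
  · intro H x hx t A hA
    exact H x hx (!t) A ((nbs_dp hr h hx t A).1 hA)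

end QUB
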