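import Pool.Agent.QUB.Line

/-! LEMMA H: a heavy side stays heavy when an element of the other side is removed.

Let `Y = gs p \ X`. A set `Z ⊆ Y` hits if its local connectivity with `X` is one; then the rank of `C ∪ Z ∪ T` (`T ⊆ X`)
depends on `Z` by a constant only, and similarly for the sets which do not hit (`Keep_dich`). So a four point line with at
least three points in `X` can be moved to the smaller minor (`Keep_core`).
-/

namespace QUB

open Finset

variable {E : Type*} [DecidableEq E] {r : Finset E → ℤ} {p : Mn E}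

private theorem Keep_dich (hr : Rk r) {C X Y Z : Finset E} (hXY : ∀ z ∈ X, z ∉ Y) (hZ : Z ⊆ Y)
    (hs : r (C ∪ X) + r (C ∪ Y) - r (C ∪ Y ∪ X) - r C ≤ 1) :
    (r (C ∪ X) + r (C ∪ Z) - r (C ∪ Z ∪ X) - r C ≤ 0 ∧
      ∀ T ⊆ X, r (C ∪ Z ∪ T) = r (C ∪ T) + r (C ∪ Z) - r C) ∨
    (1 ≤ r (C ∪ X) + r (C ∪ Z) - r (C ∪ Z ∪ X) - r C ∧
      r (C ∪ X) + r (C ∪ Y) - r (C ∪ Y ∪ X) - r C = 1 ∧
      ∀ T ⊆ X, r (C ∪ Z ∪ T) =
        r (C ∪ T) + r (C ∪ Z) - r C - (r (C ∪ T) + r (C ∪ Y) - r (C ∪ Y ∪ T) - r C)) := by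
  have sub1 : ∀ T ⊆ X, r (C ∪ Z ∪ T) + r C ≤ r (C ∪ Z) + r (C ∪ T) := by
    intro T hT
    have h := hr.sub (C ∪ Z) (C ∪ T)
    have e1 : (C ∪ Z) ∪ (C ∪ T) = C ∪ Z ∪ T := by
      ext z; simp only [mem_union]; tauto
    have e2 : (C ∪ Z) ∩ (C ∪ T) = C := by
      ext z
      have h1 : z ∈ T → z ∈ X := fun hz => hT hz
      have h2 : z ∈ Z → z ∈ Y := fun hz => hZ hz
      have h3 : z ∈ X → z ∉ Y := fun hz => hXY z hz
      simp only [mem_union, mem_inter]; tauto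
    rwa [e1, e2] at h
  have sub2 : ∀ T ⊆ X, r (C ∪ Z ∪ X) + r (C ∪ T) ≤ r (C ∪ Z ∪ T) + r (C ∪ X) := by
    intro T hT
    have h := hr.sub (C ∪ Z ∪ T) (C ∪ X)
    have e1 : (C ∪ Z ∪ T) ∪ (C ∪ X) = C ∪ Z ∪ X := by
      ext z
      have h1 : z ∈ T → z ∈ X := fun hz => hT hz
      simp only [mem_union]; tauto
    have e2 : (C ∪ Z ∪ T) ∩ (C ∪ X) = C ∪ T := by
      ext z
      have h1 : z ∈ T → z ∈ X := fun hz => hT hz
      have h2 : z ∈ Z → z ∈ Y := fun hz => hZ hz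
      have h3 : z ∈ X → z ∉ Y := fun hz => hXY z hz
      simp only [mem_union, mem_inter]; tauto
    rwa [e1, e2] at h
  have sub3 : ∀ T ⊆ X, r (C ∪ Y ∪ T) + r (C ∪ Z) ≤ r (C ∪ Z ∪ T) + r (C ∪ Y) := by
    intro T hT
    have h := hr.sub (C ∪ Z ∪ T) (C ∪ Y)
    have e1 : (C ∪ Z ∪ T) ∪ (C ∪ Y) = C ∪ Y ∪ T := by
      ext z
      have h2 : z ∈ Z → z ∈ Y := fun hz => hZ hz
      simp only [mem_union]; tauto
    have e2 : (C ∪ Z ∪ T) ∩ (C ∪ Y) = C ∪ Z := by
      ext z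
      have h1 : z ∈ T → z ∈ X := fun hz => hT hz
      have h2 : z ∈ Z → z ∈ Y := fun hz => hZ hz
      have h3 : z ∈ X → z ∉ Y := fun hz => hXY z hz
      simp only [mem_union, mem_inter]; tauto
    rwa [e1, e2] at h
  have sub4 : ∀ T ⊆ X, r (C ∪ Y ∪ X) + r (C ∪ Z ∪ T) ≤ r (C ∪ Z ∪ X) + r (C ∪ Y ∪ T) := by
    intro T hT
    have h := hr.sub (C ∪ Z ∪ X) (C ∪ Y ∪ T)
    have e1 : (C ∪ Z ∪ X) ∪ (C ∪ Y ∪ T) = C ∪ Y ∪ X := by
      ext z
      have h1 : z ∈ T → z ∈ X := fun hz => hT hz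
      have h2 : z ∈ Z → z ∈ Y := fun hz => hZ hz
      simp only [mem_union]; tauto
    have e2 : (C ∪ Z ∪ X) ∩ (C ∪ Y ∪ T) = C ∪ Z ∪ T := by
      ext z
      have h1 : z ∈ T → z ∈ X := fun hz => hT hz
      have h2 : z ∈ Z → z ∈ Y := fun hz => hZ hz
      have h3 : z ∈ X → z ∉ Y := fun hz => hXY z hz
      simp only [mem_union, mem_inter]; tauto
    rwa [e1, e2] at h
  by_cases hd : r (C ∪ X) + r (C ∪ Z) - r (C ∪ Z ∪ X) - r C ≤ 0
  · left
    refine ⟨hd, fun T hT => ?_⟩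
    have h1 := sub1 T hT
    have h2 := sub2 T hT
    omega
  · right
    have h3 := sub3 X subset_rfl
    refine ⟨by omega, by omega, fun T hT => ?_⟩
    have h1 := sub3 T hT
    have h2 := sub4 T hT
    omega

/-- the rank conditions of a four point line -/
private def Keep_L (r : Finset E → ℤ) (N W : Finset E) : Prop :=
  r (W ∪ N) = r W + 2 ∧ ∀ i ∈ N, ∀ j ∈ N, i ≠ j → r (insert i (insert j W)) = r W + 2

private theorem Keep_tr1 {X U V S N : Finset E} {c : ℤ} (h : ∀ T ⊆ X, r (V ∪ T) = r (U ∪ T) + c)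
    (hS : S ⊆ X) (hN : N ⊆ X) (hL : Keep_L r N (U ∪ S)) : Keep_L r N (V ∪ S) := by
  have h0 := h S hS
  constructor
  · have h1 := h (S ∪ N) (union_subset hS hN)
    rw [← union_assoc, ← union_assoc, hL.1] at h1
    linarith
  · intro i hi j hj hij
    have h1 := h (insert i (insert j S)) (insert_subset (hN hi) (insert_subset (hN hj) hS))
    have h2 := hL.2 i hi j hj hij
    have e : ∀ A : Finset E, A ∪ insert i (insert j S) = insert i (insert j (A ∪ S)) := by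
      intro A
      ext z; simp only [mem_union, mem_insert]; tauto
    rw [e, e, h2] at h1
    linarith

private theorem Keep_tr2 {X U V S M : Finset E} {c : ℤ} {y y' : E} (h : ∀ T ⊆ X, r (V ∪ T) = r (U ∪ T) + c)
    (h' : ∀ T ⊆ X, r (insert y' (V ∪ T)) = r (insert y (U ∪ T)) + c)
    (hS : S ⊆ X) (hM : M ⊆ X) (hy : y ∉ M) (hL : Keep_L r (insert y M) (U ∪ S)) :
    Keep_L r (insert y' M) (V ∪ S) := by
  have h0 := h S hS
  have key : ∀ i ∈ M, r (insert y' (insert i (V ∪ S))) = r (V ∪ S) + 2 := by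
    intro i hi
    have h1 := h' (insert i S) (insert_subset (hM hi) hS)
    rw [union_insert, union_insert] at h1
    have h2 := hL.2 y (mem_insert_self y M) i (mem_insert_of_mem hi) (fun h => hy (h ▸ hi))
    linarith
  constructor
  · have h1 := h' (S ∪ M) (union_subset hS hM)
    have h2 := hL.1
    rw [← union_assoc, ← union_assoc] at h1
    rw [union_insert] at h2 ⊢
    linarith
  · intro i hi j hj hij
    rcases mem_insert.1 hi with hi' | hi'
    · rcases mem_insert.1 hj with hj' | hj'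
      · exact absurd (hi'.trans hj'.symm) hij
      · rw [hi']
        exact key j hj'
    · rcases mem_insert.1 hj with hj' | hj'
      · have h3 := key i hi'
        rw [Finset.insert_comm] at h3
        rw [hj']
        exact h3
      · have h1 := h (insert i (insert j S)) (insert_subset (hM hi') (insert_subset (hM hj') hS))
        have h2 := hL.2 i (mem_insert_of_mem hi') j (mem_insert_of_mem hj') hij
        have e : ∀ A : Finset E, A ∪ insert i (insert j S) = insert i (insert j (A ∪ S)) := by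
          intro A
          ext z; simp only [mem_union, mem_insert]; tauto
        rw [e, e, h2] at h1
        linarith

private theorem Keep_find {P : Finset E → Prop} (h0 : ¬ P ∅) (Y : Finset E) (h1 : P Y) :
    ∃ Z ⊆ Y, ∃ y ∈ Y, y ∉ Z ∧ ¬ P Z ∧ P (insert y Z) := by
  induction Y using Finset.induction_on with
  | empty => exact absurd h1 h0
  | insert a Y ha ih =>
    by_cases h : P Y
    · obtain ⟨Z, hZ, y, hy, h2⟩ := ih h
      exact ⟨Z, hZ.trans (subset_insert a Y), y, mem_insert_of_mem hy, h2⟩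
    · exact ⟨Y, subset_insert a Y, a, mem_insert_self a Y, ha, h, h1⟩

private theorem Keep_eW {C X Y W : Finset E} (h1 : C ⊆ W) (h2 : W ⊆ C ∪ X ∪ Y) :
    W = C ∪ (W ∩ Y) ∪ (W ∩ X) := by
  ext z
  have h3 : z ∈ C → z ∈ W := fun hz => h1 hz
  have h4 : z ∈ W → z ∈ C ∪ X ∪ Y := fun hz => h2 hz
  simp only [mem_union, mem_inter] at h4 ⊢
  tauto

private theorem Keep_NG {C X Y N : Finset E} (h1 : N ⊆ C ∪ X ∪ Y) (h2 : Disjoint N C) {z : E} (hz : z ∈ N)
    (hzX : z ∉ X) : z ∈ Y := by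
  have h3 := h1 hz
  have h4 := disjoint_left.1 h2 hz
  rcases mem_union.1 h3 with h | h
  · rcases mem_union.1 h with h | h
    · exact absurd h h4
    · exact absurd h hzX
  · exact h

private theorem Keep_core1 (hr : Rk r) {C X Y F Y' Q S N : Finset E} (hXY : Disjoint X Y)
    (hCX : Disjoint C X) (hF : F ⊆ Y) (hY' : Y' ⊆ Y) (hs : r (C ∪ X) + r (C ∪ Y) - r (C ∪ Y ∪ X) - r C ≤ 1)
    (hFno : ∀ T ⊆ X, r (C ∪ F ∪ T) = r (C ∪ T) + r (C ∪ F) - r C)
    (hYhit : ∀ T ⊆ X, r (C ∪ (F ∪ Y') ∪ T) = r (C ∪ T) + r (C ∪ (F ∪ Y')) - r C -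
        (r (C ∪ T) + r (C ∪ Y) - r (C ∪ Y ∪ T) - r C))
    (hQ : Q ⊆ Y) (hS : S ⊆ X) (hL : Keep_L r N (C ∪ Q ∪ S)) (hN : N ⊆ X) (hc : N.card = 4) (hNS : Disjoint N S) :
    Hv r (C ∪ F, C ∪ F ∪ X ∪ Y') X := by
  have hNC : Disjoint N C := (hCX.mono_right hN).symm
  have hNY : Disjoint N Y := hXY.mono_left hN
  have h3 : 3 ≤ (N ∩ X).card := by
    rw [inter_eq_left.2 hN, hc]
    norm_num
  rcases Keep_dich hr (fun z hz => disjoint_left.1 hXY hz) hQ hs with ⟨-, hQno⟩ | ⟨-, -, hQhit⟩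
  · have ht := Keep_tr1 (V := C ∪ F) (U := C ∪ Q) (c := r (C ∪ F) - r (C ∪ Q)) (fun T hT => by
      rw [hFno T hT, hQno T hT]
      ring) hS hN hL
    refine ⟨N, ⟨hc, C ∪ F ∪ S, subset_union_left, ?_, ?_, ht.1, ht.2⟩, h3⟩
    · refine union_subset (union_subset ?_ ?_) ?_
      · exact subset_union_left.trans subset_union_left
      · exact (hS.trans subset_union_right).trans subset_union_left
      · exact (hN.trans subset_union_right).trans subset_union_left
    · exact disjoint_union_right.2 ⟨disjoint_union_right.2 ⟨hNC, hNY.mono_right hF⟩, hNS⟩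
  · have ht := Keep_tr1 (V := C ∪ (F ∪ Y')) (U := C ∪ Q) (c := r (C ∪ (F ∪ Y')) - r (C ∪ Q)) (fun T hT => by
      rw [hYhit T hT, hQhit T hT]
      ring) hS hN hL
    refine ⟨N, ⟨hc, C ∪ (F ∪ Y') ∪ S, ?_, ?_, ?_, ht.1, ht.2⟩, h3⟩
    · show C ∪ F ⊆ C ∪ (F ∪ Y') ∪ S
      rw [← union_assoc]
      exact subset_union_left.trans subset_union_left
    · rw [← union_assoc]
      refine union_subset (union_subset (union_subset ?_ ?_) ?_) ?_
      · exact subset_union_left.trans subset_union_left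
      · exact subset_union_right
      · exact (hS.trans subset_union_right).trans subset_union_left
      · exact (hN.trans subset_union_right).trans subset_union_left
    · exact disjoint_union_right.2 ⟨disjoint_union_right.2 ⟨hNC, disjoint_union_right.2 ⟨hNY.mono_right hF,
        hNY.mono_right hY'⟩⟩, hNS⟩

private theorem Keep_e5 (C : Finset E) (w : E) (A T : Finset E) : C ∪ insert w A ∪ T = insert w (C ∪ A ∪ T) := by
  ext z; simp only [mem_union, mem_insert]; tauto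

private theorem Keep_e6 (C : Finset E) (w : E) (A : Finset E) : C ∪ insert w A = insert w (C ∪ A) := by
  ext z; simp only [mem_union, mem_insert]; tauto

private theorem Keep_e2 (U : Finset E) (a b : E) (S : Finset E) :
    U ∪ insert a (insert b S) = insert a (insert b (U ∪ S)) := by
  ext z; simp only [mem_union, mem_insert]; tauto

/-- the defects of `Q` and of `insert y Q` -/
private theorem Keep_hit (hr : Rk r) {C X Y Q S M : Finset E} {y : E} (hXY : Disjoint X Y)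
    (hs : r (C ∪ X) + r (C ∪ Y) - r (C ∪ Y ∪ X) - r C ≤ 1)
    (hQ : Q ⊆ Y) (hS : S ⊆ X) (hL : Keep_L r (insert y M) (C ∪ Q ∪ S)) (hM : M ⊆ X) (hyY : y ∈ Y)
    (hyM : y ∉ M) (hMc : 1 < M.card) :
    (∀ T ⊆ X, r (C ∪ Q ∪ T) = r (C ∪ T) + r (C ∪ Q) - r C) ∧
      r (C ∪ X) + r (C ∪ Y) - r (C ∪ Y ∪ X) - r C = 1 ∧
      (∀ T ⊆ X, r (C ∪ insert y Q ∪ T) = r (C ∪ T) + r (C ∪ insert y Q) - r C -
          (r (C ∪ T) + r (C ∪ Y) - r (C ∪ Y ∪ T) - r C)) := by
  obtain ⟨a, ha, b, hb, hab⟩ := one_lt_card.1 hMc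
  have hya := hL.2 y (mem_insert_self y M) a (mem_insert_of_mem ha) (fun h => hyM (h ▸ ha))
  have hab' := hL.2 a (mem_insert_of_mem ha) b (mem_insert_of_mem hb) hab
  have hi0 : r (insert y (C ∪ Q ∪ S)) = r (C ∪ Q ∪ S) + 1 := by
    have h1 := hr.unit (insert y (C ∪ Q ∪ S)) a
    rw [Finset.insert_comm, hya] at h1
    have h2 := hr.unit (C ∪ Q ∪ S) y
    omega
  have hi1 : r (insert y (insert a (insert b (C ∪ Q ∪ S)))) = r (C ∪ Q ∪ S) + 2 := by
    refine le_antisymm ?_ ?_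
    · rw [← hL.1]
      refine hr.mono _ _ ?_
      refine insert_subset ?_ (insert_subset ?_ (insert_subset ?_ subset_union_left))
      · exact mem_union_right _ (mem_insert_self y M)
      · exact mem_union_right _ (mem_insert_of_mem ha)
      · exact mem_union_right _ (mem_insert_of_mem hb)
    · rw [← hab']
      exact hr.mono _ _ (subset_insert _ _)
  have hSab : insert a (insert b S) ⊆ X := insert_subset (hM ha) (insert_subset (hM hb) hS)
  have hyQ : insert y Q ⊆ Y := insert_subset hyY hQ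
  have hdj : ∀ z ∈ X, z ∉ Y := fun z hz => disjoint_left.1 hXY hz
  rcases Keep_dich hr hdj hQ hs with ⟨q1, q2⟩ | ⟨q1, -, q2⟩
  · rcases Keep_dich hr hdj hyQ hs with ⟨-, y2⟩ | ⟨-, y1, y2⟩
    · exfalso
      have g1 := q2 S hS
      have g2 := y2 S hS
      have g3 := q2 _ hSab
      have g4 := y2 _ hSab
      rw [Keep_e5] at g2 g4
      rw [Keep_e2] at g3 g4
      omega
    · exact ⟨q2, y1, y2⟩
  · exfalso
    rcases Keep_dich hr hdj hyQ hs with ⟨y1, -⟩ | ⟨-, -, y2⟩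
    · have h1 := marg hr (show C ∪ Q ⊆ C ∪ Q ∪ X from subset_union_left) y
      rw [Keep_e5, Keep_e6] at y1
      omega
    · have g1 := q2 S hS
      have g2 := y2 S hS
      have g3 := q2 _ hSab
      have g4 := y2 _ hSab
      rw [Keep_e5] at g2 g4
      rw [Keep_e2] at g3 g4
      omega

/-- adding a point to a set which does not hit, to get a set which hits, increases the rank -/
private theorem Keep_one (hr : Rk r) {C X Y A : Finset E} {y : E}
    (hX1 : r (C ∪ X) + r (C ∪ Y) - r (C ∪ Y ∪ X) - r C = 1)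
    (h1 : ∀ T ⊆ X, r (C ∪ A ∪ T) = r (C ∪ T) + r (C ∪ A) - r C)
    (h2 : ∀ T ⊆ X, r (C ∪ insert y A ∪ T) = r (C ∪ T) + r (C ∪ insert y A) - r C -
          (r (C ∪ T) + r (C ∪ Y) - r (C ∪ Y ∪ T) - r C)) :
    r (C ∪ insert y A) = r (C ∪ A) + 1 := by
  have g1 := h1 X subset_rfl
  have g2 := h2 X subset_rfl
  have g3 := hr.mono (C ∪ A ∪ X) (C ∪ insert y A ∪ X) (by rw [Keep_e5]; exact subset_insert _ _)
  have g4 := hr.unit (C ∪ A) y
  rw [← Keep_e6] at g4
  omega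

private theorem Keep_core2 (hr : Rk r) {C X Y F Y' Q S M : Finset E} {y : E} (hXY : Disjoint X Y)
    (hCX : Disjoint C X) (hCY : Disjoint C Y) (hF : F ⊆ Y) (hY' : Y' ⊆ Y) (hFY' : Disjoint F Y')
    (hs : r (C ∪ X) + r (C ∪ Y) - r (C ∪ Y ∪ X) - r C ≤ 1)
    (hFn : r (C ∪ X) + r (C ∪ F) - r (C ∪ F ∪ X) - r C ≤ 0)
    (hYh : 1 ≤ r (C ∪ X) + r (C ∪ (F ∪ Y')) - r (C ∪ (F ∪ Y') ∪ X) - r C)
    (hQ : Q ⊆ Y) (hS : S ⊆ X) (hL : Keep_L r (insert y M) (C ∪ Q ∪ S)) (hM : M ⊆ X) (hyY : y ∈ Y)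
    (hyM : y ∉ M) (hMc : M.card = 3) (hMS : Disjoint M S) :
    Hv r (C ∪ F, C ∪ F ∪ X ∪ Y') X := by
  obtain ⟨hQno, hX1, hyhit⟩ := Keep_hit hr hXY hs hQ hS hL hM hyY hyM (by omega)
  have hdj : ∀ z ∈ X, z ∉ Y := fun z hz => disjoint_left.1 hXY hz
  obtain ⟨Z, hZ, y', hy', hy'Z, hZn, hZh⟩ := Keep_find
    (P := fun Z => 1 ≤ r (C ∪ X) + r (C ∪ (F ∪ Z)) - r (C ∪ (F ∪ Z) ∪ X) - r C)
    (by
      rw [union_empty]
      omega) Y' hYh
  have hFZ : F ∪ Z ⊆ Y := union_subset hF (hZ.trans hY')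
  have hy'Y : y' ∈ Y := hY' hy'
  rw [union_insert] at hZh
  have hZno : ∀ T ⊆ X, r (C ∪ (F ∪ Z) ∪ T) = r (C ∪ T) + r (C ∪ (F ∪ Z)) - r C := by
    rcases Keep_dich hr hdj hFZ hs with h1 | h1
    · exact h1.2
    · exact absurd h1.1 hZn
  have hZhit : ∀ T ⊆ X, r (C ∪ insert y' (F ∪ Z) ∪ T) = r (C ∪ T) + r (C ∪ insert y' (F ∪ Z)) - r C -
        (r (C ∪ T) + r (C ∪ Y) - r (C ∪ Y ∪ T) - r C) := by
    rcases Keep_dich hr hdj (insert_subset hy'Y hFZ) hs with h1 | h1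
    · exact absurd h1.1 (by omega)
    · exact h1.2.2
  have k1 := Keep_one hr hX1 hQno hyhit
  have k2 := Keep_one hr hX1 hZno hZhit
  have ht := Keep_tr2 (V := C ∪ (F ∪ Z)) (U := C ∪ Q) (y := y) (y' := y')
    (c := r (C ∪ (F ∪ Z)) - r (C ∪ Q)) (fun T hT => by
      rw [hZno T hT, hQno T hT]
      ring) (fun T hT => by
      rw [← Keep_e5, ← Keep_e5, hZhit T hT, hyhit T hT, k1, k2]
      ring) hS hM hyM hL
  have hy'X : y' ∉ X := fun h1 => hdj y' h1 hy'Y
  have hy'M : y' ∉ M := fun h1 => hy'X (hM h1)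
  refine ⟨insert y' M, ⟨by rw [card_insert_of_notMem hy'M, hMc], C ∪ (F ∪ Z) ∪ S, ?_, ?_, ?_, ht.1, ht.2⟩, ?_⟩
  · show C ∪ F ⊆ C ∪ (F ∪ Z) ∪ S
    rw [← union_assoc]
    exact subset_union_left.trans subset_union_left
  · rw [← union_assoc]
    refine union_subset (union_subset (union_subset ?_ ?_) ?_) (insert_subset ?_ ?_)
    · exact subset_union_left.trans subset_union_left
    · exact hZ.trans subset_union_right
    · exact (hS.trans subset_union_right).trans subset_union_left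
    · exact mem_union_right _ hy'
    · exact (hM.trans subset_union_right).trans subset_union_left
  · rw [disjoint_insert_left]
    constructor
    · rw [mem_union, mem_union, mem_union]
      rintro ((h | h | h) | h)
      · exact disjoint_left.1 hCY h hy'Y
      · exact disjoint_left.1 hFY' h hy'
      · exact hy'Z h
      · exact hy'X (hS h)
    · have hMY : Disjoint M Y := hXY.mono_left hM
      exact disjoint_union_right.2 ⟨disjoint_union_right.2 ⟨(hCX.mono_right hM).symm, hMY.mono_right hFZ⟩, hMS⟩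
  · refine le_trans (le_of_eq hMc.symm) (card_le_card ?_)
    intro z hz
    exact mem_inter.2 ⟨mem_insert_of_mem hz, hM hz⟩

private theorem Keep_core (hr : Rk r) {C X Y F Y' : Finset E} (hXY : Disjoint X Y)
    (hCX : Disjoint C X) (hCY : Disjoint C Y) (hF : F ⊆ Y) (hY' : Y' ⊆ Y) (hFY' : Disjoint F Y')
    (hs : r (C ∪ X) + r (C ∪ Y) - r (C ∪ Y ∪ X) - r C ≤ 1)
    (hFn : r (C ∪ X) + r (C ∪ F) - r (C ∪ F ∪ X) - r C ≤ 0)
    (hYh : 1 ≤ r (C ∪ X) + r (C ∪ (F ∪ Y')) - r (C ∪ (F ∪ Y') ∪ X) - r C)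
    (h : Hv r (C, C ∪ X ∪ Y) X) : Hv r (C ∪ F, C ∪ F ∪ X ∪ Y') X := by
  obtain ⟨N, ⟨hc, W, hCW, hWN, hdis, hrk, hpr⟩, h3⟩ := h
  have eW := Keep_eW (Y := Y) hCW (subset_union_left.trans hWN)
  have hL : Keep_L r N (C ∪ (W ∩ Y) ∪ (W ∩ X)) := by
    rw [← eW]
    exact ⟨hrk, hpr⟩
  have hQ : W ∩ Y ⊆ Y := inter_subset_right
  have hS : W ∩ X ⊆ X := inter_subset_right
  have hNS : Disjoint N (W ∩ X) := hdis.mono_right inter_subset_left
  have hdj : ∀ z ∈ X, z ∉ Y := fun z hz => disjoint_left.1 hXY hz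
  by_cases hNX : N ⊆ X
  · have hFno : ∀ T ⊆ X, r (C ∪ F ∪ T) = r (C ∪ T) + r (C ∪ F) - r C := by
      rcases Keep_dich hr hdj hF hs with h1 | h1
      · exact h1.2
      · exact absurd h1.1 (by omega)
    have hYhit : ∀ T ⊆ X, r (C ∪ (F ∪ Y') ∪ T) = r (C ∪ T) + r (C ∪ (F ∪ Y')) - r C -
          (r (C ∪ T) + r (C ∪ Y) - r (C ∪ Y ∪ T) - r C) := by
      rcases Keep_dich hr hdj (union_subset hF hY') hs with h1 | h1
      · exact absurd h1.1 (by omega)
      · exact h1.2.2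
    exact Keep_core1 hr hXY hCX hF hY' hs hFno hYhit hQ hS hL hNX hc hNS
  · obtain ⟨y, hyN, hyX⟩ := not_subset.1 hNX
    have hyY : y ∈ Y := Keep_NG (subset_union_right.trans hWN) (hdis.mono_right hCW) hyN hyX
    have hyM : y ∉ N ∩ X := fun h1 => hyX (mem_inter.1 h1).2
    have hMy : insert y (N ∩ X) ⊆ N := insert_subset hyN inter_subset_left
    have hcM : (insert y (N ∩ X)).card = (N ∩ X).card + 1 := card_insert_of_notMem hyM
    have hle := card_le_card hMy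
    have h3' : 3 ≤ (N ∩ X).card := h3
    have hN : insert y (N ∩ X) = N := eq_of_subset_of_card_le hMy (by omega)
    have hL' : Keep_L r (insert y (N ∩ X)) (C ∪ (W ∩ Y) ∪ (W ∩ X)) := by
      rw [hN]
      exact hL
    exact Keep_core2 hr hXY hCX hCY hF hY' hFY' hs hFn hYh hQ hS hL' inter_subset_right hyY hyM (by omega)
      (hNS.mono_left inter_subset_left)

private theorem Keep_g1 {C G X Y : Finset E} (hp : C ⊆ G) (hX : X ⊆ G \ C) (hY : Y = (G \ C) \ X) :
    C ∪ X ∪ Y = G ∧ C ∪ Y ∪ X = G ∧ G \ X = C ∪ Y := by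
  subst hY
  have h1 : ∀ z, z ∈ C → z ∈ G := fun z hz => hp hz
  have h2 : ∀ z, z ∈ X → z ∈ G ∧ z ∉ C := fun z hz => mem_sdiff.1 (hX hz)
  refine ⟨?_, ?_, ?_⟩
  · ext z
    have h3 := h1 z
    have h4 := h2 z
    simp only [mem_union, mem_sdiff]
    tauto
  · ext z
    have h3 := h1 z
    have h4 := h2 z
    simp only [mem_union, mem_sdiff]
    tauto
  · ext z
    have h3 := h1 z
    have h4 := h2 z
    simp only [mem_union, mem_sdiff]
    tauto

private theorem Keep_g2 {C X Y : Finset E} {f : E} (hC : f ∉ C) (hX : f ∉ X) :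
    (C ∪ Y ∪ X).erase f \ X ⊆ C ∪ (∅ ∪ Y.erase f) ∧ (C ∪ Y ∪ X).erase f = C ∪ (∅ ∪ Y.erase f) ∪ X := by
  have e : (C ∪ Y ∪ X).erase f = C ∪ (∅ ∪ Y.erase f) ∪ X := by
    rw [empty_union, erase_union_distrib, erase_union_distrib, erase_eq_of_notMem hC, erase_eq_of_notMem hX]
  refine ⟨?_, e⟩
  rw [e]
  intro z hz
  rw [mem_sdiff, mem_union] at hz
  rcases hz.1 with h | h
  · exact h
  · exact absurd h hz.2

private theorem Keep_g3 {C X Y : Finset E} {f : E} (hCX : Disjoint C X) (hXY : Disjoint X Y) :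
    (C ∪ (∅ ∪ Y.erase f) ∪ X) \ X = C ∪ (∅ ∪ Y.erase f) := by
  rw [empty_union, union_sdiff_right, Finset.sdiff_eq_self_iff_disjoint]
  exact disjoint_union_left.2 ⟨hCX, (hXY.mono_right (erase_subset _ _)).symm⟩

/-- LEMMA H. -/
theorem hv_keep (hr : Rk r) (hp : p.1 ⊆ p.2) {f : E} {u : Bool} {X : Finset E}
    (hX : X ⊆ (gs p).erase f) (hf : f ∈ gs p) (hs : lam r p X ≤ 1)
    (h1 : 1 ≤ lam r (rm u f p) X) (h : Hv r p X) : Hv r (rm u f p) X := by
  obtain ⟨C, G⟩ := p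
  have hXs : X ⊆ G \ C := hX.trans (erase_subset _ _)
  have hfX : f ∉ X := fun hfx => (mem_erase.1 (hX hfx)).1 rfl
  have hf' : f ∈ G ∧ f ∉ C := mem_sdiff.1 hf
  obtain ⟨Y, hY⟩ : ∃ Y, Y = (G \ C) \ X := ⟨_, rfl⟩
  obtain ⟨hG, hG', hGX⟩ : C ∪ X ∪ Y = G ∧ C ∪ Y ∪ X = G ∧ G \ X = C ∪ Y := Keep_g1 hp hXs hY
  have hXY : Disjoint X Y := by
    rw [hY]
    exact disjoint_sdiff
  have hCX : Disjoint C X := disjoint_of_subset_right hXs disjoint_sdiff
  have hCY : Disjoint C Y := by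
    rw [hY]
    exact disjoint_of_subset_right sdiff_subset disjoint_sdiff
  have hfY : f ∈ Y := by
    rw [hY, mem_sdiff, mem_sdiff]
    exact ⟨hf', hfX⟩
  have hs' : r (C ∪ X) + r (C ∪ Y) - r (C ∪ Y ∪ X) - r C ≤ 1 := by
    have h2 : lam r (C, G) X = r (C ∪ X) + r (G \ X) - r G - r C := rfl
    rw [h2, hGX] at hs
    rw [hG']
    exact hs
  have hH : Hv r (C, C ∪ X ∪ Y) X := by
    rw [hG]
    exact h
  cases u with
  | true =>
    have h2 : lam r (rm true f (C, G)) X = r (C ∪ X) + r (G.erase f \ X) - r (G.erase f) - r C := rfl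
    have e2 : G.erase f = C ∪ (∅ ∪ Y.erase f) ∪ X := by
      rw [← hG']
      exact (Keep_g2 hf'.2 hfX).2
    rw [h2, e2, Keep_g3 hCX hXY] at h1
    have h3 := Keep_core hr (F := ∅) (Y' := Y.erase f) hXY hCX hCY (empty_subset _) (erase_subset _ _)
      (disjoint_empty_left _) hs' (by rw [union_empty]; omega) h1 hH
    have e3 : C ∪ ∅ ∪ X ∪ Y.erase f = G.erase f := by
      rw [e2, union_empty, empty_union, union_right_comm]
    rw [e3, union_empty] at h3
    exact h3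
  | false =>
    have h2 : lam r (rm false f (C, G)) X = r (insert f C ∪ X) + r (G \ X) - r G - r (insert f C) := rfl
    have e2 : insert f C = C ∪ {f} := by
      rw [union_comm, insert_eq]
    have e3 : {f} ∪ Y.erase f = Y := by
      rw [← insert_eq, insert_erase hfY]
    rw [h2, hGX, e2, ← hG'] at h1
    have hnn : 0 ≤ r (C ∪ X) + r (C ∪ {f}) - r (C ∪ {f} ∪ X) - r C := by
      have h4 := marg hr (show C ⊆ C ∪ X from subset_union_left) f
      have e5 : C ∪ {f} ∪ X = insert f (C ∪ X) := by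
        rw [← e2, insert_union]
      rw [e5, ← e2]
      linarith
    have h3 := Keep_core hr (F := {f}) (Y' := Y.erase f) hXY hCX hCY (singleton_subset_iff.2 hfY)
      (erase_subset _ _) (disjoint_singleton_left.2 (notMem_erase f Y)) hs' (by omega)
      (by rw [e3]; omega) hH
    have e4 : C ∪ {f} ∪ X ∪ Y.erase f = G := by
      rw [union_assoc C {f} X, union_comm {f} X, ← union_assoc, union_assoc, e3, hG]
    rw [e4, ← e2] at h3
    exact h3

end QUB
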