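import Pool.Agent.QUB.Defs

/-! The connectivity function: symmetry, submodularity, behaviour under removal.

Everything under removal is `marg` (marginals decrease), `unit` and `mono`.
-/

namespace QUB

open Finset

variable {E : Type*} [DecidableEq E] {r : Finset E → ℤ} {p : Mn E}

private theorem la_eq1 {p : Mn E} {A : Finset E} (h : p.1 ⊆ p.2) (hA : A ⊆ gs p) :
    p.1 ∪ (gs p \ A) = p.2 \ A := by
  ext y
  have h1 : y ∈ p.1 → y ∈ p.2 := fun hy => h hy
  have h2 : y ∈ A → y ∈ p.2 ∧ y ∉ p.1 := fun hy => mem_sdiff.1 (hA hy)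
  simp only [mem_union, mem_sdiff, gs]
  tauto

private theorem la_eq2 {p : Mn E} {A : Finset E} (h : p.1 ⊆ p.2) (hA : A ⊆ gs p) :
    p.2 \ (gs p \ A) = p.1 ∪ A := by
  ext y
  have h1 : y ∈ p.1 → y ∈ p.2 := fun hy => h hy
  have h2 : y ∈ A → y ∈ p.2 ∧ y ∉ p.1 := fun hy => mem_sdiff.1 (hA hy)
  simp only [mem_union, mem_sdiff, gs]
  tauto

/-- Symmetry. -/
theorem lam_compl (r : Finset E → ℤ) (h : p.1 ⊆ p.2) {A : Finset E} (hA : A ⊆ gs p) :
    lam r p (gs p \ A) = lam r p A := by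
  unfold lam
  rw [la_eq1 h hA, la_eq2 h hA]
  ring

/-- Submodularity. -/
theorem lam_sub (hr : Rk r) (A B : Finset E) :
    lam r p (A ∩ B) + lam r p (A ∪ B) ≤ lam r p A + lam r p B := by
  have h1 := hr.sub (p.1 ∪ A) (p.1 ∪ B)
  have h2 := hr.sub (p.2 \ A) (p.2 \ B)
  have e1 : (p.1 ∪ A) ∪ (p.1 ∪ B) = p.1 ∪ (A ∪ B) := by
    ext y; simp only [mem_union]; tauto
  have e2 : (p.1 ∪ A) ∩ (p.1 ∪ B) = p.1 ∪ (A ∩ B) := by
    ext y; simp only [mem_union, mem_inter]; tauto
  have e3 : (p.2 \ A) ∪ (p.2 \ B) = p.2 \ (A ∩ B) := by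
    ext y; simp only [mem_union, mem_inter, mem_sdiff]; tauto
  have e4 : (p.2 \ A) ∩ (p.2 \ B) = p.2 \ (A ∪ B) := by
    ext y; simp only [mem_union, mem_inter, mem_sdiff]; tauto
  rw [e1, e2] at h1
  rw [e3, e4] at h2
  unfold lam
  linarith

/-- Posimodularity. -/
theorem lam_pos (hr : Rk r) (h : p.1 ⊆ p.2) {A B : Finset E} (hA : A ⊆ gs p) (hB : B ⊆ gs p) :
    lam r p (A \ B) + lam r p (B \ A) ≤ lam r p A + lam r p B := by
  have h1 := lam_sub (p := p) hr A (gs p \ B)
  have e1 : A ∩ (gs p \ B) = A \ B := by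
    ext y
    have h2 : y ∈ A → y ∈ gs p := fun hy => hA hy
    simp only [mem_inter, mem_sdiff]; tauto
  have e2 : A ∪ (gs p \ B) = gs p \ (B \ A) := by
    ext y
    have h2 : y ∈ A → y ∈ gs p := fun hy => hA hy
    simp only [mem_union, mem_sdiff]; tauto
  rw [e1, e2, lam_compl r h hB, lam_compl r h (sdiff_subset.trans hB)] at h1
  linarith

theorem lam_nonneg (hr : Rk r) (h : p.1 ⊆ p.2) {A : Finset E} (hA : A ⊆ gs p) :
    0 ≤ lam r p A := by
  have h1 := hr.sub (p.1 ∪ A) (p.2 \ A)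
  have e1 : (p.1 ∪ A) ∪ (p.2 \ A) = p.2 := by
    ext y
    have h1 : y ∈ p.1 → y ∈ p.2 := fun hy => h hy
    have h2 : y ∈ A → y ∈ p.2 ∧ y ∉ p.1 := fun hy => mem_sdiff.1 (hA hy)
    simp only [mem_union, mem_sdiff]; tauto
  have e2 : (p.1 ∪ A) ∩ (p.2 \ A) = p.1 := by
    ext y
    have h1 : y ∈ p.1 → y ∈ p.2 := fun hy => h hy
    have h2 : y ∈ A → y ∈ p.2 ∧ y ∉ p.1 := fun hy => mem_sdiff.1 (hA hy)
    simp only [mem_union, mem_sdiff, mem_inter]; tauto
  rw [e1, e2] at h1
  unfold lam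
  linarith

theorem lam_empty (r : Finset E → ℤ) (p : Mn E) : lam r p ∅ = 0 := by
  unfold lam
  simp

theorem lam_full (r : Finset E → ℤ) (h : p.1 ⊆ p.2) : lam r p (gs p) = 0 := by
  have h1 := lam_compl r h (empty_subset (gs p))
  rw [sdiff_empty, lam_empty] at h1
  exact h1

/-- marginal inequality -/
theorem marg (hr : Rk r) {A B : Finset E} (h : A ⊆ B) (x : E) :
    r (insert x B) + r A ≤ r (insert x A) + r B := by
  by_cases hx : x ∈ B
  · rw [insert_eq_of_mem hx]
    have := hr.mono A (insert x A) (subset_insert x A)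
    linarith
  · have h1 := hr.sub (insert x A) B
    have e1 : insert x A ∪ B = insert x B := by
      ext y
      have h2 : y ∈ A → y ∈ B := fun hy => h hy
      simp only [mem_union, mem_insert]; tauto
    have e2 : insert x A ∩ B = A := by
      ext y
      have h2 : y ∈ A → y ∈ B := fun hy => h hy
      simp only [mem_inter, mem_insert]
      constructor
      · rintro ⟨rfl | h3, h4⟩
        · exact absurd h4 hx
        · exact h3
      · intro h3
        exact ⟨Or.inr h3, h2 h3⟩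
    rw [e1, e2] at h1
    linarith

private theorem la_ins1 {G A : Finset E} {x : E} (hx : x ∈ G) (hA : x ∉ A) :
    insert x (G.erase x \ A) = G \ A := by
  ext y
  simp only [mem_insert, mem_sdiff, mem_erase]
  constructor
  · rintro (rfl | ⟨⟨_, h2⟩, h3⟩)
    · exact ⟨hx, hA⟩
    · exact ⟨h2, h3⟩
  · rintro ⟨h1, h2⟩
    by_cases h : y = x
    · exact Or.inl h
    · exact Or.inr ⟨⟨h, h1⟩, h2⟩

private theorem la_ins2 {C A : Finset E} {x : E} : insert x C ∪ A = insert x (C ∪ A) :=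
  insert_union x C A

private theorem la_ins3 {C A : Finset E} {x : E} : C ∪ insert x A = insert x (C ∪ A) :=
  union_insert x C A

private theorem la_ins4 {G A : Finset E} {x : E} : G \ insert x A = G.erase x \ A := by
  ext y
  simp only [mem_insert, mem_sdiff, mem_erase]
  tauto

private theorem la_x1 {x : E} (hx : x ∈ gs p) : x ∈ p.2 := (mem_sdiff.1 hx).1

private theorem la_x2 {x : E} (hx : x ∈ gs p) : x ∉ p.1 := (mem_sdiff.1 hx).2

private theorem la_x3 {x : E} {A : Finset E} (hA : A ⊆ (gs p).erase x) : x ∉ A := fun h =>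
  (mem_erase.1 (hA h)).1 rfl

private theorem la_del (r : Finset E → ℤ) (p : Mn E) (x : E) (A : Finset E) :
    lam r (rm true x p) A = r (p.1 ∪ A) + r (p.2.erase x \ A) - r (p.2.erase x) - r p.1 := rfl

private theorem la_con (r : Finset E → ℤ) (p : Mn E) (x : E) (A : Finset E) :
    lam r (rm false x p) A = r (insert x (p.1 ∪ A)) + r (p.2 \ A) - r p.2 - r (insert x p.1) := by
  have h : lam r (rm false x p) A =
    r (insert x p.1 ∪ A) + r (p.2 \ A) - r p.2 - r (insert x p.1) := rfl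
  rw [h, la_ins2]

private theorem la_ins (r : Finset E → ℤ) (p : Mn E) (x : E) (A : Finset E) :
    lam r p (insert x A) = r (insert x (p.1 ∪ A)) + r (p.2.erase x \ A) - r p.2 - r p.1 := by
  unfold lam
  rw [la_ins3, la_ins4]

/-- `δ ≥ 0`. -/
theorem lam_rm_le (hr : Rk r) {t : Bool} {x : E} {A : Finset E} (hx : x ∈ gs p)
    (hA : A ⊆ (gs p).erase x) : lam r (rm t x p) A ≤ lam r p A := by
  cases t
  · have h := marg hr (subset_union_left (s₁ := p.1) (s₂ := A)) x
    rw [la_con]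
    unfold lam
    linarith
  · have h := marg hr (sdiff_subset (s := p.2.erase x) (t := A)) x
    rw [insert_erase (la_x1 hx), la_ins1 (la_x1 hx) (la_x3 hA)] at h
    rw [la_del]
    unfold lam
    linarith

/-- The other side: `x` added to `A`. -/
theorem lam_rm_le' (hr : Rk r) (hp : p.1 ⊆ p.2) {t : Bool} {x : E} {A : Finset E} (hx : x ∈ gs p)
    (hA : A ⊆ (gs p).erase x) : lam r (rm t x p) A ≤ lam r p (insert x A) := by
  have hA' : ∀ y ∈ A, y ≠ x ∧ y ∈ p.2 ∧ y ∉ p.1 := fun y hy => by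
    have h := mem_erase.1 (hA hy)
    exact ⟨h.1, mem_sdiff.1 h.2⟩
  have hx2 := la_x2 hx
  cases t
  · have hs : p.1 ⊆ p.2.erase x \ A := by
      intro y hy
      refine mem_sdiff.2 ⟨mem_erase.2 ⟨?_, hp hy⟩, fun h => (hA' y h).2.2 hy⟩
      rintro rfl
      exact hx2 hy
    have h := marg hr hs x
    rw [la_ins1 (la_x1 hx) (la_x3 hA)] at h
    rw [la_con, la_ins]
    linarith
  · have hs : p.1 ∪ A ⊆ p.2.erase x := by
      intro y hy
      rcases mem_union.1 hy with hy | hy
      · refine mem_erase.2 ⟨?_, hp hy⟩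
        rintro rfl
        exact hx2 hy
      · exact mem_erase.2 ⟨(hA' y hy).1, (hA' y hy).2.1⟩
    have h := marg hr hs x
    rw [insert_erase (la_x1 hx)] at h
    rw [la_del, la_ins]
    linarith

theorem lam_le_rm (hr : Rk r) {t : Bool} {x : E} {A : Finset E} (hx : x ∈ gs p)
    (hA : A ⊆ (gs p).erase x) : lam r p A ≤ lam r (rm t x p) A + 1 := by
  cases t
  · have h1 := hr.mono _ _ (subset_insert x (p.1 ∪ A))
    have h2 := hr.unit p.1 x
    rw [la_con]
    unfold lam
    linarith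
  · have h1 := hr.mono _ _ (erase_subset x p.2)
    have h2 := hr.unit (p.2.erase x \ A) x
    rw [la_ins1 (la_x1 hx) (la_x3 hA)] at h2
    rw [la_del]
    unfold lam
    linarith

theorem lam_le_rm' (hr : Rk r) {t : Bool} {x : E} {A : Finset E} (hx : x ∈ gs p)
    (hA : A ⊆ (gs p).erase x) : lam r p (insert x A) ≤ lam r (rm t x p) A + 1 := by
  cases t
  · have h1 := hr.mono _ _ (sdiff_subset_sdiff (erase_subset x p.2) (subset_refl A))
    have h2 := hr.unit p.1 x
    rw [la_con, la_ins]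
    linarith
  · have h1 := hr.mono _ _ (erase_subset x p.2)
    have h2 := hr.unit (p.1 ∪ A) x
    rw [la_del, la_ins]
    linarith

/-- (L3) `δ` is monotone. -/
theorem lam_L3 (hr : Rk r) {t : Bool} {x : E} {A B : Finset E} (hx : x ∈ gs p) (hAB : A ⊆ B)
    (hB : B ⊆ (gs p).erase x) :
    lam r p A - lam r (rm t x p) A ≤ lam r p B - lam r (rm t x p) B := by
  cases t
  · have h := marg hr (union_subset_union_right (s := p.1) hAB) x
    rw [la_con, la_con]
    unfold lam
    linarith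
  · have h := marg hr (sdiff_subset_sdiff (subset_refl (p.2.erase x)) hAB) x
    rw [la_ins1 (la_x1 hx) (la_x3 hB), la_ins1 (la_x1 hx) (la_x3 (hAB.trans hB))] at h
    rw [la_del, la_del]
    unfold lam
    linarith

end QUB
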