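import Pool.Agent.QUB.Lam

/-! Comparison of the defects `δ_x^Q(A) = lam Q A - lam Q_x A` (`x ∉ A`) in a matroid and in its minors.

PLAN: cases on the types, unfold `lam`, `rm`; put `S = gs p = G \ C` and `m_x(Z) = r (insert x Z) - r Z`.
deletion of `x`: `δ_x^Q(A) = m_x(G - A - x) - m_x(G - x)`; contraction: `δ_x^Q(A) = m_x(C) - m_x(C ∪ A)`.
(L4) `e`, `w` both deleted: `δ_e^{Q\w}(A) = m_e(G-A-e-w) - m_e(G-e-w)`, and `1 ≤ lam (rm s w p) {e}` forces
`m_e(G-e-w) = 0` (and `m_e(C) = 1`), both contracted: dual, `m_e(C ∪ w) = 1`; different types: EQUALITY.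
(L5) is `marg` in all four cases.  (L6) both deleted: `m_w(G-w-e) = 0` by the hypothesis; both contracted:
`m_w(C ∪ e) = 1`.  (lam_deg): both deleted: both sides are `1` iff `r (G-e-w) = r G`; both contracted dual.
-/

namespace QUB

open Finset

variable {E : Type*} [DecidableEq E] {r : Finset E → ℤ} {p : Mn E}

/-- the membership facts -/
private theorem lam2_mem {w e : E} {A : Finset E} (hw : w ∈ gs p) (he : e ∈ gs p)
    (hA : A ⊆ ((gs p).erase w).erase e) :
    w ∈ p.2 ∧ w ∉ p.1 ∧ e ∈ p.2 ∧ e ∉ p.1 ∧ w ∉ A ∧ e ∉ A := by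
  refine ⟨(mem_sdiff.1 hw).1, (mem_sdiff.1 hw).2, (mem_sdiff.1 he).1, (mem_sdiff.1 he).2, ?_, ?_⟩
  · intro h
    have h1 := hA h
    simp at h1
  · intro h
    have h1 := hA h
    simp at h1

/-- the set equalities, outside -/
private theorem lam2_out {G C A : Finset E} {w e : E} (hwG : w ∈ G) (hwC : w ∉ C) (heG : e ∈ G)
    (heC : e ∉ C) (hwA : w ∉ A) (heA : e ∉ A) (hew : e ≠ w) :
    (G \ A = insert e (insert w (((G.erase w).erase e) \ A))) ∧
    (G.erase w \ A = insert e (((G.erase w).erase e) \ A)) ∧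
    (G.erase e \ A = insert w (((G.erase w).erase e) \ A)) ∧
    (G.erase w = insert e ((G.erase w).erase e)) ∧
    (G.erase e = insert w ((G.erase w).erase e)) ∧
    (G = insert e (insert w ((G.erase w).erase e))) ∧
    (G \ insert w A = insert e (((G.erase w).erase e) \ A)) ∧
    (G.erase e \ insert w A = ((G.erase w).erase e) \ A) ∧
    (G \ insert e A = insert w (((G.erase w).erase e) \ A)) ∧
    (G.erase w \ insert e A = ((G.erase w).erase e) \ A) ∧
    (G \ {e} = insert w ((G.erase w).erase e)) ∧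
    (G.erase w \ {e} = (G.erase w).erase e) ∧
    (G \ {w} = insert e ((G.erase w).erase e)) ∧
    (G.erase e \ {w} = (G.erase w).erase e) := by
  have hwe : w ≠ e := fun h => hew h.symm
  refine ⟨?_, ?_, ?_, ?_, ?_, ?_, ?_, ?_, ?_, ?_, ?_, ?_, ?_, ?_⟩ <;>
  · ext y
    by_cases h1 : y = e
    · subst h1
      simp [heG, heA, hew]
    · by_cases h2 : y = w
      · subst h2
        simp [hwG, hwA, hwe]
      · simp [h1, h2]

/-- the set equalities, inside -/
private theorem lam2_in (C A : Finset E) (w e : E) :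
    (insert w C ∪ A = insert w (C ∪ A)) ∧ (insert e C ∪ A = insert e (C ∪ A)) ∧
    (insert e (insert w C) ∪ A = insert e (insert w (C ∪ A))) ∧
    (C ∪ insert w A = insert w (C ∪ A)) ∧
    (insert e C ∪ insert w A = insert e (insert w (C ∪ A))) ∧
    (C ∪ insert e A = insert e (C ∪ A)) ∧
    (insert w C ∪ insert e A = insert e (insert w (C ∪ A))) ∧
    (C ∪ {e} = insert e C) ∧ (insert w C ∪ {e} = insert e (insert w C)) ∧
    (C ∪ {w} = insert w C) ∧ (insert e C ∪ {w} = insert e (insert w C)) := by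
  refine ⟨?_, ?_, ?_, ?_, ?_, ?_, ?_, ?_, ?_, ?_, ?_⟩ <;>
  · ext y
    simp only [mem_union, mem_insert, mem_singleton]
    tauto

/-- the inequalities for a chain of two sets -/
private theorem lam2_ineq (hr : Rk r) {A B : Finset E} (h : A ⊆ B) (w e : E) :
    (r (insert e (insert w A)) + r A ≤ r (insert e A) + r (insert w A)) ∧
    (r (insert e (insert w B)) + r B ≤ r (insert e B) + r (insert w B)) ∧
    (r (insert e B) + r A ≤ r (insert e A) + r B) ∧
    (r (insert w B) + r A ≤ r (insert w A) + r B) ∧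
    (r (insert e (insert w B)) + r (insert w A) ≤ r (insert e (insert w A)) + r (insert w B)) ∧
    (r (insert e (insert w B)) + r (insert e A) ≤ r (insert e (insert w A)) + r (insert e B)) ∧
    (r (insert e A) ≤ r A + 1) ∧ (r (insert w A) ≤ r A + 1) ∧ (r (insert e B) ≤ r B + 1) ∧
    (r (insert w B) ≤ r B + 1) ∧ (r (insert e (insert w A)) ≤ r (insert w A) + 1) ∧
    (r (insert e (insert w A)) ≤ r (insert e A) + 1) ∧ (r A ≤ r (insert e A)) ∧
    (r A ≤ r (insert w A)) ∧ (r B ≤ r (insert e B)) ∧ (r B ≤ r (insert w B)) ∧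
    (r (insert w A) ≤ r (insert e (insert w A))) ∧ (r (insert e A) ≤ r (insert e (insert w A))) ∧
    (r (insert w B) ≤ r (insert e (insert w B))) ∧ (r (insert e B) ≤ r (insert e (insert w B))) := by
  have c1 : insert e (insert w A) = insert w (insert e A) := Finset.insert_comm e w A
  have c2 : insert e (insert w B) = insert w (insert e B) := Finset.insert_comm e w B
  refine ⟨marg hr (subset_insert w A) e, marg hr (subset_insert w B) e, marg hr h e, marg hr h w,
    marg hr (insert_subset_insert w h) e, ?_, hr.unit _ _, hr.unit _ _, hr.unit _ _, hr.unit _ _,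
    hr.unit _ _, ?_, hr.mono _ _ (subset_insert _ _), hr.mono _ _ (subset_insert _ _),
    hr.mono _ _ (subset_insert _ _), hr.mono _ _ (subset_insert _ _),
    hr.mono _ _ (subset_insert _ _), ?_, hr.mono _ _ (subset_insert _ _), ?_⟩
  · rw [c1, c2]
    exact marg hr (insert_subset_insert e h) w
  · rw [c1]
    exact hr.unit _ _
  · rw [c1]
    exact hr.mono _ _ (subset_insert _ _)
  · rw [c2]
    exact hr.mono _ _ (subset_insert _ _)


/-- (L4) `δ_e^Q(A) ≤ δ_e^{Q_w}(A)`, if `e` is neither a loop nor a coloop of `Q_w`. -/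
theorem lam_L4 (hr : Rk r) (hp : p.1 ⊆ p.2) {s t : Bool} {w e : E} {A : Finset E} (hw : w ∈ gs p)
    (he : e ∈ gs p) (hew : e ≠ w) (hA : A ⊆ ((gs p).erase w).erase e)
    (h : 1 ≤ lam r (rm s w p) {e}) :
    lam r p A + lam r (rm t e (rm s w p)) A ≤ lam r (rm s w p) A + lam r (rm t e p) A := by
  obtain ⟨m1, m2, m3, m4, m5, m6⟩ := lam2_mem hw he hA
  obtain ⟨o1, o2, o3, o4, o5, o6, o7, o8, o9, o10, o11, o12, o13, o14⟩ :=
    lam2_out m1 m2 m3 m4 m5 m6 hew
  obtain ⟨i1, i2, i3, i4, i5, i6, i7, i8, i9, i10, i11⟩ := lam2_in p.1 A w e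
  have hA1 : A ⊆ (p.2.erase w).erase e := by
    intro y hy
    have h1 := hA hy
    simp only [mem_erase, gs, mem_sdiff] at h1 ⊢
    tauto
  have hC1 : p.1 ⊆ (p.2.erase w).erase e := by
    intro y hy
    simp only [mem_erase]
    exact ⟨fun h => m4 (h ▸ hy), fun h => m2 (h ▸ hy), hp hy⟩
  have q1 := lam2_ineq hr (subset_union_left (s₁ := p.1) (s₂ := A)) w e
  have q2 := lam2_ineq hr (sdiff_subset (s := (p.2.erase w).erase e) (t := A)) w e
  have q3 := lam2_ineq hr (union_subset hC1 hA1) w e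
  have r1 := congrArg r o1
  have r2 := congrArg r o2
  have r3 := congrArg r o3
  have r4 := congrArg r o4
  have r5 := congrArg r o5
  have r6 := congrArg r o6
  have r7 := congrArg r o7
  have r8 := congrArg r o8
  have r9 := congrArg r o9
  have r10 := congrArg r o10
  have r11 := congrArg r o11
  have r12 := congrArg r o12
  have r13 := congrArg r o13
  have r14 := congrArg r o14
  clear o1 o2 o3 o4 o5 o6 o7 o8 o9 o10 o11 o12 o13 o14
  cases s <;> cases t <;>
    simp only [lam, rm, i1, i2, i3, i4, i5, i6, i7, i8, i9, i10, i11] at h ⊢ <;> linarith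

/-- (L4') For different types (L4) is unconditional. -/
theorem lam_L4' (hr : Rk r) (hp : p.1 ⊆ p.2) {s : Bool} {w e : E} {A : Finset E} (hw : w ∈ gs p)
    (he : e ∈ gs p) (hew : e ≠ w) (hA : A ⊆ ((gs p).erase w).erase e) :
    lam r p A + lam r (rm (!s) e (rm s w p)) A ≤ lam r (rm s w p) A + lam r (rm (!s) e p) A := by
  obtain ⟨m1, m2, m3, m4, m5, m6⟩ := lam2_mem hw he hA
  obtain ⟨o1, o2, o3, o4, o5, o6, o7, o8, o9, o10, o11, o12, o13, o14⟩ :=
    lam2_out m1 m2 m3 m4 m5 m6 hew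
  obtain ⟨i1, i2, i3, i4, i5, i6, i7, i8, i9, i10, i11⟩ := lam2_in p.1 A w e
  have hA1 : A ⊆ (p.2.erase w).erase e := by
    intro y hy
    have h1 := hA hy
    simp only [mem_erase, gs, mem_sdiff] at h1 ⊢
    tauto
  have hC1 : p.1 ⊆ (p.2.erase w).erase e := by
    intro y hy
    simp only [mem_erase]
    exact ⟨fun h => m4 (h ▸ hy), fun h => m2 (h ▸ hy), hp hy⟩
  have q1 := lam2_ineq hr (subset_union_left (s₁ := p.1) (s₂ := A)) w e
  have q2 := lam2_ineq hr (sdiff_subset (s := (p.2.erase w).erase e) (t := A)) w e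
  have q3 := lam2_ineq hr (union_subset hC1 hA1) w e
  have r1 := congrArg r o1
  have r2 := congrArg r o2
  have r3 := congrArg r o3
  have r4 := congrArg r o4
  have r5 := congrArg r o5
  have r6 := congrArg r o6
  have r7 := congrArg r o7
  have r8 := congrArg r o8
  have r9 := congrArg r o9
  have r10 := congrArg r o10
  have r11 := congrArg r o11
  have r12 := congrArg r o12
  have r13 := congrArg r o13
  have r14 := congrArg r o14
  clear o1 o2 o3 o4 o5 o6 o7 o8 o9 o10 o11 o12 o13 o14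
  cases s <;>
    simp only [lam, rm, Bool.not_true, Bool.not_false, i1, i2, i3, i4, i5, i6, i7, i8, i9, i10, i11] <;>
    linarith

/-- (L5) `δ_e^{Q_w}(A) ≤ δ_e^Q(A ∪ w)`. -/
theorem lam_L5 (hr : Rk r) (hp : p.1 ⊆ p.2) {s t : Bool} {w e : E} {A : Finset E} (hw : w ∈ gs p)
    (he : e ∈ gs p) (hew : e ≠ w) (hA : A ⊆ ((gs p).erase w).erase e) :
    lam r (rm s w p) A + lam r (rm t e p) (insert w A) ≤
      lam r p (insert w A) + lam r (rm t e (rm s w p)) A := by
  obtain ⟨m1, m2, m3, m4, m5, m6⟩ := lam2_mem hw he hA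
  obtain ⟨o1, o2, o3, o4, o5, o6, o7, o8, o9, o10, o11, o12, o13, o14⟩ :=
    lam2_out m1 m2 m3 m4 m5 m6 hew
  obtain ⟨i1, i2, i3, i4, i5, i6, i7, i8, i9, i10, i11⟩ := lam2_in p.1 A w e
  have hA1 : A ⊆ (p.2.erase w).erase e := by
    intro y hy
    have h1 := hA hy
    simp only [mem_erase, gs, mem_sdiff] at h1 ⊢
    tauto
  have hC1 : p.1 ⊆ (p.2.erase w).erase e := by
    intro y hy
    simp only [mem_erase]
    exact ⟨fun h => m4 (h ▸ hy), fun h => m2 (h ▸ hy), hp hy⟩
  have q1 := lam2_ineq hr (subset_union_left (s₁ := p.1) (s₂ := A)) w e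
  have q2 := lam2_ineq hr (sdiff_subset (s := (p.2.erase w).erase e) (t := A)) w e
  have q3 := lam2_ineq hr (union_subset hC1 hA1) w e
  have r1 := congrArg r o1
  have r2 := congrArg r o2
  have r3 := congrArg r o3
  have r4 := congrArg r o4
  have r5 := congrArg r o5
  have r6 := congrArg r o6
  have r7 := congrArg r o7
  have r8 := congrArg r o8
  have r9 := congrArg r o9
  have r10 := congrArg r o10
  have r11 := congrArg r o11
  have r12 := congrArg r o12
  have r13 := congrArg r o13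
  have r14 := congrArg r o14
  clear o1 o2 o3 o4 o5 o6 o7 o8 o9 o10 o11 o12 o13 o14
  cases s <;> cases t <;>
    simp only [lam, rm, i1, i2, i3, i4, i5, i6, i7, i8, i9, i10, i11] <;> linarith

/-- (L6) Same type: `δ_w^Q(A ∪ e) ≤ δ_w^{Q_e}(A)`, if `w` is neither a loop nor a coloop of `Q_e`. -/
theorem lam_L6 (hr : Rk r) (hp : p.1 ⊆ p.2) {t : Bool} {w e : E} {A : Finset E} (hw : w ∈ gs p)
    (he : e ∈ gs p) (hew : e ≠ w) (hA : A ⊆ ((gs p).erase w).erase e)
    (h : 1 ≤ lam r (rm t e p) {w}) :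
    lam r p (insert e A) + lam r (rm t w (rm t e p)) A ≤
      lam r (rm t w p) (insert e A) + lam r (rm t e p) A := by
  obtain ⟨m1, m2, m3, m4, m5, m6⟩ := lam2_mem hw he hA
  obtain ⟨o1, o2, o3, o4, o5, o6, o7, o8, o9, o10, o11, o12, o13, o14⟩ :=
    lam2_out m1 m2 m3 m4 m5 m6 hew
  obtain ⟨i1, i2, i3, i4, i5, i6, i7, i8, i9, i10, i11⟩ := lam2_in p.1 A w e
  have hA1 : A ⊆ (p.2.erase w).erase e := by
    intro y hy
    have h1 := hA hy
    simp only [mem_erase, gs, mem_sdiff] at h1 ⊢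
    tauto
  have hC1 : p.1 ⊆ (p.2.erase w).erase e := by
    intro y hy
    simp only [mem_erase]
    exact ⟨fun h => m4 (h ▸ hy), fun h => m2 (h ▸ hy), hp hy⟩
  have q1 := lam2_ineq hr (subset_union_left (s₁ := p.1) (s₂ := A)) w e
  have q2 := lam2_ineq hr (sdiff_subset (s := (p.2.erase w).erase e) (t := A)) w e
  have q3 := lam2_ineq hr (union_subset hC1 hA1) w e
  have r1 := congrArg r o1
  have r2 := congrArg r o2
  have r3 := congrArg r o3
  have r4 := congrArg r o4
  have r5 := congrArg r o5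
  have r6 := congrArg r o6
  have r7 := congrArg r o7
  have r8 := congrArg r o8
  have r9 := congrArg r o9
  have r10 := congrArg r o10
  have r11 := congrArg r o11
  have r12 := congrArg r o12
  have r13 := congrArg r o13
  have r14 := congrArg r o14
  clear o1 o2 o3 o4 o5 o6 o7 o8 o9 o10 o11 o12 o13 o14
  rw [rm_comm t t p]
  cases t <;>
    simp only [lam, rm, i1, i2, i3, i4, i5, i6, i7, i8, i9, i10, i11] at h ⊢ <;> linarith

/-- Same type, `e` and `w` neither loops nor coloops: being degenerate is symmetric. -/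
theorem lam_deg (hr : Rk r) (hp : p.1 ⊆ p.2) {t : Bool} {w e : E} (hw : w ∈ gs p) (he : e ∈ gs p)
    (hew : e ≠ w) (h1 : 1 ≤ lam r p {e}) (h2 : 1 ≤ lam r p {w}) :
    lam r (rm t e p) {w} = lam r (rm t w p) {e} := by
  have hA : (∅ : Finset E) ⊆ ((gs p).erase w).erase e := empty_subset _
  obtain ⟨m1, m2, m3, m4, m5, m6⟩ := lam2_mem hw he hA
  obtain ⟨o1, o2, o3, o4, o5, o6, o7, o8, o9, o10, o11, o12, o13, o14⟩ :=
    lam2_out m1 m2 m3 m4 m5 m6 hew
  obtain ⟨i1, i2, i3, i4, i5, i6, i7, i8, i9, i10, i11⟩ := lam2_in p.1 ∅ w e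
  have hA1 : (∅ : Finset E) ⊆ (p.2.erase w).erase e := empty_subset _
  have hC1 : p.1 ⊆ (p.2.erase w).erase e := by
    intro y hy
    simp only [mem_erase]
    exact ⟨fun h => m4 (h ▸ hy), fun h => m2 (h ▸ hy), hp hy⟩
  have q1 := lam2_ineq hr (subset_union_left (s₁ := p.1) (s₂ := ∅)) w e
  have q2 := lam2_ineq hr (sdiff_subset (s := (p.2.erase w).erase e) (t := ∅)) w e
  have q3 := lam2_ineq hr (union_subset hC1 hA1) w e
  have r1 := congrArg r o1
  have r2 := congrArg r o2
  have r3 := congrArg r o3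
  have r4 := congrArg r o4
  have r5 := congrArg r o5
  have r6 := congrArg r o6
  have r7 := congrArg r o7
  have r8 := congrArg r o8
  have r9 := congrArg r o9
  have r10 := congrArg r o10
  have r11 := congrArg r o11
  have r12 := congrArg r o12
  have r13 := congrArg r o13
  have r14 := congrArg r o14
  clear o1 o2 o3 o4 o5 o6 o7 o8 o9 o10 o11 o12 o13 o14
  cases t <;>
    simp only [lam, rm, i1, i2, i3, i4, i5, i6, i7, i8, i9, i10, i11] at h1 h2 ⊢ <;> linarith

end QUB
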