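import Pool.Agent.QUB.Lam

/-! Four point line minors and separations of order two.

A four point line minor `N` of `p` uses only elements of the ground set of `p`, it is a minor of `p` if it is one of a
minor of `p`, and it avoids removed elements. (F1): if a separation `A` of order two splits `N` into two pairs, then
contracting the witness `Y` and deleting everything outside `Y ∪ N` does not increase the connectivity (three uses of
submodularity for each step), so that it is at least `2`, a contradiction.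
-/

namespace QUB

open Finset

variable {E : Type*} [DecidableEq E] {r : Finset E → ℤ} {p : Mn E}

theorem Ln.sub {N : Finset E} (h : Ln r p N) : N ⊆ gs p := by
  obtain ⟨_, Y, h1, h2, h3, _, _⟩ := h
  intro y hy
  refine mem_sdiff.2 ⟨h2 (mem_union_right _ hy), fun h4 => ?_⟩
  exact (disjoint_left.1 h3 hy) (h1 h4)

theorem Ln.rm {t : Bool} {x : E} {N : Finset E} (h : Ln r (rm t x p) N) : Ln r p N := by
  obtain ⟨h0, Y, h1, h2, h3, h4, h5⟩ := h
  cases t
  · exact ⟨h0, Y, (subset_insert x p.1).trans h1, h2, h3, h4, h5⟩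
  · exact ⟨h0, Y, h1, h2.trans (erase_subset x p.2), h3, h4, h5⟩

theorem Ln.not_mem {t : Bool} {x : E} {N : Finset E} (h : Ln r (QUB.rm t x p) N) : x ∉ N := by
  obtain ⟨_, Y, h1, h2, h3, _, _⟩ := h
  intro hx
  cases t
  · exact (disjoint_left.1 h3 hx) (h1 (mem_insert_self x p.1))
  · exact (mem_erase.1 (h2 (mem_union_right _ hx))).1 rfl

private theorem line_pair {N Y B : Finset E} (hc : B.card = 2) (hB : B ⊆ N)
    (h5 : ∀ i ∈ N, ∀ j ∈ N, i ≠ j → r (insert i (insert j Y)) = r Y + 2) :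
    r (Y ∪ B) = r Y + 2 := by
  obtain ⟨i, j, hij, rfl⟩ := card_eq_two.1 hc
  have e : Y ∪ {i, j} = insert i (insert j Y) := by
    ext y
    simp only [mem_union, mem_insert, mem_singleton]
    tauto
  rw [e]
  exact h5 i (hB (mem_insert_self _ _)) j (hB (mem_insert_of_mem (mem_singleton_self _))) hij

/-- (F1) A four point line is not split two-two by a separation of order two. -/
theorem F1 (hr : Rk r) (hp : p.1 ⊆ p.2) {A N : Finset E} (hA : A ⊆ gs p) (h : lam r p A ≤ 1)
    (hN : Ln r p N) : (N ∩ A).card ≠ 2 := by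
  intro hc
  obtain ⟨h0, Y, h1, h2, h3, h4, h5⟩ := hN
  have hAG : ∀ y, y ∈ A → y ∈ p.2 ∧ y ∉ p.1 := fun y hy => mem_sdiff.1 (hA hy)
  have hCG : ∀ y, y ∈ p.1 → y ∈ p.2 := fun y hy => hp hy
  have hCY : ∀ y, y ∈ p.1 → y ∈ Y := fun y hy => h1 hy
  have hYG : ∀ y, y ∈ Y → y ∈ p.2 := fun y hy => h2 (mem_union_left _ hy)
  have hNG : ∀ y, y ∈ N → y ∈ p.2 := fun y hy => h2 (mem_union_right _ hy)
  have hNY : ∀ y, y ∈ N → y ∉ Y := fun y hy => disjoint_left.1 h3 hy
  have hc2 : (N \ A).card = 2 := by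
    have := card_sdiff_add_card_inter N A
    omega
  have p1 := line_pair (r := r) hc inter_subset_left h5
  have p2 := line_pair (r := r) hc2 sdiff_subset h5
  -- contraction of `Y`
  have s1 := hr.sub (p.1 ∪ A) Y
  have s2 := hr.sub (p.2 \ A) Y
  have s3 := hr.sub ((p.1 ∪ A) ∩ Y) ((p.2 \ A) ∩ Y)
  have e1 : ((p.1 ∪ A) ∩ Y) ∪ ((p.2 \ A) ∩ Y) = Y := by
    ext y
    have := hYG y
    simp only [mem_union, mem_inter, mem_sdiff]
    tauto
  have e2 : ((p.1 ∪ A) ∩ Y) ∩ ((p.2 \ A) ∩ Y) = p.1 := by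
    ext y
    have a1 := hAG y
    have a2 := hCG y
    have a3 := hCY y
    simp only [mem_union, mem_inter, mem_sdiff]
    tauto
  rw [e1, e2] at s3
  -- deletion of everything outside `Y ∪ N`
  have s4 := hr.sub ((p.1 ∪ A) ∪ Y) (Y ∪ N)
  have s5 := hr.sub ((p.2 \ A) ∪ Y) (((p.1 ∪ A) ∪ Y) ∪ (Y ∪ N))
  have e3 : ((p.1 ∪ A) ∪ Y) ∩ (Y ∪ N) = Y ∪ (N ∩ A) := by
    ext y
    have a3 := hCY y
    simp only [mem_union, mem_inter]
    tauto
  have e4 : ((p.2 \ A) ∪ Y) ∪ (((p.1 ∪ A) ∪ Y) ∪ (Y ∪ N)) = p.2 := by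
    ext y
    have a1 := hAG y
    have a2 := hCG y
    have a3 := hYG y
    have a4 := hNG y
    simp only [mem_union, mem_sdiff]
    tauto
  have e5 : ((p.2 \ A) ∪ Y) ∩ (((p.1 ∪ A) ∪ Y) ∪ (Y ∪ N)) = Y ∪ (N \ A) := by
    ext y
    have a1 := hAG y
    have a2 := hCG y
    have a3 := hCY y
    have a4 := hNG y
    simp only [mem_union, mem_inter, mem_sdiff]
    tauto
  rw [e3] at s4
  rw [e4, e5] at s5
  unfold lam at h
  linarith

end QUB
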