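import Pool.Agent.QUB.Line

/-! Moving elements between the sides of a separation.

Heavy sides are split by `F1`, the connectivity function changes by marginals (`marg`).
-/

namespace QUB

open Finset

variable {E : Type*} [DecidableEq E] {r : Finset E → ℤ} {p : Mn E}

theorem lam_single_le (hr : Rk r) {x : E} (hx : x ∈ gs p) : lam r p {x} ≤ 1 := by
  have h1 := hr.unit p.1 x
  have h2 := hr.mono (p.2 \ {x}) p.2 sdiff_subset
  have e1 : p.1 ∪ {x} = insert x p.1 := by
    rw [union_comm]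
    rfl
  unfold lam
  rw [e1]
  linarith

theorem Cn.single {x : E} (h : Cn r p) (hx : x ∈ gs p) (h2 : ((gs p).erase x).Nonempty) :
    1 ≤ lam r p {x} := by
  refine h {x} (singleton_subset_iff.2 hx) (singleton_nonempty x) ?_
  rwa [sdiff_singleton_eq_erase]

theorem Hv.mono {A B : Finset E} (h : Hv r p A) (hAB : A ⊆ B) : Hv r p B := by
  obtain ⟨N, hN, hc⟩ := h
  exact ⟨N, hN, hc.trans (card_le_card (inter_subset_inter_left hAB))⟩

theorem Hv.rm {t : Bool} {x : E} {A : Finset E} (h : Hv r (rm t x p) A) : Hv r p A := by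
  obtain ⟨N, hN, hc⟩ := h
  exact ⟨N, hN.rm, hc⟩

theorem Hv.rm_erase {t : Bool} {x : E} {A : Finset E} (h : Hv r (QUB.rm t x p) A) :
    Hv r (QUB.rm t x p) (A.erase x) := by
  obtain ⟨N, hN, hc⟩ := h
  refine ⟨N, hN, ?_⟩
  have hx := hN.not_mem
  have e : N ∩ A.erase x = N ∩ A := by
    ext y
    simp only [mem_inter, mem_erase]
    constructor
    · rintro ⟨h1, -, h2⟩
      exact ⟨h1, h2⟩
    · rintro ⟨h1, h2⟩
      refine ⟨h1, ?_, h2⟩
      rintro rfl
      exact hx h1
  rw [e]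
  exact hc

/-- a heavy side of a separation of order two has at least three elements -/
theorem Hv.card {A : Finset E} (h : Hv r p A) : 3 ≤ A.card := by
  obtain ⟨N, hN, hc⟩ := h
  exact hc.trans (card_le_card inter_subset_right)

/-- one of the two parts of a heavy set is heavy, if both have order at most two -/
theorem Hv.split (hr : Rk r) (hp : p.1 ⊆ p.2) {A B : Finset E} (hA : A ⊆ gs p) (hB : B ⊆ gs p)
    (h1 : lam r p A ≤ 1) (h2 : lam r p B ≤ 1) (h : Hv r p (A ∪ B)) : Hv r p A ∨ Hv r p B := by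
  obtain ⟨N, hN, hc⟩ := h
  have f1 := F1 hr hp hA h1 hN
  have f2 := F1 hr hp hB h2 hN
  rw [inter_union_distrib_left] at hc
  have h3 := card_union_le (N ∩ A) (N ∩ B)
  by_cases h4 : 3 ≤ (N ∩ A).card
  · exact Or.inl ⟨N, hN, h4⟩
  · exact Or.inr ⟨N, hN, by omega⟩

/-- erasing one element keeps a side heavy -/
theorem Hv.erase (hr : Rk r) (hp : p.1 ⊆ p.2) {A : Finset E} {x : E} (hA : A ⊆ gs p)
    (h1 : lam r p (A.erase x) ≤ 1) (h : Hv r p A) : Hv r p (A.erase x) := by
  obtain ⟨N, hN, hc⟩ := h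
  have f1 := F1 hr hp ((erase_subset x A).trans hA) h1 hN
  refine ⟨N, hN, ?_⟩
  have e : N ∩ A.erase x = (N ∩ A).erase x := by
    ext y
    simp only [mem_inter, mem_erase]
    tauto
  rw [e] at f1 ⊢
  have h2 := pred_card_le_card_erase (s := N ∩ A) (a := x)
  omega

/-- an element of `A` in the closure of the rest can be moved to the other side -/
theorem lam_erase_cl (hr : Rk r) (hp : p.1 ⊆ p.2) {A B : Finset E} {x : E} (hx : x ∈ A) (hA : A ⊆ gs p)
    (hB : B ⊆ gs p \ A) (h : r (insert x (p.1 ∪ B)) = r (p.1 ∪ B)) :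
    lam r p (A.erase x) ≤ lam r p A := by
  have hxG := mem_sdiff.1 (hA hx)
  have e1 : p.2 \ A.erase x = insert x (p.2 \ A) := by
    ext y
    simp only [mem_sdiff, mem_erase, mem_insert]
    constructor
    · rintro ⟨h1, h2⟩
      by_cases h3 : y = x
      · exact Or.inl h3
      · exact Or.inr ⟨h1, fun h4 => h2 ⟨h3, h4⟩⟩
    · rintro (rfl | ⟨h1, h2⟩)
      · exact ⟨hxG.1, fun h4 => h4.1 rfl⟩
      · exact ⟨h1, fun h4 => h2 h4.2⟩
  have hsub : p.1 ∪ B ⊆ p.2 \ A := by
    intro y hy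
    rcases mem_union.1 hy with h1 | h1
    · exact mem_sdiff.2 ⟨hp h1, fun h2 => (mem_sdiff.1 (hA h2)).2 h1⟩
    · have h2 := mem_sdiff.1 (hB h1)
      exact mem_sdiff.2 ⟨(mem_sdiff.1 h2.1).1, h2.2⟩
  have h1 := marg hr hsub x
  have h2 := hr.mono (p.1 ∪ A.erase x) (p.1 ∪ A) (union_subset_union_right (erase_subset x A))
  unfold lam
  rw [e1]
  linarith

/-- an element of `A` in the coclosure of the other side can be moved to the other side -/
theorem lam_erase_cocl (hr : Rk r) {A B : Finset E} {x : E} (hx : x ∈ A) (hA : A ⊆ gs p)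
    (hp : p.1 ⊆ p.2) (hB : A ⊆ B) (hB2 : B ⊆ gs p)
    (h : r ((p.1 ∪ B).erase x) + 1 ≤ r (p.1 ∪ B)) :
    lam r p (A.erase x) ≤ lam r p A := by
  have hxG := mem_sdiff.1 (hA hx)
  have e1 : p.2 \ A.erase x = insert x (p.2 \ A) := by
    ext y
    simp only [mem_sdiff, mem_erase, mem_insert]
    constructor
    · rintro ⟨h1, h2⟩
      by_cases h3 : y = x
      · exact Or.inl h3
      · exact Or.inr ⟨h1, fun h4 => h2 ⟨h3, h4⟩⟩
    · rintro (rfl | ⟨h1, h2⟩)
      · exact ⟨hxG.1, fun h4 => h4.1 rfl⟩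
      · exact ⟨h1, fun h4 => h2 h4.2⟩
  have e2 : insert x (p.1 ∪ A.erase x) = p.1 ∪ A := by
    ext y
    simp only [mem_union, mem_erase, mem_insert]
    constructor
    · rintro (rfl | h1 | ⟨-, h1⟩)
      · exact Or.inr hx
      · exact Or.inl h1
      · exact Or.inr h1
    · rintro (h1 | h1)
      · exact Or.inr (Or.inl h1)
      · by_cases h3 : y = x
        · exact Or.inl h3
        · exact Or.inr (Or.inr ⟨h3, h1⟩)
  have e3 : insert x ((p.1 ∪ B).erase x) = p.1 ∪ B :=
    insert_erase (mem_union_right _ (hB hx))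
  have hsub : p.1 ∪ A.erase x ⊆ (p.1 ∪ B).erase x := by
    intro y hy
    rw [mem_erase]
    rcases mem_union.1 hy with h1 | h1
    · refine ⟨?_, mem_union_left _ h1⟩
      rintro rfl
      exact hxG.2 h1
    · exact ⟨(mem_erase.1 h1).1, mem_union_right _ (hB (mem_erase.1 h1).2)⟩
  have h1 := marg hr hsub x
  rw [e2, e3] at h1
  have h2 := hr.unit (p.2 \ A) x
  unfold lam
  rw [e1]
  linarith

end QUB
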