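import Pool.Agent.QUB.Lam2
import Pool.Agent.QUB.Line

/-! LEMMA 1: independence across a split.

PLAN (type-free; `Q = p`, `R = p_{e,f}`, `δ_x^Q(A) = lam Q A - lam Q_x A`; `rm_comm` commutes removals).
Let `A ⊆ gs R`, `lam R A ≤ 1`, `A` and `B = gs R \ A` heavy in `R`, and by symmetry (`lam_compl`) `w ∈ B`.
(c1) For `A₁ ⊆ X.erase e`: `lam p_e A₁ ≤ lam R A₁`: (L4) for `Q = p_e` and the elements `f`, `w` (`f` is no loop or coloop of
`p_{e,w}`, which is connected) gives `δ_f^{p_e}(A₁) ≤ δ_f^{p_{e,w}}(A₁) ≤ δ_f^{p_{e,w}}(X - e)` (L3) `≤ 1 - 1 = 0`, because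
`lam p_{e,w} (X - e) ≤ lam p_w X ≤ 1` and `1 ≤ lam R_w (X - e)` (`R_w` connected, `X - e`, `Y - f` nonempty).
(c2) the same for `A₁ ⊆ Y.erase f` and `p_f`.
Case 1: `A ⊆ X.erase e`: `lam p_e A ≤ 1`, contradicts `oe` (heavy in a minor gives heavy: `Ln.rm`; complement `∪ f`).
Case 2: `A ⊆ Y.erase f`: same with `of`.  Case 3: `B ∩ Y = ∅`, so `B ⊆ (X - e) ∪ w`: `δ_f^Q(X ∪ w) ≤ 0`, otherwise
`lam p_f (X ∪ w) ≤ lam Q (X ∪ w) - 1 = lam Q Y - 1 ≤ lam p_w Y ≤ 1` and both sides are heavy in `p_f`, against `of`; by (L5)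
`δ_f^{p_e}((X - e) ∪ w) ≤ δ_f^Q(X ∪ w) ≤ 0`, by (L3) `lam p_e B ≤ lam R B ≤ 1`: contradicts `oe`.  Case 4: `B ∩ X = ∅`: the
same with `e` and `f` exchanged, contradicts `of`.  Case 5: `A ∩ X`, `A ∩ Y`, `B ∩ X`, `B ∩ Y` nonempty: in the connected `R_w`
uncross (`lam_sub`) `A` with `X - e` and with `Y - f`: `lam R_w (A ∩ X) = lam R_w (A ∩ Y) = 1`; `δ_w^R(A) ≤ 1 - 1 = 0` so by (L3)
`lam R (A ∩ X) ≤ 1`, `lam R (A ∩ Y) ≤ 1`, by (c1), (c2) also in `p_e`, `p_f`. `N ∈ Ln R` with `|N ∩ A| ≥ 3`: by (F1) in `R`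
`|N ∩ (A ∩ X)| ≥ 3` or `|N ∩ (A ∩ Y)| ≥ 3`: contradicts `oe` resp. `of` (the complement contains `B`).
-/

namespace QUB

open Finset

variable {E : Type*} [DecidableEq E] {r : Finset E → ℤ} {p : Mn E}

private theorem one_hv_mono {q : Mn E} {A B : Finset E} (h : Hv r q A) (hAB : A ⊆ B) :
    Hv r q B := by
  obtain ⟨N, hN, h3⟩ := h
  exact ⟨N, hN, h3.trans (card_le_card (inter_subset_inter_left hAB))⟩

private theorem one_hv_rm {q : Mn E} {t : Bool} {x : E} {A : Finset E}
    (h : Hv r (rm t x q) A) : Hv r q A := by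
  obtain ⟨N, hN, h3⟩ := h
  exact ⟨N, hN.rm, h3⟩

private theorem one_hv_ne {q : Mn E} {A : Finset E} (h : Hv r q A) : A.Nonempty := by
  obtain ⟨N, _, h3⟩ := h
  have h4 : (N ∩ A).Nonempty := card_pos.1 (by omega)
  obtain ⟨y, hy⟩ := h4
  exact ⟨y, (mem_inter.1 hy).2⟩

private theorem one_con {q : Mn E} (h : Ok r q) {u : Bool} {f : E} {A B : Finset E}
    (hA : A ⊆ gs q) (hB : B ⊆ gs q) (hd : Disjoint A B) (hl : lam r q A ≤ 1)
    (h1 : Hv r (rm u f q) A) (h2 : Hv r (rm u f q) B) : False := by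
  refine h A hA hl ⟨one_hv_rm h1, one_hv_mono (one_hv_rm h2) ?_⟩
  intro y hy
  exact mem_sdiff.2 ⟨hB hy, fun h' => disjoint_left.1 hd h' hy⟩

private theorem one_c1 (hr : Rk r) (hp : p.1 ⊆ p.2) {w e f : E} {s t u : Bool} {X Y : Finset E}
    (hw : w ∈ gs p) (hXY : X ∪ Y = (gs p).erase w) (hd : Disjoint X Y) (he : e ∈ X) (hf : f ∈ Y)
    (hs : lam r (rm s w p) X ≤ 1) (ce : Cn r (rm t e (rm s w p)))
    (cef : Cn r (rm u f (rm t e (rm s w p)))) (hXn : (X.erase e).Nonempty)
    (hYn : (Y.erase f).Nonempty) {A : Finset E} (hA : A ⊆ X.erase e) :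
    lam r (rm t e p) A ≤ lam r (rm u f (rm t e p)) A := by
  have hXg : X ⊆ (gs p).erase w := hXY ▸ subset_union_left
  have hYg : Y ⊆ (gs p).erase w := hXY ▸ subset_union_right
  have heg := mem_erase.1 (hXg he)
  have hfg := mem_erase.1 (hYg hf)
  have hef : e ≠ f := fun h => disjoint_left.1 hd he (h ▸ hf)
  have hwe : (rm s w p).1 ⊆ (rm s w p).2 := wf_rm hp hw
  have hXe : X.erase e ⊆ ((gs p).erase w).erase e := erase_subset_erase e hXg
  have hXf : X.erase e ⊆ (((gs p).erase w).erase e).erase f := by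
    intro y hy
    refine mem_erase.2 ⟨?_, hXe hy⟩
    rintro rfl
    exact disjoint_left.1 hd (mem_of_mem_erase hy) hf
  have hfe : f ∈ ((gs p).erase w).erase e :=
    mem_erase.2 ⟨hef.symm, hYg hf⟩
  -- (L4)
  have h1 : lam r (rm t e p) A + lam r (rm u f (rm s w (rm t e p))) A ≤
      lam r (rm s w (rm t e p)) A + lam r (rm u f (rm t e p)) A := by
    apply lam_L4 hr (wf_rm hp heg.2)
    · rw [gs_rm]; exact mem_erase.2 ⟨heg.1.symm, hw⟩
    · rw [gs_rm]; exact mem_erase.2 ⟨hef.symm, hfg.2⟩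
    · exact hfg.1
    · rw [gs_rm, erase_right_comm (a := e) (b := w)]
      exact hA.trans hXf
    · rw [rm_comm s t]
      apply ce
      · rw [gs_rm, gs_rm]
        exact singleton_subset_iff.2 hfe
      · exact singleton_nonempty f
      · rw [gs_rm, gs_rm]
        obtain ⟨y, hy⟩ := hXn
        refine ⟨y, mem_sdiff.2 ⟨hXe hy, ?_⟩⟩
        intro h'
        rw [mem_singleton] at h'
        subst h'
        exact disjoint_left.1 hd (mem_of_mem_erase hy) hf
  rw [rm_comm s t] at h1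
  -- (L3)
  have h2 : lam r (rm t e (rm s w p)) A - lam r (rm u f (rm t e (rm s w p))) A ≤
      lam r (rm t e (rm s w p)) (X.erase e) -
        lam r (rm u f (rm t e (rm s w p))) (X.erase e) := by
    apply lam_L3 hr _ hA
    · rw [gs_rm, gs_rm]; exact hXf
    · rw [gs_rm, gs_rm]; exact hfe
  have h3 : lam r (rm t e (rm s w p)) (X.erase e) ≤ 1 := by
    have h4 : lam r (rm t e (rm s w p)) (X.erase e) ≤ lam r (rm s w p) (insert e (X.erase e)) := by
      apply lam_rm_le' hr hwe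
      · rw [gs_rm]; exact hXg he
      · rw [gs_rm]; exact hXe
    rw [insert_erase he] at h4
    linarith
  have h5 : 1 ≤ lam r (rm u f (rm t e (rm s w p))) (X.erase e) := by
    apply cef
    · rw [gs_rm, gs_rm, gs_rm]; exact hXf
    · exact hXn
    · rw [gs_rm, gs_rm, gs_rm]
      obtain ⟨y, hy⟩ := hYn
      have hyY := mem_of_mem_erase hy
      refine ⟨y, mem_sdiff.2 ⟨?_, fun h' => disjoint_left.1 hd (mem_of_mem_erase h') hyY⟩⟩
      refine mem_erase.2 ⟨ne_of_mem_erase hy, mem_erase.2 ⟨?_, hYg hyY⟩⟩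
      rintro rfl
      exact disjoint_left.1 hd he hyY
  linarith

private theorem one_c3 (hr : Rk r) (hp : p.1 ⊆ p.2) {w e f : E} {s t u : Bool} {X Y : Finset E}
    (hw : w ∈ gs p) (hXY : X ∪ Y = (gs p).erase w) (hd : Disjoint X Y) (he : e ∈ X) (hf : f ∈ Y)
    (hs : lam r (rm s w p) X ≤ 1) (of : Ok r (rm u f p))
    (hX : Hv r (rm u f (rm t e (rm s w p))) (X.erase e))
    (hY : Hv r (rm u f (rm t e (rm s w p))) (Y.erase f))
    {B : Finset E} (hB : B ⊆ insert w (X.erase e)) :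
    lam r (rm t e p) B ≤ lam r (rm u f (rm t e p)) B := by
  have hXg : X ⊆ (gs p).erase w := hXY ▸ subset_union_left
  have hYg : Y ⊆ (gs p).erase w := hXY ▸ subset_union_right
  have heg := mem_erase.1 (hXg he)
  have hfg := mem_erase.1 (hYg hf)
  have hef : e ≠ f := fun h => disjoint_left.1 hd he (h ▸ hf)
  have hwX : w ∉ X := fun h => (mem_erase.1 (hXg h)).1 rfl
  have hwY : w ∉ Y := fun h => (mem_erase.1 (hYg h)).1 rfl
  have hins : insert e (insert w (X.erase e)) = insert w X := by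
    rw [Finset.insert_comm, insert_erase he]
  have hXY' : ∀ y, y ∈ gs p → y ≠ w → y ∈ X ∨ y ∈ Y := by
    intro y hy hyw
    have : y ∈ X ∪ Y := by rw [hXY]; exact mem_erase.2 ⟨hyw, hy⟩
    exact mem_union.1 this
  -- the defect at `X ∪ w`
  have h1 : lam r p (insert w X) ≤ lam r (rm u f p) (insert w X) := by
    by_contra hcon
    push Not at hcon
    have h2 : lam r p (insert w X) = lam r p Y := by
      have e1 : insert w X = gs p \ Y := by
        ext y
        simp only [mem_insert, mem_sdiff]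
        constructor
        · rintro (rfl | hy)
          · exact ⟨hw, hwY⟩
          · exact ⟨(mem_erase.1 (hXg hy)).2, fun h => disjoint_left.1 hd hy h⟩
        · rintro ⟨h3, h4⟩
          by_cases hyw : y = w
          · exact Or.inl hyw
          · rcases hXY' y h3 hyw with h5 | h5
            · exact Or.inr h5
            · exact absurd h5 h4
      rw [e1, lam_compl r hp (hYg.trans (erase_subset _ _))]
    have h3 : lam r p Y ≤ lam r (rm s w p) Y + 1 := lam_le_rm hr hw hYg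
    have h4 : lam r (rm s w p) Y = lam r (rm s w p) X := by
      have e1 : Y = gs (rm s w p) \ X := by
        rw [gs_rm, ← hXY]
        ext y
        simp only [mem_union, mem_sdiff]
        constructor
        · intro hy
          exact ⟨Or.inr hy, fun h => disjoint_left.1 hd h hy⟩
        · rintro ⟨h5 | h5, h6⟩
          · exact absurd h5 h6
          · exact h5
      rw [e1]
      apply lam_compl r (wf_rm hp hw)
      rw [gs_rm]; exact hXg
    have h5 : lam r (rm u f p) (insert w X) ≤ 1 := by linarith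
    have hsub : insert w X ⊆ gs (rm u f p) := by
      rw [gs_rm]
      intro y hy
      rcases mem_insert.1 hy with rfl | hy
      · exact mem_erase.2 ⟨hfg.1.symm, hw⟩
      · refine mem_erase.2 ⟨?_, (mem_erase.1 (hXg hy)).2⟩
        rintro rfl
        exact disjoint_left.1 hd hy hf
    rw [rm_comm t s, rm_comm u s, rm_comm u t] at hX hY
    refine of _ hsub h5 ⟨?_, ?_⟩
    · exact one_hv_mono (one_hv_rm (one_hv_rm hX)) ((erase_subset _ _).trans (subset_insert _ _))
    · refine one_hv_mono (one_hv_rm (one_hv_rm hY)) ?_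
      rw [gs_rm]
      intro y hy
      have hyY := mem_of_mem_erase hy
      refine mem_sdiff.2 ⟨mem_erase.2 ⟨ne_of_mem_erase hy, (mem_erase.1 (hYg hyY)).2⟩, ?_⟩
      intro h
      rcases mem_insert.1 h with rfl | h
      · exact hwY hyY
      · exact disjoint_left.1 hd h hyY
  have hsub : insert w (X.erase e) ⊆ ((gs p).erase e).erase f := by
    intro y hy
    rcases mem_insert.1 hy with rfl | hy
    · exact mem_erase.2 ⟨hfg.1.symm, mem_erase.2 ⟨heg.1.symm, hw⟩⟩
    · have hyX := mem_of_mem_erase hy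
      refine mem_erase.2 ⟨?_, mem_erase.2 ⟨ne_of_mem_erase hy, (mem_erase.1 (hXg hyX)).2⟩⟩
      rintro rfl
      exact disjoint_left.1 hd hyX hf
  -- (L5)
  have h2 : lam r (rm t e p) (insert w (X.erase e)) +
      lam r (rm u f p) (insert e (insert w (X.erase e))) ≤
      lam r p (insert e (insert w (X.erase e))) +
        lam r (rm u f (rm t e p)) (insert w (X.erase e)) :=
    lam_L5 hr hp heg.2 hfg.2 hef.symm hsub
  rw [hins] at h2
  -- (L3)
  have h3 : lam r (rm t e p) B - lam r (rm u f (rm t e p)) B ≤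
      lam r (rm t e p) (insert w (X.erase e)) -
        lam r (rm u f (rm t e p)) (insert w (X.erase e)) := by
    apply lam_L3 hr _ hB
    · rw [gs_rm]; exact hsub
    · rw [gs_rm]; exact mem_erase.2 ⟨hef.symm, hfg.2⟩
  linarith

private theorem one_core (hr : Rk r) (hp : p.1 ⊆ p.2) {w e f : E} {s t u : Bool} {X Y : Finset E}
    (hw : w ∈ gs p) (hXY : X ∪ Y = (gs p).erase w) (hd : Disjoint X Y) (he : e ∈ X) (hf : f ∈ Y)
    (hs : lam r (rm s w p) X ≤ 1) (oe : Ok r (rm t e p)) (of : Ok r (rm u f p))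
    (ce : Cn r (rm t e (rm s w p))) (cf : Cn r (rm u f (rm s w p)))
    (cef : Cn r (rm u f (rm t e (rm s w p))))
    (hX : Hv r (rm u f (rm t e (rm s w p))) (X.erase e))
    (hY : Hv r (rm u f (rm t e (rm s w p))) (Y.erase f))
    {A B : Finset E} (hAB : A ∪ B = gs (rm u f (rm t e p))) (hdAB : Disjoint A B) (hwB : w ∈ B)
    (hl : lam r (rm u f (rm t e p)) A ≤ 1) (hAh : Hv r (rm u f (rm t e p)) A)
    (hBh : Hv r (rm u f (rm t e p)) B) : False := by
  have hXg : X ⊆ (gs p).erase w := hXY ▸ subset_union_left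
  have hYg : Y ⊆ (gs p).erase w := hXY ▸ subset_union_right
  have heg := mem_erase.1 (hXg he)
  have hfg := mem_erase.1 (hYg hf)
  have hef : e ≠ f := fun h => disjoint_left.1 hd he (h ▸ hf)
  have hwX : w ∉ X := fun h => (mem_erase.1 (hXg h)).1 rfl
  have hwY : w ∉ Y := fun h => (mem_erase.1 (hYg h)).1 rfl
  have hXY' : ∀ y, y ∈ gs p → y ≠ w → y ∈ X ∨ y ∈ Y := by
    intro y hy hyw
    have : y ∈ X ∪ Y := by rw [hXY]; exact mem_erase.2 ⟨hyw, hy⟩
    exact mem_union.1 this
  have hgR : gs (rm u f (rm t e p)) = ((gs p).erase e).erase f := by rw [gs_rm, gs_rm]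
  have hpe : (rm t e p).1 ⊆ (rm t e p).2 := wf_rm hp heg.2
  have hpf : (rm u f p).1 ⊆ (rm u f p).2 := wf_rm hp hfg.2
  have hR : (rm u f (rm t e p)).1 ⊆ (rm u f (rm t e p)).2 :=
    wf_rm hpe (by rw [gs_rm]; exact mem_erase.2 ⟨hef.symm, hfg.2⟩)
  have hAg : A ⊆ gs (rm u f (rm t e p)) := hAB ▸ subset_union_left
  have hBg : B ⊆ gs (rm u f (rm t e p)) := hAB ▸ subset_union_right
  have hge : gs (rm u f (rm t e p)) ⊆ gs (rm t e p) := by
    rw [gs_rm u f]; exact erase_subset _ _
  have hgf : gs (rm u f (rm t e p)) ⊆ gs (rm u f p) := by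
    rw [rm_comm u t, gs_rm t e]; exact erase_subset _ _
  have hwA : w ∉ A := fun h => disjoint_left.1 hdAB h hwB
  -- symmetric data
  have hYX : Y ∪ X = (gs p).erase w := by rw [union_comm]; exact hXY
  have hsY : lam r (rm s w p) Y ≤ 1 := by
    have e1 : Y = gs (rm s w p) \ X := by
      rw [gs_rm, ← hXY]
      ext y
      simp only [mem_union, mem_sdiff]
      constructor
      · intro hy
        exact ⟨Or.inr hy, fun h => disjoint_left.1 hd h hy⟩
      · rintro ⟨h5 | h5, h6⟩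
        · exact absurd h5 h6
        · exact h5
    have e2 : lam r (rm s w p) (gs (rm s w p) \ X) = lam r (rm s w p) X := by
      apply lam_compl r (wf_rm hp hw)
      rw [gs_rm]; exact hXg
    rw [← e1] at e2
    linarith
  have cfe : Cn r (rm t e (rm u f (rm s w p))) := by rw [rm_comm t u]; exact cef
  have hX' : Hv r (rm t e (rm u f (rm s w p))) (X.erase e) := by rw [rm_comm t u]; exact hX
  have hY' : Hv r (rm t e (rm u f (rm s w p))) (Y.erase f) := by rw [rm_comm t u]; exact hY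
  have hAh' : Hv r (rm t e (rm u f p)) A := by rw [rm_comm t u]; exact hAh
  have hBh' : Hv r (rm t e (rm u f p)) B := by rw [rm_comm t u]; exact hBh
  have hXn := one_hv_ne hX
  have hYn := one_hv_ne hY
  have c1 : ∀ A' ⊆ X.erase e, lam r (rm t e p) A' ≤ lam r (rm u f (rm t e p)) A' :=
    fun A' hA' => one_c1 hr hp hw hXY hd he hf hs ce cef hXn hYn hA'
  have c2 : ∀ A' ⊆ Y.erase f, lam r (rm u f p) A' ≤ lam r (rm u f (rm t e p)) A' := by
    intro A' hA'
    have := one_c1 (t := u) (u := t) hr hp hw hYX hd.symm hf he hsY cf cfe hYn hXn hA'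
    rw [rm_comm t u] at this
    exact this
  -- members of `A` and of `B`
  have hAm : ∀ y ∈ A, (y ∈ X.erase e ∨ y ∈ Y.erase f) := by
    intro y hy
    have h1 := hAg hy
    rw [hgR] at h1
    obtain ⟨h2, h3⟩ := mem_erase.1 h1
    obtain ⟨h4, h5⟩ := mem_erase.1 h3
    have h6 : y ≠ w := by rintro rfl; exact hwA hy
    rcases hXY' y h5 h6 with h | h
    · exact Or.inl (mem_erase.2 ⟨h4, h⟩)
    · exact Or.inr (mem_erase.2 ⟨h2, h⟩)
  have hBm : ∀ y ∈ B, y = w ∨ (y ∈ X.erase e ∨ y ∈ Y.erase f) := by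
    intro y hy
    have h1 := hBg hy
    rw [hgR] at h1
    obtain ⟨h2, h3⟩ := mem_erase.1 h1
    obtain ⟨h4, h5⟩ := mem_erase.1 h3
    by_cases h6 : y = w
    · exact Or.inl h6
    · refine Or.inr ?_
      rcases hXY' y h5 h6 with h | h
      · exact Or.inl (mem_erase.2 ⟨h4, h⟩)
      · exact Or.inr (mem_erase.2 ⟨h2, h⟩)
  have hXeR : X.erase e ⊆ ((gs p).erase e).erase f := by
    intro y hy
    have hyX := mem_of_mem_erase hy
    refine mem_erase.2 ⟨?_, mem_erase.2 ⟨ne_of_mem_erase hy, (mem_erase.1 (hXg hyX)).2⟩⟩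
    rintro rfl
    exact disjoint_left.1 hd hyX hf
  have hYfR : Y.erase f ⊆ ((gs p).erase e).erase f := by
    intro y hy
    have hyY := mem_of_mem_erase hy
    refine mem_erase.2 ⟨ne_of_mem_erase hy, mem_erase.2 ⟨?_, (mem_erase.1 (hYg hyY)).2⟩⟩
    rintro rfl
    exact disjoint_left.1 hd he hyY
  have hBl : lam r (rm u f (rm t e p)) B ≤ 1 := by
    have e1 : B = gs (rm u f (rm t e p)) \ A := by
      rw [← hAB]
      ext y
      simp only [mem_union, mem_sdiff]
      constructor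
      · intro hy
        exact ⟨Or.inr hy, fun h => disjoint_left.1 hdAB h hy⟩
      · rintro ⟨h5 | h5, h6⟩
        · exact absurd h5 h6
        · exact h5
    have e2 := lam_compl r hR hAg
    rw [← e1] at e2
    linarith
  -- Case 1
  by_cases k1 : A ∩ Y = ∅
  · have hAX : A ⊆ X.erase e := by
      intro y hy
      rcases hAm y hy with h | h
      · exact h
      · have : y ∈ A ∩ Y := mem_inter.2 ⟨hy, mem_of_mem_erase h⟩
        rw [k1] at this
        exact absurd this (notMem_empty y)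
    exact one_con oe (hAg.trans hge) (hBg.trans hge) hdAB ((c1 A hAX).trans hl) hAh hBh
  -- Case 2
  by_cases k2 : A ∩ X = ∅
  · have hAY : A ⊆ Y.erase f := by
      intro y hy
      rcases hAm y hy with h | h
      · have : y ∈ A ∩ X := mem_inter.2 ⟨hy, mem_of_mem_erase h⟩
        rw [k2] at this
        exact absurd this (notMem_empty y)
      · exact h
    exact one_con of (hAg.trans hgf) (hBg.trans hgf) hdAB ((c2 A hAY).trans hl) hAh' hBh'
  -- Case 3
  by_cases k3 : B ∩ Y = ∅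
  · have hBX : B ⊆ insert w (X.erase e) := by
      intro y hy
      rcases hBm y hy with h | h | h
      · exact mem_insert.2 (Or.inl h)
      · exact mem_insert.2 (Or.inr h)
      · have : y ∈ B ∩ Y := mem_inter.2 ⟨hy, mem_of_mem_erase h⟩
        rw [k3] at this
        exact absurd this (notMem_empty y)
    have h1 := one_c3 hr hp hw hXY hd he hf hs of hX hY hBX
    exact one_con oe (hBg.trans hge) (hAg.trans hge) hdAB.symm (h1.trans hBl) hBh hAh
  -- Case 4
  by_cases k4 : B ∩ X = ∅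
  · have hBY : B ⊆ insert w (Y.erase f) := by
      intro y hy
      rcases hBm y hy with h | h | h
      · exact mem_insert.2 (Or.inl h)
      · have : y ∈ B ∩ X := mem_inter.2 ⟨hy, mem_of_mem_erase h⟩
        rw [k4] at this
        exact absurd this (notMem_empty y)
      · exact mem_insert.2 (Or.inr h)
    have h1 := one_c3 (t := u) (u := t) hr hp hw hYX hd.symm hf he hsY oe hY' hX' hBY
    rw [rm_comm t u] at h1
    exact one_con of (hBg.trans hgf) (hAg.trans hgf) hdAB.symm (h1.trans hBl) hBh' hAh'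
  -- Case 5
  obtain ⟨y1, hy1⟩ := nonempty_iff_ne_empty.2 k1
  obtain ⟨y2, hy2⟩ := nonempty_iff_ne_empty.2 k2
  obtain ⟨y3, hy3⟩ := nonempty_iff_ne_empty.2 k3
  obtain ⟨y4, hy4⟩ := nonempty_iff_ne_empty.2 k4
  rw [mem_inter] at hy1 hy2 hy3 hy4
  have hRw : rm s w (rm u f (rm t e p)) = rm u f (rm t e (rm s w p)) := by
    rw [rm_comm s u, rm_comm s t]
  have hgRw : gs (rm u f (rm t e (rm s w p))) = (((gs p).erase e).erase f).erase w := by
    rw [← hRw, gs_rm, gs_rm, gs_rm]
  have hwR : w ∈ gs (rm u f (rm t e p)) := hBg hwB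
  have hAe : A ⊆ (gs (rm u f (rm t e p))).erase w := by
    intro y hy
    refine mem_erase.2 ⟨?_, hAg hy⟩
    rintro rfl
    exact hwA hy
  have hAw : A ⊆ (((gs p).erase e).erase f).erase w := by rw [← hgR]; exact hAe
  have hXw : X.erase e ⊆ (((gs p).erase e).erase f).erase w := by
    intro y hy
    refine mem_erase.2 ⟨?_, hXeR hy⟩
    rintro rfl
    exact hwX (mem_of_mem_erase hy)
  have hYw : Y.erase f ⊆ (((gs p).erase e).erase f).erase w := by
    intro y hy
    refine mem_erase.2 ⟨?_, hYfR hy⟩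
    rintro rfl
    exact hwY (mem_of_mem_erase hy)
  -- `lam` in `R_w`
  have l1 : lam r (rm u f (rm t e (rm s w p))) A ≤ 1 := by
    have := lam_rm_le (t := s) hr hwR hAe
    rw [hRw] at this
    linarith
  have l2 : lam r (rm u f (rm t e (rm s w p))) (X.erase e) ≤ 1 := by
    have h1 : lam r (rm u f (rm t e (rm s w p))) (X.erase e) ≤
        lam r (rm t e (rm s w p)) (X.erase e) := by
      apply lam_rm_le hr
      · rw [gs_rm, gs_rm]; exact mem_erase.2 ⟨hef.symm, hYg hf⟩
      · rw [gs_rm, gs_rm]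
        intro y hy
        have hyX := mem_of_mem_erase hy
        refine mem_erase.2 ⟨?_, mem_erase.2 ⟨ne_of_mem_erase hy, hXg hyX⟩⟩
        rintro rfl
        exact disjoint_left.1 hd hyX hf
    have h2 : lam r (rm t e (rm s w p)) (X.erase e) ≤ lam r (rm s w p) (insert e (X.erase e)) := by
      apply lam_rm_le' hr (wf_rm hp hw)
      · rw [gs_rm]; exact hXg he
      · rw [gs_rm]; exact erase_subset_erase e hXg
    rw [insert_erase he] at h2
    linarith
  have l3 : lam r (rm u f (rm t e (rm s w p))) (Y.erase f) ≤ 1 := by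
    rw [rm_comm u t]
    have h1 : lam r (rm t e (rm u f (rm s w p))) (Y.erase f) ≤
        lam r (rm u f (rm s w p)) (Y.erase f) := by
      apply lam_rm_le hr
      · rw [gs_rm, gs_rm]; exact mem_erase.2 ⟨hef, hXg he⟩
      · rw [gs_rm, gs_rm]
        intro y hy
        have hyY := mem_of_mem_erase hy
        refine mem_erase.2 ⟨?_, mem_erase.2 ⟨ne_of_mem_erase hy, hYg hyY⟩⟩
        rintro rfl
        exact disjoint_left.1 hd he hyY
    have h2 : lam r (rm u f (rm s w p)) (Y.erase f) ≤ lam r (rm s w p) (insert f (Y.erase f)) := by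
      apply lam_rm_le' hr (wf_rm hp hw)
      · rw [gs_rm]; exact hYg hf
      · rw [gs_rm]; exact erase_subset_erase f hYg
    rw [insert_erase hf] at h2
    linarith
  -- members in the four quarters
  have m1 : y1 ∈ Y.erase f := by
    rcases hAm y1 hy1.1 with h | h
    · exact absurd hy1.2 (fun h' => disjoint_left.1 hd (mem_of_mem_erase h) h')
    · exact h
  have m2 : y2 ∈ X.erase e := by
    rcases hAm y2 hy2.1 with h | h
    · exact h
    · exact absurd (mem_of_mem_erase h) (fun h' => disjoint_left.1 hd hy2.2 h')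
  have m3 : y3 ∈ Y.erase f := by
    rcases hBm y3 hy3.1 with h | h | h
    · exact absurd hy3.2 (h ▸ hwY)
    · exact absurd hy3.2 (fun h' => disjoint_left.1 hd (mem_of_mem_erase h) h')
    · exact h
  have m4 : y4 ∈ X.erase e := by
    rcases hBm y4 hy4.1 with h | h | h
    · exact absurd hy4.2 (h ▸ hwX)
    · exact h
    · exact absurd (mem_of_mem_erase h) (fun h' => disjoint_left.1 hd hy4.2 h')
  have n3 : y3 ∉ A := fun h => disjoint_left.1 hdAB h hy3.1
  have n4 : y4 ∉ A := fun h => disjoint_left.1 hdAB h hy4.1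
  have q1 : lam r (rm u f (rm t e (rm s w p))) (A ∩ X.erase e) ≤ 1 := by
    have h1 := lam_sub (p := rm u f (rm t e (rm s w p))) hr A (X.erase e)
    have h2 : 1 ≤ lam r (rm u f (rm t e (rm s w p))) (A ∪ X.erase e) := by
      apply cef
      · rw [hgRw]; exact union_subset hAw hXw
      · exact ⟨y2, mem_union_left _ hy2.1⟩
      · refine ⟨y3, mem_sdiff.2 ⟨?_, ?_⟩⟩
        · rw [hgRw]; exact hYw m3
        · intro h
          rcases mem_union.1 h with h | h
          · exact n3 h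
          · exact disjoint_left.1 hd (mem_of_mem_erase h) hy3.2
    linarith
  have q2 : lam r (rm u f (rm t e (rm s w p))) (A ∩ Y.erase f) ≤ 1 := by
    have h1 := lam_sub (p := rm u f (rm t e (rm s w p))) hr A (Y.erase f)
    have h2 : 1 ≤ lam r (rm u f (rm t e (rm s w p))) (A ∪ Y.erase f) := by
      apply cef
      · rw [hgRw]; exact union_subset hAw hYw
      · exact ⟨y2, mem_union_left _ hy2.1⟩
      · refine ⟨y4, mem_sdiff.2 ⟨?_, ?_⟩⟩
        · rw [hgRw]; exact hXw m4
        · intro h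
          rcases mem_union.1 h with h | h
          · exact n4 h
          · exact disjoint_left.1 hd hy4.2 (mem_of_mem_erase h)
    linarith
  have q3 : 1 ≤ lam r (rm u f (rm t e (rm s w p))) A := by
    apply cef
    · rw [hgRw]; exact hAw
    · exact ⟨y2, hy2.1⟩
    · exact ⟨y4, mem_sdiff.2 ⟨by rw [hgRw]; exact hXw m4, n4⟩⟩
  have t1 : lam r (rm u f (rm t e p)) (A ∩ X.erase e) ≤ 1 := by
    have h1 := lam_L3 (t := s) hr hwR (inter_subset_left (s₁ := A) (s₂ := X.erase e)) hAe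
    rw [hRw] at h1
    linarith
  have t2 : lam r (rm u f (rm t e p)) (A ∩ Y.erase f) ≤ 1 := by
    have h1 := lam_L3 (t := s) hr hwR (inter_subset_left (s₁ := A) (s₂ := Y.erase f)) hAe
    rw [hRw] at h1
    linarith
  have t3 : lam r (rm t e p) (A ∩ X.erase e) ≤ 1 := (c1 _ inter_subset_right).trans t1
  have t4 : lam r (rm u f p) (A ∩ Y.erase f) ≤ 1 := (c2 _ inter_subset_right).trans t2
  obtain ⟨N, hN, h3⟩ := hAh
  have s1 : (N ∩ (A ∩ X.erase e)).card ≠ 2 :=
    F1 hr hR (inter_subset_left.trans hAg) t1 hN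
  have s2 : (N ∩ (A ∩ Y.erase f)).card ≠ 2 :=
    F1 hr hR (inter_subset_left.trans hAg) t2 hN
  have s3 : N ∩ A = (N ∩ (A ∩ X.erase e)) ∪ (N ∩ (A ∩ Y.erase f)) := by
    ext y
    simp only [mem_union, mem_inter]
    constructor
    · rintro ⟨h4, h5⟩
      rcases hAm y h5 with h | h
      · exact Or.inl ⟨h4, h5, h⟩
      · exact Or.inr ⟨h4, h5, h⟩
    · rintro (⟨h4, h5, _⟩ | ⟨h4, h5, _⟩) <;> exact ⟨h4, h5⟩
  have s4 : (N ∩ A).card ≤ (N ∩ (A ∩ X.erase e)).card + (N ∩ (A ∩ Y.erase f)).card := by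
    rw [s3]; exact card_union_le _ _
  have s5 : 3 ≤ (N ∩ (A ∩ X.erase e)).card ∨ 3 ≤ (N ∩ (A ∩ Y.erase f)).card := by
    omega
  rcases s5 with s5 | s5
  · have hh : Hv r (rm u f (rm t e p)) (A ∩ X.erase e) := ⟨N, hN, s5⟩
    exact one_con oe (inter_subset_left.trans (hAg.trans hge)) (hBg.trans hge)
      (hdAB.mono_left inter_subset_left) t3 hh hBh
  · have hh : Hv r (rm t e (rm u f p)) (A ∩ Y.erase f) := by
      rw [rm_comm t u]; exact ⟨N, hN, s5⟩
    exact one_con of (inter_subset_left.trans (hAg.trans hgf)) (hBg.trans hgf)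
      (hdAB.mono_left inter_subset_left) t4 hh hBh'

/-- LEMMA 1. `(X, Y)` is a separation of `p_w` of order two, `e ∈ X`, `f ∈ Y`; `p_e` and `p_f` are
fine, `p_{w,e}`, `p_{w,f}`, `p_{w,e,f}` are connected and `X - e`, `Y - f` are heavy in `p_{w,e,f}`.
Then `p_{e,f}` is fine. -/
theorem lemma1 (hr : Rk r) (hp : p.1 ⊆ p.2) {w e f : E} {s t u : Bool} {X Y : Finset E}
    (hw : w ∈ gs p) (hXY : X ∪ Y = (gs p).erase w) (hd : Disjoint X Y) (he : e ∈ X) (hf : f ∈ Y)
    (hs : lam r (rm s w p) X ≤ 1) (oe : Ok r (rm t e p)) (of : Ok r (rm u f p))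
    (ce : Cn r (rm t e (rm s w p))) (cf : Cn r (rm u f (rm s w p)))
    (cef : Cn r (rm u f (rm t e (rm s w p))))
    (hX : Hv r (rm u f (rm t e (rm s w p))) (X.erase e))
    (hY : Hv r (rm u f (rm t e (rm s w p))) (Y.erase f)) :
    Ok r (rm u f (rm t e p)) := by
  intro A hA hl hh
  obtain ⟨h1, h2⟩ := hh
  have hXg : X ⊆ (gs p).erase w := hXY ▸ subset_union_left
  have hYg : Y ⊆ (gs p).erase w := hXY ▸ subset_union_right
  have heg := mem_erase.1 (hXg he)
  have hfg := mem_erase.1 (hYg hf)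
  have hef : e ≠ f := fun h => disjoint_left.1 hd he (h ▸ hf)
  have hR : (rm u f (rm t e p)).1 ⊆ (rm u f (rm t e p)).2 :=
    wf_rm (wf_rm hp heg.2) (by rw [gs_rm]; exact mem_erase.2 ⟨hef.symm, hfg.2⟩)
  have hwR : w ∈ gs (rm u f (rm t e p)) := by
    rw [gs_rm, gs_rm]
    exact mem_erase.2 ⟨hfg.1.symm, mem_erase.2 ⟨heg.1.symm, hw⟩⟩
  by_cases hwA : w ∈ A
  · refine one_core hr hp hw hXY hd he hf hs oe of ce cf cef hX hY (A := gs (rm u f (rm t e p)) \ A)
      (B := A) (sdiff_union_of_subset hA) sdiff_disjoint hwA ?_ h2 h1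
    rw [lam_compl r hR hA]
    exact hl
  · exact one_core hr hp hw hXY hd he hf hs oe of ce cf cef hX hY (A := A)
      (B := gs (rm u f (rm t e p)) \ A) (union_sdiff_of_subset hA) disjoint_sdiff
      (mem_sdiff.2 ⟨hwR, hwA⟩) hl h1 h2

end QUB
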