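import Pool.Agent.QUB.Lam2
import Pool.Agent.QUB.Line

/-! LEMMA 3: connectivity of double removals on the two sides of a 2-separation.

With `δ_x^Q(A) = lam Q A - lam Q_x A`: (L5) gives `δ_f^{p_e}(X - e) ≤ δ_f^p(X) = 0`, so by (L3) nonempty subsets of
`X - e` (and of `Y - f`) have connectivity at least one in `p_{e,f}`; the rest is submodularity.
-/

namespace QUB

open Finset

variable {E : Type*} [DecidableEq E] {r : Finset E → ℤ} {p : Mn E}

private theorem three_side (hr : Rk r) (hp : p.1 ⊆ p.2) {e f : E} {t u : Bool} {X Y : Finset E}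
    (hXY : X ∪ Y = gs p) (hd : Disjoint X Y) (he : e ∈ X) (hf : f ∈ Y)
    (hX : (X.erase e).Nonempty) (hY : (Y.erase f).Nonempty) (hs : lam r p X ≤ 1)
    (ce : Cn r (rm t e p)) (cf : Cn r (rm u f p)) :
    ∀ Z ⊆ X.erase e, Z.Nonempty → 1 ≤ lam r (rm u f (rm t e p)) Z := by
  have hXs : X ⊆ gs p := hXY ▸ subset_union_left
  have hYs : Y ⊆ gs p := hXY ▸ subset_union_right
  have hep : e ∈ gs p := hXs he
  have hfp : f ∈ gs p := hYs hf
  have heY : e ∉ Y := fun h => disjoint_left.1 hd he h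
  have hfX : f ∉ X := fun h => disjoint_left.1 hd h hf
  have hfe : f ≠ e := by
    rintro rfl
    exact hfX he
  have hYe : Y ⊆ (gs p).erase e := fun y hy => mem_erase.2 ⟨fun h => heY (h ▸ hy), hYs hy⟩
  have hX1e : X.erase e ⊆ (gs p).erase e := erase_subset_erase e hXs
  have hXf : X ⊆ (gs p).erase f := fun y hy => mem_erase.2 ⟨fun h => hfX (h ▸ hy), hXs hy⟩
  have hX1 : X.erase e ⊆ ((gs p).erase e).erase f := fun y hy =>
    mem_erase.2 ⟨fun h => hfX (h ▸ mem_of_mem_erase hy), hX1e hy⟩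
  have hins : insert e (X.erase e) = X := insert_erase he
  -- `lam p X = 1`
  have h1 : 1 ≤ lam r (rm t e p) (X.erase e) := by
    refine ce _ (by rw [gs_rm]; exact hX1e) hX ?_
    rw [gs_rm]
    exact ⟨f, mem_sdiff.2 ⟨hYe hf, fun h => hfX (mem_of_mem_erase h)⟩⟩
  have h2 := lam_rm_le' (t := t) hr hp hep hX1e
  rw [hins] at h2
  -- `lam p_f X = 1`
  have h3 : 1 ≤ lam r (rm u f p) X := by
    refine cf _ (by rw [gs_rm]; exact hXf) ⟨e, he⟩ ?_
    rw [gs_rm]
    obtain ⟨y, hy⟩ := hY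
    exact ⟨y, mem_sdiff.2 ⟨erase_subset_erase f hYs hy, fun h =>
      disjoint_left.1 hd h (mem_of_mem_erase hy)⟩⟩
  have h4 := lam_rm_le (t := u) hr hfp hXf
  -- (L5)
  have h5 := lam_L5 (s := t) (t := u) hr hp hep hfp hfe hX1
  rw [hins] at h5
  have hfpe : f ∈ gs (rm t e p) := by
    rw [gs_rm]
    exact mem_erase.2 ⟨hfe, hfp⟩
  intro Z hZ hZn
  have h6 := lam_L3 (p := rm t e p) (t := u) hr hfpe hZ (by rw [gs_rm]; exact hX1)
  have h7 : 1 ≤ lam r (rm t e p) Z := by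
    refine ce _ (by rw [gs_rm]; exact hZ.trans hX1e) hZn ?_
    rw [gs_rm]
    exact ⟨f, mem_sdiff.2 ⟨hYe hf, fun h => hfX (mem_of_mem_erase (hZ h))⟩⟩
  linarith

private theorem three_cross (hr : Rk r) {q : Mn E} (hq : q.1 ⊆ q.2) {X1 Y1 : Finset E}
    (hXY : X1 ∪ Y1 = gs q) (hd : Disjoint X1 Y1) (hs : lam r q X1 ≤ 1)
    (h1 : ∀ Z ⊆ X1, Z.Nonempty → 1 ≤ lam r q Z) (h2 : ∀ Z ⊆ Y1, Z.Nonempty → 1 ≤ lam r q Z)
    {A : Finset E} (hA : A ⊆ gs q) (hl : lam r q A ≤ 0) :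
    A ∩ X1 = ∅ ∨ (gs q \ A) ∩ Y1 = ∅ := by
  by_contra hc
  push Not at hc
  have h3 := h1 (A ∩ X1) inter_subset_right hc.1
  have h4 := h2 ((gs q \ A) ∩ Y1) inter_subset_right hc.2
  have hX1 : X1 ⊆ gs q := hXY ▸ subset_union_left
  have e1 : (gs q \ A) ∩ Y1 = gs q \ (A ∪ X1) := by
    ext y
    have e2 : y ∈ gs q ↔ y ∈ X1 ∨ y ∈ Y1 := by rw [← hXY, mem_union]
    have e3 : y ∈ X1 → y ∉ Y1 := fun h => disjoint_left.1 hd h
    simp only [mem_inter, mem_sdiff, mem_union]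
    tauto
  rw [e1, lam_compl r hq (union_subset hA hX1)] at h4
  have h5 := lam_sub (p := q) hr A X1
  linarith

/-- LEMMA 3. -/
theorem cn_two (hr : Rk r) (hp : p.1 ⊆ p.2) {e f : E} {t u : Bool} {X Y : Finset E}
    (hXY : X ∪ Y = gs p) (hd : Disjoint X Y) (he : e ∈ X) (hf : f ∈ Y)
    (hX : (X.erase e).Nonempty) (hY : (Y.erase f).Nonempty) (hs : lam r p X ≤ 1)
    (ce : Cn r (rm t e p)) (cf : Cn r (rm u f p)) : Cn r (rm u f (rm t e p)) := by
  have hXs : X ⊆ gs p := hXY ▸ subset_union_left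
  have hYs : Y ⊆ gs p := hXY ▸ subset_union_right
  have heY : e ∉ Y := fun h => disjoint_left.1 hd he h
  have hfX : f ∉ X := fun h => disjoint_left.1 hd h hf
  have hfe : f ≠ e := by
    rintro rfl
    exact hfX he
  have hep : e ∈ gs p := hXs he
  have hfp : f ∈ gs p := hYs hf
  have hfpe : f ∈ gs (rm t e p) := by
    rw [gs_rm]
    exact mem_erase.2 ⟨hfe, hfp⟩
  have hq : (rm u f (rm t e p)).1 ⊆ (rm u f (rm t e p)).2 := wf_rm (wf_rm hp hep) hfpe
  have hg : X.erase e ∪ Y.erase f = gs (rm u f (rm t e p)) := by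
    rw [gs_rm, gs_rm, ← hXY]
    ext y
    have a1 : y ∈ X → y ≠ f := fun h h' => hfX (h' ▸ h)
    have a2 : y ∈ Y → y ≠ e := fun h h' => heY (h' ▸ h)
    simp only [mem_union, mem_erase]
    tauto
  have hd1 : Disjoint (X.erase e) (Y.erase f) :=
    disjoint_of_subset_left (erase_subset e X) (disjoint_of_subset_right (erase_subset f Y) hd)
  have s1 := three_side hr hp hXY hd he hf hX hY hs ce cf
  have hYX : gs p \ X = Y := by
    rw [← hXY]
    ext y
    have a1 : y ∈ X → y ∉ Y := fun h => disjoint_left.1 hd h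
    simp only [mem_union, mem_sdiff]
    tauto
  have hsY : lam r p Y ≤ 1 := by
    rw [← hYX, lam_compl r hp hXs]
    exact hs
  have s2 := three_side (t := u) (u := t) hr hp (by rw [union_comm]; exact hXY) hd.symm hf he hY hX
    hsY cf ce
  rw [rm_comm] at s2
  have hX1 : X.erase e ⊆ (gs p).erase e := erase_subset_erase e hXs
  have hs1 : lam r (rm u f (rm t e p)) (X.erase e) ≤ 1 := by
    have h1 := lam_rm_le (p := rm t e p) (t := u) (A := X.erase e) hr hfpe (by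
      rw [gs_rm]
      exact fun y hy => mem_erase.2 ⟨fun h => hfX (h ▸ mem_of_mem_erase hy), hX1 hy⟩)
    have h2 := lam_rm_le' (t := t) hr hp hep hX1
    rw [insert_erase he] at h2
    linarith
  intro A hA hAn hBn
  by_contra hc
  have hl : lam r (rm u f (rm t e p)) A ≤ 0 := by linarith [not_le.1 hc]
  have c1 := three_cross hr hq hg hd1 hs1 s1 s2 hA hl
  have hl2 : lam r (rm u f (rm t e p)) (gs (rm u f (rm t e p)) \ A) ≤ 0 := by
    rw [lam_compl r hq hA]
    exact hl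
  have c2 := three_cross hr hq hg hd1 hs1 s1 s2 sdiff_subset hl2
  rw [Finset.sdiff_sdiff_eq_self hA] at c2
  have hmem : ∀ y, y ∈ gs (rm u f (rm t e p)) ↔ y ∈ X.erase e ∨ y ∈ Y.erase f := fun y => by
    rw [← hg, mem_union]
  rcases c1 with c1 | c1 <;> rcases c2 with c2 | c2
  · obtain ⟨y, hy⟩ := hX
    by_cases h : y ∈ A
    · have : y ∈ A ∩ X.erase e := mem_inter.2 ⟨h, hy⟩
      rw [c1] at this
      exact notMem_empty y this
    · have : y ∈ (gs (rm u f (rm t e p)) \ A) ∩ X.erase e :=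
        mem_inter.2 ⟨mem_sdiff.2 ⟨(hmem y).2 (Or.inl hy), h⟩, hy⟩
      rw [c2] at this
      exact notMem_empty y this
  · obtain ⟨y, hy⟩ := hAn
    rcases (hmem y).1 (hA hy) with h | h
    · have : y ∈ A ∩ X.erase e := mem_inter.2 ⟨hy, h⟩
      rw [c1] at this
      exact notMem_empty y this
    · have : y ∈ A ∩ Y.erase f := mem_inter.2 ⟨hy, h⟩
      rw [c2] at this
      exact notMem_empty y this
  · obtain ⟨y, hy⟩ := hBn
    rcases (hmem y).1 (sdiff_subset hy) with h | h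
    · have : y ∈ (gs (rm u f (rm t e p)) \ A) ∩ X.erase e := mem_inter.2 ⟨hy, h⟩
      rw [c2] at this
      exact notMem_empty y this
    · have : y ∈ (gs (rm u f (rm t e p)) \ A) ∩ Y.erase f := mem_inter.2 ⟨hy, h⟩
      rw [c1] at this
      exact notMem_empty y this
  · obtain ⟨y, hy⟩ := hY
    by_cases h : y ∈ A
    · have : y ∈ A ∩ Y.erase f := mem_inter.2 ⟨h, hy⟩
      rw [c2] at this
      exact notMem_empty y this
    · have : y ∈ (gs (rm u f (rm t e p)) \ A) ∩ Y.erase f :=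
        mem_inter.2 ⟨mem_sdiff.2 ⟨(hmem y).2 (Or.inr hy), h⟩, hy⟩
      rw [c1] at this
      exact notMem_empty y this

end QUB
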