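import Pool.Agent.QUB.Move

/-! Tiny ends are compatible with every removal.

`{x, y, z}` is a triangle and `{x, y, z, w}` a cocircuit of the minor `q`. If `q` is `Ok`, then `q` without `x` is `Ok`.
-/

namespace QUB

open Finset

variable {E : Type*} [DecidableEq E] {r : Finset E → ℤ} {p q : Mn E}

/-- no separation of `q \ x` with two heavy sides has `y` and `z` on the same side, if `x` is spanned by `y`, `z` -/
theorem tt_same (hr : Rk r) (hq : q.1 ⊆ q.2) {x y z : E} (hx : x ∈ gs q)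
    (hy : y ∈ (gs q).erase x) (hz : z ∈ (gs q).erase x)
    (h1 : r (insert x (insert y (insert z q.1))) = r (insert y (insert z q.1))) (ho : Ok r q)
    {B : Finset E} (hB : B ⊆ (gs q).erase x) (hyB : y ∉ B) (hzB : z ∉ B)
    (hl : lam r (rm true x q) B ≤ 1) (hv : Hv r (rm true x q) B)
    (hv' : Hv r (rm true x q) ((gs q).erase x \ B)) : False := by
  have hxG := mem_sdiff.1 hx
  have hyG := mem_sdiff.1 (mem_of_mem_erase hy)
  have hzG := mem_sdiff.1 (mem_of_mem_erase hz)
  have hxB : x ∉ B := fun h => (mem_erase.1 (hB h)).1 rfl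
  have hs : insert y (insert z q.1) ⊆ q.2.erase x \ B := by
    intro a ha
    rcases mem_insert.1 ha with rfl | ha
    · exact mem_sdiff.2 ⟨mem_erase.2 ⟨(mem_erase.1 hy).1, hyG.1⟩, hyB⟩
    rcases mem_insert.1 ha with rfl | ha
    · exact mem_sdiff.2 ⟨mem_erase.2 ⟨(mem_erase.1 hz).1, hzG.1⟩, hzB⟩
    · refine mem_sdiff.2 ⟨mem_erase.2 ⟨?_, hq ha⟩, fun h => ?_⟩
      · rintro rfl
        exact hxG.2 ha
      · exact (mem_sdiff.1 (mem_of_mem_erase (hB h))).2 ha
  have e1 : insert x (q.2.erase x \ B) = q.2 \ B := by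
    ext a
    simp only [mem_insert, mem_sdiff, mem_erase]
    constructor
    · rintro (rfl | ⟨⟨_, h2⟩, h3⟩)
      · exact ⟨hxG.1, hxB⟩
      · exact ⟨h2, h3⟩
    · rintro ⟨h2, h3⟩
      by_cases h4 : a = x
      · exact Or.inl h4
      · exact Or.inr ⟨⟨h4, h2⟩, h3⟩
  have e2 : insert x (q.2.erase x) = q.2 := insert_erase hxG.1
  have m1 := marg hr hs x
  have m2 := marg hr (hs.trans sdiff_subset) x
  have n1 := hr.mono (q.2.erase x \ B) (q.2 \ B) (sdiff_subset_sdiff (erase_subset x q.2) subset_rfl)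
  have n2 := hr.mono (q.2.erase x) q.2 (erase_subset x q.2)
  rw [e1] at m1
  rw [e2] at m2
  have hB' : B ⊆ gs q := hB.trans (erase_subset x _)
  refine ho B hB' ?_ ⟨hv.rm, hv'.rm.mono (sdiff_subset_sdiff (erase_subset x _) subset_rfl)⟩
  unfold lam at hl ⊢
  simp only [rm] at hl
  linarith

/-- `x`, `y`, `z` triangle, `x`, `y`, `z`, `w` cocircuit: deleting `x` keeps `Ok` -/
theorem tt (hr : Rk r) (hq : q.1 ⊆ q.2) {x y z w : E} (hx : x ∈ gs q) (hw : w ∈ (gs q).erase x)
    (hy : y ∈ (gs q).erase x) (hz : z ∈ (gs q).erase x) (hyz : y ≠ z) (hyw : y ≠ w) (hzw : z ≠ w)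
    (h1 : r (insert x (insert y (insert z q.1))) = r (insert y (insert z q.1)))
    (h2 : r (q.2 \ {x, y, z, w}) + 1 ≤ r (q.2 \ {x, y, w}))
    (h3 : r (q.2 \ {x, y, z, w}) + 1 ≤ r (q.2 \ {x, z, w})) (ho : Ok r q) :
    Ok r (rm true x q) := by
  have key : ∀ y z : E, y ∈ (gs q).erase x → z ∈ (gs q).erase x → y ≠ z → y ≠ w → z ≠ w →
      r (insert x (insert y (insert z q.1))) = r (insert y (insert z q.1)) →
      r (q.2 \ {x, y, z, w}) + 1 ≤ r (q.2 \ {x, y, w}) →
      ∀ B ⊆ (gs q).erase x, y ∉ B → z ∈ B → w ∉ B → lam r (rm true x q) B ≤ 1 →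
      Hv r (rm true x q) B → Hv r (rm true x q) ((gs q).erase x \ B) → False := by
    intro y z hy hz hyz hyw hzw h1 h2 B hB hyB hzB hwB hl hv hv'
    have hp' : (rm true x q).1 ⊆ (rm true x q).2 := wf_rm hq hx
    have hBg : B ⊆ gs (rm true x q) := by rw [gs_rm]; exact hB
    have hxG := mem_sdiff.1 hx
    have hyG := mem_sdiff.1 (mem_of_mem_erase hy)
    have hzG := mem_sdiff.1 (mem_of_mem_erase hz)
    have hwG := mem_sdiff.1 (mem_of_mem_erase hw)
    have hS : B ⊆ (gs (rm true x q)) \ {y, w} := by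
      intro a ha
      refine mem_sdiff.2 ⟨hBg ha, ?_⟩
      rw [mem_insert, mem_singleton]
      rintro (rfl | rfl)
      · exact hyB ha
      · exact hwB ha
    have eS : (rm true x q).1 ∪ ((gs (rm true x q)) \ {y, w}) = q.2 \ {x, y, w} := by
      rw [gs_rm]
      ext a
      simp only [rm, mem_union, mem_sdiff, mem_erase, gs, mem_insert, mem_singleton, not_or]
      constructor
      · rintro (h | ⟨⟨h4, h5, h6⟩, h7, h8⟩)
        · refine ⟨hq h, ?_, ?_, ?_⟩
          · rintro rfl; exact hxG.2 h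
          · rintro rfl; exact hyG.2 h
          · rintro rfl; exact hwG.2 h
        · exact ⟨h5, h4, h7, h8⟩
      · rintro ⟨h4, h5, h6, h7⟩
        by_cases h8 : a ∈ q.1
        · exact Or.inl h8
        · exact Or.inr ⟨⟨h5, h4, h8⟩, h6, h7⟩
    have eS' : (q.2 \ {x, y, w}).erase z = q.2 \ {x, y, z, w} := by
      ext a
      simp only [mem_sdiff, mem_erase, mem_insert, mem_singleton, not_or]
      tauto
    have hco : r (((rm true x q).1 ∪ ((gs (rm true x q)) \ {y, w})).erase z) + 1 ≤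
        r ((rm true x q).1 ∪ ((gs (rm true x q)) \ {y, w})) := by
      rw [eS, eS']
      exact h2
    have hl2 := lam_erase_cocl hr hzB hBg hp' hS sdiff_subset hco
    have hv2 : Hv r (rm true x q) (B.erase z) := Hv.erase hr hp' hBg (hl2.trans hl) hv
    refine tt_same hr hq hx hy hz h1 ho ((erase_subset z B).trans hB) (fun h => hyB (mem_of_mem_erase h))
      (fun h => (mem_erase.1 h).1 rfl) (hl2.trans hl) hv2 (hv'.mono ?_)
    exact sdiff_subset_sdiff subset_rfl (erase_subset z B)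
  intro A hA hl ⟨hvA, hvB⟩
  rw [gs_rm] at hA hvB
  have hp' : (rm true x q).1 ⊆ (rm true x q).2 := wf_rm hq hx
  have hlB : lam r (rm true x q) ((gs q).erase x \ A) ≤ 1 := by
    have := lam_compl r hp' (A := A) (by rw [gs_rm]; exact hA)
    rw [gs_rm] at this
    rw [this]
    exact hl
  have eA : (gs q).erase x \ ((gs q).erase x \ A) = A := Finset.sdiff_sdiff_eq_self hA
  have h1' : r (insert x (insert z (insert y q.1))) = r (insert z (insert y q.1)) := by
    rw [Finset.insert_comm z y]; exact h1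
  have c1 : ({x, y, z, w} : Finset E) = {x, z, y, w} := by
    ext a; simp only [mem_insert, mem_singleton]; tauto
  by_cases hyA : y ∈ A
  · by_cases hzA : z ∈ A
    · -- both in A
      refine tt_same hr hq hx hy hz h1 ho (B := (gs q).erase x \ A) sdiff_subset
        (fun h => (mem_sdiff.1 h).2 hyA) (fun h => (mem_sdiff.1 h).2 hzA) hlB hvB ?_
      rw [eA]; exact hvA
    · by_cases hwA : w ∈ A
      · -- move z from the complement
        refine key y z hy hz hyz hyw hzw h1 h2 ((gs q).erase x \ A) sdiff_subset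
          (fun h => (mem_sdiff.1 h).2 hyA) (mem_sdiff.2 ⟨hz, hzA⟩) (fun h => (mem_sdiff.1 h).2 hwA) hlB hvB ?_
        rw [eA]; exact hvA
      · -- move y from A
        refine key z y hz hy hyz.symm hzw hyw h1' ?_ A hA hzA hyA hwA hl hvA hvB
        rw [← c1]; exact h3
  · by_cases hzA : z ∈ A
    · by_cases hwA : w ∈ A
      · refine key z y hz hy hyz.symm hzw hyw h1' ?_ ((gs q).erase x \ A) sdiff_subset
          (fun h => (mem_sdiff.1 h).2 hzA) (mem_sdiff.2 ⟨hy, hyA⟩) (fun h => (mem_sdiff.1 h).2 hwA) hlB hvB ?_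
        · rw [← c1]; exact h3
        · rw [eA]; exact hvA
      · exact key y z hy hz hyz hyw hzw h1 h2 A hA hyA hzA hwA hl hvA hvB
    · exact tt_same hr hq hx hy hz h1 ho hA hyA hzA hl hvA hvB

end QUB
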