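import Pool.Agent.QUB.Move
import Pool.Agent.QUB.Dual

/-! NB-TRIANGLE LEMMA: in a connected matroid `p` which is fine, at most one element of a triangle has a deletion which is not
fine; dually for triads and contractions.

`(C, D)` a bad separation of `p \ x`, `(C', D')` one of `p \ y`; then `y ∈ C`, `z ∈ D`, `x ∈ C'`, `z ∈ D'`. With
`P₁ = C ∩ C'`, `P₂ = C ∩ D'`, `P₃ = D ∩ D'`, `P₄ = D ∩ C'` submodularity gives `λ P₂ + λ P₄ ≤ 2` and
`λ P₃ + (r P₁ + r (P₂ ∪ P₃ ∪ P₄) - r) ≤ 2`.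
-/

namespace QUB

open Finset

variable {E : Type*} [DecidableEq E] {r : Finset E → ℤ} {p : Mn E}

private theorem tr_all (hp : p.1 ⊆ p.2) : p.1 ∪ gs p = p.2 := union_sdiff_of_subset hp

private theorem tr_lam (hp : p.1 ⊆ p.2) {A : Finset E} (hA : A ⊆ gs p) :
    lam r p A = r (p.1 ∪ A) + r (p.1 ∪ (gs p \ A)) - r p.2 - r p.1 := by
  have e : p.2 \ A = p.1 ∪ (gs p \ A) := by
    ext w
    have h1 : w ∈ p.1 → w ∈ p.2 := fun h => hp h
    have h2 : w ∈ A → w ∈ p.2 ∧ w ∉ p.1 := fun h => mem_sdiff.1 (hA h)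
    simp only [mem_union, mem_sdiff, gs]
    tauto
  unfold lam
  rw [e]

private theorem tr_sub (hr : Rk r) (C A B : Finset E) :
    r (C ∪ (A ∪ B)) + r (C ∪ (A ∩ B)) ≤ r (C ∪ A) + r (C ∪ B) := by
  have h := hr.sub (C ∪ A) (C ∪ B)
  have e1 : (C ∪ A) ∪ (C ∪ B) = C ∪ (A ∪ B) := by
    ext w; simp only [mem_union]; tauto
  have e2 : (C ∪ A) ∩ (C ∪ B) = C ∪ (A ∩ B) := by
    ext w; simp only [mem_union, mem_inter]; tauto
  rw [e1, e2] at h
  exact h

/-- `x` is in the closure of `y`, `z` -/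
private theorem tr_cl (hr : Rk r) {C : Finset E} {x y z : E}
    (h : r (insert x (insert y (insert z C))) = r (insert y (insert z C))) {A : Finset E} (hy : y ∈ A) (hz : z ∈ A) :
    r (C ∪ insert x A) = r (C ∪ A) := by
  have h1 : insert y (insert z C) ⊆ C ∪ A := by
    intro w hw
    rcases mem_insert.1 hw with rfl | hw
    · exact mem_union_right _ hy
    · rcases mem_insert.1 hw with rfl | hw
      · exact mem_union_right _ hz
      · exact mem_union_left _ hw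
  have h2 := marg hr h1 x
  have h3 := hr.mono (C ∪ A) (insert x (C ∪ A)) (subset_insert _ _)
  have e : C ∪ insert x A = insert x (C ∪ A) := union_insert x C A
  rw [e]
  linarith

/-- a bad separation of `p \ x` splits `y`, `z` -/
private theorem tr_sep (hr : Rk r) (hp : p.1 ⊆ p.2) (ho : Ok r p) {x y z : E} (hx : x ∈ gs p) (hy : y ∈ gs p)
    (hz : z ∈ gs p) (hxy : x ≠ y) (hxz : x ≠ z)
    (h1 : r (insert x (insert y (insert z p.1))) = r (insert y (insert z p.1))) (hn : ¬ Ok r (rm true x p)) :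
    ∃ C D : Finset E, C ∪ D = (gs p).erase x ∧ Disjoint C D ∧ y ∈ C ∧ z ∈ D ∧
      r (p.1 ∪ C) + r (p.1 ∪ D) ≤ r p.2 + r p.1 + 1 ∧ Hv r (rm true x p) C ∧ Hv r (rm true x p) D := by
  unfold Ok at hn
  push Not at hn
  obtain ⟨C, hC, hl, hvC, hvD⟩ := hn
  have hw : (rm true x p).1 ⊆ (rm true x p).2 := wf_rm hp hx
  have hg : gs (rm true x p) = (gs p).erase x := gs_rm true x p
  have hCe : C ⊆ (gs p).erase x := hg ▸ hC
  obtain ⟨D, hD⟩ : ∃ D, D = (gs p).erase x \ C := ⟨_, rfl⟩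
  rw [hg, ← hD] at hvD
  have hDe : D ⊆ (gs p).erase x := hD ▸ sdiff_subset
  have hU : C ∪ D = (gs p).erase x := by rw [hD]; exact union_sdiff_of_subset hCe
  have hd : Disjoint C D := by rw [hD]; exact disjoint_sdiff
  have hye : y ∈ (gs p).erase x := mem_erase.2 ⟨hxy.symm, hy⟩
  have hze : z ∈ (gs p).erase x := mem_erase.2 ⟨hxz.symm, hz⟩
  have hrk : r (p.2.erase x) = r p.2 := by
    have h2 := tr_cl hr h1 (A := (gs p).erase x) hye hze
    rw [insert_erase hx, tr_all hp] at h2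
    have e : p.1 ∪ (gs p).erase x = p.2.erase x := by
      rw [← hg]
      exact tr_all hw
    rw [← e]
    exact h2.symm
  have hl' : r (p.1 ∪ C) + r (p.1 ∪ D) ≤ r p.2 + r p.1 + 1 := by
    rw [tr_lam hw hC] at hl
    have e1 : (rm true x p).1 = p.1 := rfl
    have e2 : (rm true x p).2 = p.2.erase x := rfl
    rw [hg, ← hD, e1, e2, hrk] at hl
    linarith
  -- both on one side is impossible
  have key : ∀ A B : Finset E, A ∪ B = (gs p).erase x → Disjoint A B → r (p.1 ∪ A) + r (p.1 ∪ B) ≤ r p.2 + r p.1 + 1 →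
      Hv r (rm true x p) A → Hv r (rm true x p) B → y ∈ A → z ∈ A → False := by
    intro A B hAB hdAB hlAB hvA hvB hyA hzA
    have hAe : A ⊆ (gs p).erase x := hAB ▸ subset_union_left
    have hAg : insert x A ⊆ gs p := insert_subset hx (hAe.trans (erase_subset _ _))
    have hxA : x ∉ A := fun h => (mem_erase.1 (hAe h)).1 rfl
    have hxB : x ∉ B := fun h => (mem_erase.1 ((hAB ▸ subset_union_right : B ⊆ (gs p).erase x) h)).1 rfl
    have e : gs p \ insert x A = B := by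
      ext w
      have a1 : w ∈ A ∨ w ∈ B ↔ w ∈ (gs p).erase x := by rw [← hAB, mem_union]
      rw [mem_erase] at a1
      have a2 : w ∈ A → w ∉ B := fun h => disjoint_left.1 hdAB h
      have a3 : w ∈ B → w ≠ x := fun h h' => hxB (h' ▸ h)
      simp only [mem_sdiff, mem_insert, not_or]
      tauto
    refine ho (insert x A) hAg ?_ ⟨hvA.rm.mono (subset_insert x A), ?_⟩
    · rw [tr_lam hp hAg, e, tr_cl hr h1 hyA hzA]
      linarith
    · rw [e]
      exact hvB.rm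
  have hyU : y ∈ C ∨ y ∈ D := by rw [← mem_union, hU]; exact hye
  have hzU : z ∈ C ∨ z ∈ D := by rw [← mem_union, hU]; exact hze
  have hUs : D ∪ C = (gs p).erase x := by rw [union_comm]; exact hU
  rcases hyU with hyC | hyD
  · rcases hzU with hzC | hzD
    · exact (key C D hU hd hl' hvC hvD hyC hzC).elim
    · exact ⟨C, D, hU, hd, hyC, hzD, hl', hvC, hvD⟩
  · rcases hzU with hzC | hzD
    · exact ⟨D, C, hUs, hd.symm, hyD, hzC, by linarith, hvD, hvC⟩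
    · exact (key D C hUs hd.symm (by linarith) hvD hvC hyD hzD).elim

private theorem tr_c4 {G C D C' D' : Finset E} {x y : E} (mU : ∀ w, w ∈ C ∨ w ∈ D ↔ w ≠ x ∧ w ∈ G)
    (mU' : ∀ w, w ∈ C' ∨ w ∈ D' ↔ w ≠ y ∧ w ∈ G) (md : ∀ w, w ∈ C → w ∉ D) (md' : ∀ w, w ∈ C' → w ∉ D') (hx : x ∈ G)
    (hyC : y ∈ C) (hxD : x ∉ D) : G \ (D ∩ C') = insert x (C ∪ D') := by
  ext w
  rw [mem_sdiff, mem_inter, mem_insert, mem_union]
  by_cases hwx : w = x
  · rw [hwx]
    exact ⟨fun _ => Or.inl rfl, fun _ => ⟨hx, fun h => hxD h.1⟩⟩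
  · constructor
    · rintro ⟨h1, h2⟩
      right
      rcases (mU w).2 ⟨hwx, h1⟩ with h | h
      · exact Or.inl h
      · by_cases hwy : w = y
        · exact Or.inl (hwy ▸ hyC)
        · rcases (mU' w).2 ⟨hwy, h1⟩ with h' | h'
          · exact absurd ⟨h, h'⟩ h2
          · exact Or.inr h'
    · rintro (h | h | h)
      · exact absurd h hwx
      · exact ⟨((mU w).1 (Or.inl h)).2, fun h' => md w h h'.1⟩
      · exact ⟨((mU' w).1 (Or.inr h)).2, fun h' => md' w h'.2 h⟩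

private theorem tr_c3 {G C D C' D' : Finset E} {x y : E} (mU : ∀ w, w ∈ C ∨ w ∈ D ↔ w ≠ x ∧ w ∈ G)
    (mU' : ∀ w, w ∈ C' ∨ w ∈ D' ↔ w ≠ y ∧ w ∈ G) (md : ∀ w, w ∈ C → w ∉ D) (md' : ∀ w, w ∈ C' → w ∉ D')
    (hyC : y ∈ C) (hxC' : x ∈ C') : G \ (D ∩ D') = C ∪ C' := by
  ext w
  rw [mem_sdiff, mem_inter, mem_union]
  constructor
  · rintro ⟨h1, h2⟩
    by_cases hwx : w = x
    · exact Or.inr (hwx ▸ hxC')
    · by_cases hwy : w = y
      · exact Or.inl (hwy ▸ hyC)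
      · rcases (mU w).2 ⟨hwx, h1⟩ with h | h
        · exact Or.inl h
        · rcases (mU' w).2 ⟨hwy, h1⟩ with h' | h'
          · exact Or.inr h'
          · exact absurd ⟨h, h'⟩ h2
  · rintro (h | h)
    · exact ⟨((mU w).1 (Or.inl h)).2, fun h' => md w h h'.1⟩
    · exact ⟨((mU' w).1 (Or.inl h)).2, fun h' => md' w h h'.2⟩

private theorem tr_c1 {G C D C' D' : Finset E} {x y : E} (mU : ∀ w, w ∈ C ∨ w ∈ D ↔ w ≠ x ∧ w ∈ G)
    (mU' : ∀ w, w ∈ C' ∨ w ∈ D' ↔ w ≠ y ∧ w ∈ G) : G \ (C ∩ C') ⊆ insert y (insert x (D ∪ D')) := by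
  intro w hw
  rw [mem_sdiff, mem_inter] at hw
  rw [mem_insert, mem_insert, mem_union]
  by_cases hwy : w = y
  · exact Or.inl hwy
  · by_cases hwx : w = x
    · exact Or.inr (Or.inl hwx)
    · rcases (mU w).2 ⟨hwx, hw.1⟩ with h | h
      · rcases (mU' w).2 ⟨hwy, hw.1⟩ with h' | h'
        · exact absurd ⟨h, h'⟩ hw.2
        · exact Or.inr (Or.inr (Or.inr h'))
      · exact Or.inr (Or.inr (Or.inl h))

/-- `D` is covered by the two quarters -/
private theorem tr_uD {G C D C' D' : Finset E} {x y : E} (mU : ∀ w, w ∈ C ∨ w ∈ D ↔ w ≠ x ∧ w ∈ G)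
    (mU' : ∀ w, w ∈ C' ∨ w ∈ D' ↔ w ≠ y ∧ w ∈ G) (hyD : y ∉ D) : D ⊆ (D ∩ D') ∪ (D ∩ C') := by
  intro w hw
  rw [mem_union, mem_inter, mem_inter]
  rcases (mU' w).2 ⟨fun h => hyD (h ▸ hw), ((mU w).1 (Or.inr hw)).2⟩ with h | h
  · exact Or.inr ⟨hw, h⟩
  · exact Or.inl ⟨hw, h⟩

/-- `C` is covered by `y` and the two quarters -/
private theorem tr_uC {G C D C' D' : Finset E} {x y : E} (mU : ∀ w, w ∈ C ∨ w ∈ D ↔ w ≠ x ∧ w ∈ G)
    (mU' : ∀ w, w ∈ C' ∨ w ∈ D' ↔ w ≠ y ∧ w ∈ G) : C ⊆ insert y (C ∩ C') ∪ (C ∩ D') := by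
  intro w hw
  rw [mem_union, mem_insert, mem_inter, mem_inter]
  by_cases hwy : w = y
  · exact Or.inl (Or.inl hwy)
  · rcases (mU' w).2 ⟨hwy, ((mU w).1 (Or.inl hw)).2⟩ with h | h
    · exact Or.inl (Or.inr ⟨hw, h⟩)
    · exact Or.inr ⟨hw, h⟩

private theorem tr_rk (hr : Rk r) (hp : p.1 ⊆ p.2) {x y z : E} (hx : x ∈ gs p) (hy : y ∈ gs p) (hz : z ∈ gs p)
    (hxy : x ≠ y) (hxz : x ≠ z) (h1 : r (insert x (insert y (insert z p.1))) = r (insert y (insert z p.1))) :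
    r (p.2.erase x) = r p.2 := by
  have h5 := tr_cl hr h1 (A := (gs p).erase x) (mem_erase.2 ⟨hxy.symm, hy⟩) (mem_erase.2 ⟨hxz.symm, hz⟩)
  rw [insert_erase hx, tr_all hp] at h5
  have e : p.1 ∪ (gs p).erase x = p.2.erase x := by
    rw [← gs_rm true x p]
    exact tr_all (wf_rm (t := true) hp hx)
  rw [← e]
  exact h5.symm

/-- `P` and `P + u` have order at most one in `p \ v` and `P` is light, so if `P + u + Q` is heavy there, `Q` is heavy -/
private theorem tr_gen (hr : Rk r) (hp : p.1 ⊆ p.2) {u v : E} {P Q A B : Finset E} (hu : u ∈ gs p) (hv : v ∈ gs p)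
    (huv : u ≠ v) (hP : P ⊆ gs p) (huP : u ∉ P) (hvP : v ∉ P) (hQ : Q ⊆ gs p) (hvQ : v ∉ Q)
    (hall : ∀ w, w ∈ gs p → w ≠ u → w ≠ v → w ∉ P → w ∈ A)
    (hle : r (p.1 ∪ P) + r (p.1 ∪ A) ≤ r p.2 + r p.1) (hrk : r (p.2.erase v) = r p.2) (hlQ : lam r p Q ≤ 1)
    (nv : ¬ Hv r p P) (hB : B ⊆ insert u P ∪ Q) (hv' : Hv r (rm true v p) B) : Hv r p Q := by
  have hw : (rm true v p).1 ⊆ (rm true v p).2 := wf_rm hp hv
  have hg : gs (rm true v p) = (gs p).erase v := gs_rm true v p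
  have hPg : P ⊆ gs (rm true v p) := by
    rw [hg]
    exact fun w h => mem_erase.2 ⟨fun h' => hvP (h' ▸ h), hP h⟩
  have hI : insert u P ⊆ gs (rm true v p) := by
    refine insert_subset ?_ hPg
    rw [hg]
    exact mem_erase.2 ⟨huv, hu⟩
  have hQg : Q ⊆ gs (rm true v p) := by
    rw [hg]
    exact fun w h => mem_erase.2 ⟨fun h' => hvQ (h' ▸ h), hQ h⟩
  have eA : gs (rm true v p) \ insert u P ⊆ A := by
    intro w h
    rw [hg, mem_sdiff, mem_erase, mem_insert, not_or] at h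
    exact hall w h.1.2 h.2.1 h.1.1 h.2.2
  have eA' : gs (rm true v p) \ P ⊆ insert u A := by
    intro w h
    rw [hg, mem_sdiff, mem_erase] at h
    by_cases hwu : w = u
    · exact hwu ▸ mem_insert_self _ _
    · exact mem_insert_of_mem (hall w h.1.2 hwu h.1.1 h.2)
  have e1 : (rm true v p).1 = p.1 := rfl
  have e2 : (rm true v p).2 = p.2.erase v := rfl
  have q1 : lam r (rm true v p) (insert u P) ≤ 1 := by
    rw [tr_lam hw hI, e1, e2, hrk]
    have b1 := hr.mono (p.1 ∪ (gs (rm true v p) \ insert u P)) (p.1 ∪ A) (union_subset_union_right eA)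
    have b2 := hr.unit (p.1 ∪ P) u
    rw [← union_insert] at b2
    linarith
  have q2 : lam r (rm true v p) P ≤ 1 := by
    rw [tr_lam hw hPg, e1, e2, hrk]
    have b1 := hr.mono (p.1 ∪ (gs (rm true v p) \ P)) (p.1 ∪ insert u A) (union_subset_union_right eA')
    have b2 := hr.unit (p.1 ∪ A) u
    rw [← union_insert] at b2
    linarith
  have q3 : lam r (rm true v p) Q ≤ 1 := by
    rw [tr_lam hw hQg, e1, e2, hrk]
    rw [tr_lam hp hQ] at hlQ
    have b1 := hr.mono (p.1 ∪ (gs (rm true v p) \ Q)) (p.1 ∪ (gs p \ Q)) (union_subset_union_right (by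
      rw [hg]
      exact sdiff_subset_sdiff (erase_subset _ _) (Subset.refl _)))
    linarith
  rcases Hv.split hr hw hI hQg q1 q3 (hv'.mono hB) with h | h
  · exfalso
    have h5 : Hv r (rm true v p) ((insert u P).erase u) :=
      Hv.erase hr hw hI (by rw [erase_insert huP]; exact q2) h
    rw [erase_insert huP] at h5
    exact nv h5.rm
  · exact h.rm

private theorem tr_ok (ho : Ok r p) {A B : Finset E} (hA : A ⊆ gs p) (hB : B ⊆ gs p) (hl : lam r p A ≤ 1)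
    (hd : ∀ w, w ∈ B → w ∉ A) (h1 : Hv r p A) (h2 : Hv r p B) : False :=
  ho A hA hl ⟨h1, h2.mono fun w hw => mem_sdiff.2 ⟨hB hw, hd w hw⟩⟩

/-- NB-TRIANGLE LEMMA. -/
theorem tri_del (hr : Rk r) (hp : p.1 ⊆ p.2) (hc : Cn r p) (ho : Ok r p) {x y z : E} (hx : x ∈ gs p) (hy : y ∈ gs p)
    (hz : z ∈ gs p) (hxy : x ≠ y) (hxz : x ≠ z) (hyz : y ≠ z)
    (h1 : r (insert x (insert y (insert z p.1))) = r (insert y (insert z p.1)))
    (h2 : r (insert y (insert x (insert z p.1))) = r (insert x (insert z p.1))) :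
    Ok r (rm true x p) ∨ Ok r (rm true y p) := by
  by_contra hcon
  rw [not_or] at hcon
  obtain ⟨C, D, hU, hd, hyC, hzD, hl, hvC, hvD⟩ := tr_sep hr hp ho hx hy hz hxy hxz h1 hcon.1
  obtain ⟨C', D', hU', hd', hxC', hzD', hl', hvC', hvD'⟩ := tr_sep hr hp ho hy hx hz hxy.symm hyz h2 hcon.2
  have mU : ∀ w, w ∈ C ∨ w ∈ D ↔ w ≠ x ∧ w ∈ gs p := fun w => by rw [← mem_union, hU, mem_erase]
  have mU' : ∀ w, w ∈ C' ∨ w ∈ D' ↔ w ≠ y ∧ w ∈ gs p := fun w => by rw [← mem_union, hU', mem_erase]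
  have md : ∀ w, w ∈ C → w ∉ D := fun w h => disjoint_left.1 hd h
  have md' : ∀ w, w ∈ C' → w ∉ D' := fun w h => disjoint_left.1 hd' h
  have hCg : C ⊆ gs p := fun w h => ((mU w).1 (Or.inl h)).2
  have hDg : D ⊆ gs p := fun w h => ((mU w).1 (Or.inr h)).2
  have hxC : x ∉ C := fun h => ((mU x).1 (Or.inl h)).1 rfl
  have hxD : x ∉ D := fun h => ((mU x).1 (Or.inr h)).1 rfl
  have hyC' : y ∉ C' := fun h => ((mU' y).1 (Or.inl h)).1 rfl
  have hyD' : y ∉ D' := fun h => ((mU' y).1 (Or.inr h)).1 rfl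
  have hyD : y ∉ D := md y hyC
  have hxD' : x ∉ D' := md' x hxC'
  have hzC : z ∉ C := fun h => md z h hzD
  have hzC' : z ∉ C' := fun h => md' z h hzD'
  have g1 : C ∩ C' ⊆ gs p := inter_subset_left.trans hCg
  have g2 : C ∩ D' ⊆ gs p := inter_subset_left.trans hCg
  have g3 : D ∩ D' ⊆ gs p := inter_subset_left.trans hDg
  have g4 : D ∩ C' ⊆ gs p := inter_subset_left.trans hDg
  have c4 : gs p \ (D ∩ C') = insert x (C ∪ D') := tr_c4 mU mU' md md' hx hyC hxD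
  have c2 : gs p \ (D' ∩ C) = insert y (C' ∪ D) := tr_c4 mU' mU md' md hy hxC' hyD'
  rw [inter_comm D' C, union_comm C' D] at c2
  have c3 : gs p \ (D ∩ D') = C ∪ C' := tr_c3 mU mU' md md' hyC hxC'
  have c1 : gs p \ (C ∩ C') ⊆ insert y (insert x (D ∪ D')) := tr_c1 mU mU'
  have s1 := tr_sub hr p.1 C D'
  have s2 := tr_sub hr p.1 D C'
  have s3 := tr_sub hr p.1 C C'
  have s4 := tr_sub hr p.1 D D'
  have k4 : r (p.1 ∪ insert x (C ∪ D')) = r (p.1 ∪ (C ∪ D')) :=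
    tr_cl hr h1 (mem_union_left _ hyC) (mem_union_right _ hzD')
  have k2 : r (p.1 ∪ insert y (D ∪ C')) = r (p.1 ∪ (D ∪ C')) :=
    tr_cl hr h2 (mem_union_right _ hxC') (mem_union_left _ hzD)
  have l2 := tr_lam (r := r) hp g2
  have l4 := tr_lam (r := r) hp g4
  have l3 := tr_lam (r := r) hp g3
  have l1 := tr_lam (r := r) hp g1
  rw [c2, k2] at l2
  rw [c4, k4] at l4
  rw [c3] at l3
  have sum24 : lam r p (C ∩ D') + lam r p (D ∩ C') ≤ 2 := by linarith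
  have sum3 : lam r p (D ∩ D') + (r (p.1 ∪ (C ∩ C')) + r (p.1 ∪ (D ∪ D')) - r p.2 - r p.1) ≤ 2 := by linarith
  have n2 : (C ∩ D').Nonempty → 1 ≤ lam r p (C ∩ D') := fun h => hc _ g2 h ⟨z, mem_sdiff.2
    ⟨hz, fun h' => hzC (mem_inter.1 h').1⟩⟩
  have n4 : (D ∩ C').Nonempty → 1 ≤ lam r p (D ∩ C') := fun h => hc _ g4 h ⟨z, mem_sdiff.2
    ⟨hz, fun h' => hzC' (mem_inter.1 h').2⟩⟩
  have uD : D ⊆ (D ∩ D') ∪ (D ∩ C') := tr_uD mU mU' hyD
  have uD' : D' ⊆ (D' ∩ D) ∪ (D' ∩ C) := tr_uD mU' mU hxD'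
  rw [inter_comm D' D, inter_comm D' C] at uD'
  have f24 : lam r p (C ∩ D') ≤ 1 → Hv r p (C ∩ D') → Hv r p (D ∩ C') → False := fun a b c =>
    tr_ok ho g2 g4 a (fun w hw h => md w (mem_inter.1 h).1 (mem_inter.1 hw).1) b c
  by_cases hb : 1 ≤ r (p.1 ∪ (C ∩ C')) + r (p.1 ∪ (D ∪ D')) - r p.2 - r p.1
  · have t3 : lam r p (D ∩ D') ≤ 1 := by linarith
    have nv3 : ¬ Hv r p (D ∩ D') := fun h =>
      tr_ok ho g3 hCg t3 (fun w hw h' => md w hw (mem_inter.1 h').1) h hvC.rm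
    have e2 : (C ∩ D').Nonempty := by
      rw [nonempty_iff_ne_empty]
      intro h
      rw [h, union_empty] at uD'
      exact nv3 (hvD'.rm.mono uD')
    have e4 : (D ∩ C').Nonempty := by
      rw [nonempty_iff_ne_empty]
      intro h
      rw [h, union_empty] at uD
      exact nv3 (hvD.rm.mono uD)
    have t2 : lam r p (C ∩ D') ≤ 1 := by linarith [n4 e4]
    have t4 : lam r p (D ∩ C') ≤ 1 := by linarith [n2 e2]
    have v4 : Hv r p (D ∩ C') := (Hv.split hr hp g3 g4 t3 t4 (hvD.rm.mono uD)).resolve_left nv3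
    have v2 : Hv r p (C ∩ D') := (Hv.split hr hp g3 g2 t3 t2 (hvD'.rm.mono uD')).resolve_left nv3
    exact f24 t2 v2 v4
  · have hb' : r (p.1 ∪ (C ∩ C')) + r (p.1 ∪ (D ∪ D')) ≤ r p.2 + r p.1 := by
      have := Int.lt_iff_add_one_le.1 (not_le.1 hb)
      linarith
    have hzU : z ∈ D ∪ D' := mem_union_left _ hzD
    have m1 : r (p.1 ∪ insert y (insert x (D ∪ D'))) ≤ r (p.1 ∪ (D ∪ D')) + 1 := by
      have a1 : r (p.1 ∪ insert y (insert x (D ∪ D'))) = r (p.1 ∪ insert x (D ∪ D')) :=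
        tr_cl hr h2 (mem_insert_self _ _) (mem_insert_of_mem hzU)
      have a2 := hr.unit (p.1 ∪ (D ∪ D')) x
      rw [← union_insert] at a2
      linarith
    have m2 := hr.mono _ _ (union_subset_union_right c1 : p.1 ∪ (gs p \ (C ∩ C')) ⊆ _)
    have t1 : lam r p (C ∩ C') ≤ 1 := by linarith
    have nv1 : ¬ Hv r p (C ∩ C') := fun h =>
      tr_ok ho g1 hDg t1 (fun w hw h' => md w (mem_inter.1 h').1 hw) h hvD.rm
    have rk1 := tr_rk hr hp hx hy hz hxy hxz h1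
    have rk2 := tr_rk hr hp hy hx hz hxy.symm hyz h2
    have x1 : x ∉ C ∩ C' := fun h => hxC (mem_inter.1 h).1
    have y1 : y ∉ C ∩ C' := fun h => hyC' (mem_inter.1 h).2
    have hall : ∀ w, w ∈ gs p → w ≠ x → w ≠ y → w ∉ C ∩ C' → w ∈ D ∪ D' := by
      intro w a1 a2 a3 a4
      have h := c1 (mem_sdiff.2 ⟨a1, a4⟩)
      exact (mem_insert.1 ((mem_insert.1 h).resolve_left a3)).resolve_left a2
    have y4 : y ∉ D ∩ C' := fun h => hyD (mem_inter.1 h).1
    have x2 : x ∉ C ∩ D' := fun h => hxC (mem_inter.1 h).1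
    have uC : C ⊆ insert y (C ∩ C') ∪ (C ∩ D') := tr_uC mU mU'
    have uC' : C' ⊆ insert x (C' ∩ C) ∪ (C' ∩ D) := tr_uC mU' mU
    rw [inter_comm C' C, inter_comm C' D] at uC'
    have w2 : lam r p (C ∩ D') ≤ 1 → Hv r p (C ∩ D') := fun h =>
      tr_gen hr hp hy hx hxy.symm g1 y1 x1 g2 x2 (fun w a b c d => hall w a c b d) hb' rk1 h nv1 uC hvC
    have w4 : lam r p (D ∩ C') ≤ 1 → Hv r p (D ∩ C') := fun h =>
      tr_gen hr hp hx hy hxy g1 x1 y1 g4 y4 hall hb' rk2 h nv1 uC' hvC'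
    have e2 : (C ∩ D').Nonempty := by
      rw [nonempty_iff_ne_empty]
      intro h
      have h6 := (w2 (by rw [h, lam_empty]; norm_num)).card
      rw [h, card_empty] at h6
      omega
    have e4 : (D ∩ C').Nonempty := by
      rw [nonempty_iff_ne_empty]
      intro h
      have h6 := (w4 (by rw [h, lam_empty]; norm_num)).card
      rw [h, card_empty] at h6
      omega
    have t2 : lam r p (C ∩ D') ≤ 1 := by linarith [n4 e4]
    have t4 : lam r p (D ∩ C') ≤ 1 := by linarith [n2 e2]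
    exact f24 t2 (w2 t2) (w4 t4)

end QUB
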