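import Pool.Agent.QUB.Lam2
import Pool.Agent.QUB.Line

/-! LEMMA 2'', same type: no exception.

PLAN (`Q = p`, `Y = (gs p).erase w \ X`, `δ_x^Q(A) = lam Q A - lam Q_x A`; `rm_comm` commutes removals).
(0) `1 ≤ lam p_w {e}`: otherwise `lam p_w (X - e) ≤ lam p_w X ≤ 1` (submodularity with the complement of `e`), `X - e` is heavy in
`p_w` by (F1), so `Nbs p w s (X - e)`, against `hm`. By `lam_deg` also `1 ≤ lam p_e {w}` (`p` is connected).
(1) `lam p_{w,e} Y ≤ 1`, `= 1` by connectivity, so `δ_e^{p_w}(Y) ≤ 0` and by (L3), (L4): `lam Q A₁ ≤ lam p_e A₁` for `A₁ ⊆ Y`.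
Let `A ⊆ gs p_e`, `lam p_e A ≤ 1`, both sides heavy in `p_e`, `B` the complement, by symmetry `w ∈ B`.
(i) `A ⊆ X - e`: `Nbs p e s A`, against `hm`. (ii) `A ⊆ Y`: `lam Q A ≤ 1` by (1), against `ho` (heavy in a minor gives heavy).
(iii) `A` meets `X` and `Y`; `δ_w^{p_e}(A) ≤ 1 - 1 = 0` (`p_{e,w}` is connected). (a) `B - w` meets `X` and `Y`: uncross in `p_{e,w}`
(`lam_sub`) `A` with `X - e` and `Y`: `lam p_{e,w} (A ∩ X) = lam p_{e,w} (A ∩ Y) = 1`, by (L3) `lam p_e (A ∩ X) ≤ 1`, `lam p_e (A ∩ Y) ≤ 1`;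
one of them is heavy in `p_e` by (F1): `A ∩ X`: against `hm`; `A ∩ Y`: by (1) against `ho`. (b) `B - w ⊆ X`, so `Y ⊆ A`: by (L3)
`lam p_e Y ≤ lam p_{e,w} Y ≤ 1`, by (1) `lam Q Y ≤ 1`, `Y` and `X ∪ w` are heavy: against `ho`. (c) `B - w ⊆ Y`, so `X - e ⊆ A`: by (L3)
`δ_w^{p_e}(X - e) ≤ 0`, by (L6) (same type!) `lam Q X ≤ lam p_w X ≤ 1`: against `ho`.
-/

namespace QUB

open Finset

variable {E : Type*} [DecidableEq E] {r : Finset E → ℤ} {p : Mn E}

private theorem TwoA_mono {q : Mn E} {A B : Finset E} (h : Hv r q A) (hAB : A ⊆ B) : Hv r q B := by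
  obtain ⟨N, hN, hc⟩ := h
  exact ⟨N, hN, hc.trans (card_le_card (inter_subset_inter_left hAB))⟩

private theorem TwoA_up {q : Mn E} {t : Bool} {x : E} {A : Finset E} (h : Hv r (rm t x q) A) :
    Hv r q A := by
  obtain ⟨N, hN, hc⟩ := h
  exact ⟨N, Ln.rm hN, hc⟩

private theorem TwoA_ne {q : Mn E} {A : Finset E} (h : Hv r q A) (x : E) : (A.erase x).Nonempty := by
  obtain ⟨N, hN, hc⟩ := h
  have h1 : 3 ≤ A.card := hc.trans (card_le_card inter_subset_right)
  rw [← card_pos]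
  have h2 := pred_card_le_card_erase (s := A) (a := x)
  omega

private theorem TwoA_ne' {q : Mn E} {A : Finset E} (h : Hv r q A) : A.Nonempty := by
  obtain ⟨N, hN, hc⟩ := h
  have h1 : 3 ≤ A.card := hc.trans (card_le_card inter_subset_right)
  rw [← card_pos]
  omega

/-- removing one element from a heavy side -/
private theorem TwoA_er (hr : Rk r) {q : Mn E} (hq : q.1 ⊆ q.2) {A : Finset E} {x : E}
    (hA : A ⊆ gs q) (h : Hv r q A) (hl : lam r q (A.erase x) ≤ 1) : Hv r q (A.erase x) := by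
  obtain ⟨N, hN, hc⟩ := h
  refine ⟨N, hN, ?_⟩
  have h1 := F1 hr hq ((erase_subset x A).trans hA) hl hN
  have h2 : N ∩ A.erase x = (N ∩ A).erase x := by
    ext y; simp only [mem_inter, mem_erase]; tauto
  have h3 := pred_card_le_card_erase (s := N ∩ A) (a := x)
  rw [h2] at h1 ⊢
  omega

/-- two parts of a heavy side -/
private theorem TwoA_sp (hr : Rk r) {q : Mn E} (hq : q.1 ⊆ q.2) {A A₁ A₂ : Finset E}
    (h1 : A₁ ⊆ gs q) (h2 : A₂ ⊆ gs q) (hA : A ⊆ A₁ ∪ A₂) (h : Hv r q A)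
    (l1 : lam r q A₁ ≤ 1) (l2 : lam r q A₂ ≤ 1) : Hv r q A₁ ∨ Hv r q A₂ := by
  obtain ⟨N, hN, hc⟩ := h
  have e1 := F1 hr hq h1 l1 hN
  have e2 := F1 hr hq h2 l2 hN
  have h3 : N ∩ A ⊆ (N ∩ A₁) ∪ (N ∩ A₂) := by
    intro y hy
    have h4 := mem_inter.1 hy
    rcases mem_union.1 (hA h4.2) with h5 | h5
    · exact mem_union_left _ (mem_inter.2 ⟨h4.1, h5⟩)
    · exact mem_union_right _ (mem_inter.2 ⟨h4.1, h5⟩)
  have h4 := (card_le_card h3).trans (card_union_le _ _)
  by_cases h5 : 3 ≤ (N ∩ A₁).card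
  · exact Or.inl ⟨N, hN, h5⟩
  · right
    refine ⟨N, hN, ?_⟩
    omega

/-- LEMMA 2''(a), weak minimality. `p` connected and fine, `X` a side of a split at `w` of type `s`, no
side of a split at `w` or `e` is properly contained in `X`, `e ∈ X` with `p_{w,e}` connected for the SAME type `s`: then `p_e` is fine. -/
theorem two_same_w (hr : Rk r) (hp : p.1 ⊆ p.2) {w e : E} {s : Bool} {X : Finset E}
    (hw : w ∈ gs p) (hc : Cn r p) (ho : Ok r p) (hn : Nbs r p w s X) (hmw : Mne r p w X)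
    (hme : Mne r p e X) (he : e ∈ X) (ce : Cn r (rm s e (rm s w p))) : Ok r (rm s e p) := by
  have hX := hn.1
  have hlX := hn.2.1
  have hvX := hn.2.2.1
  have hvY := hn.2.2.2
  set Y : Finset E := (gs p).erase w \ X with hY
  have hew : e ≠ w := (mem_erase.1 (hX he)).1
  have heg : e ∈ gs p := (mem_erase.1 (hX he)).2
  have hwX : w ∉ X := fun h => (mem_erase.1 (hX h)).1 rfl
  have hqw : (rm s w p).1 ⊆ (rm s w p).2 := wf_rm hp hw
  have hqe : (rm s e p).1 ⊆ (rm s e p).2 := wf_rm hp heg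
  have gw : gs (rm s w p) = (gs p).erase w := gs_rm s w p
  have ge : gs (rm s e p) = (gs p).erase e := gs_rm s e p
  have gwe : gs (rm s e (rm s w p)) = ((gs p).erase w).erase e := by rw [gs_rm, gs_rm]
  have hcomm : rm s w (rm s e p) = rm s e (rm s w p) := rm_comm s s p
  have hegw : e ∈ gs (rm s w p) := by rw [gw]; exact mem_erase.2 ⟨hew, heg⟩
  have hwge : w ∈ gs (rm s e p) := by rw [ge]; exact mem_erase.2 ⟨hew.symm, hw⟩
  have hqwe : (rm s e (rm s w p)).1 ⊆ (rm s e (rm s w p)).2 := wf_rm hqw hegw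
  have hXw : X ⊆ gs (rm s w p) := by rw [gw]; exact hX
  have hYw : Y ⊆ gs (rm s w p) := by rw [gw, hY]; exact sdiff_subset
  have hYe : e ∉ Y := fun h => (mem_sdiff.1 h).2 he
  have hYwe : Y ⊆ (gs (rm s w p)).erase e := fun y hy =>
    mem_erase.2 ⟨fun h => hYe (h ▸ hy), hYw hy⟩
  have hYwe' : Y ⊆ ((gs p).erase w).erase e := by rw [← gw]; exact hYwe
  have hYp : Y ⊆ gs p := hYwe'.trans ((erase_subset _ _).trans (erase_subset _ _))
  have hXp : X ⊆ gs p := hX.trans (erase_subset _ _)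
  -- (0)
  have s0 : 1 ≤ lam r (rm s w p) {e} := by
    by_contra hcon
    have h0 : lam r (rm s w p) {e} ≤ 0 := by omega
    have h1 : {e} ⊆ gs (rm s w p) := singleton_subset_iff.2 hegw
    have h2 := lam_sub (p := rm s w p) hr X (gs (rm s w p) \ {e})
    have e1 : X ∩ (gs (rm s w p) \ {e}) = X.erase e := by
      ext y
      have h3 : y ∈ X → y ∈ gs (rm s w p) := fun h => hXw h
      simp only [mem_inter, mem_sdiff, mem_singleton, mem_erase]; tauto
    have e2 : X ∪ (gs (rm s w p) \ {e}) = gs (rm s w p) := by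
      ext y
      have h3 : y ∈ X → y ∈ gs (rm s w p) := fun h => hXw h
      have h4 : y = e → y ∈ X := fun h => h ▸ he
      simp only [mem_union, mem_sdiff, mem_singleton]; tauto
    rw [e1, e2, lam_compl r hqw h1, lam_full r hqw] at h2
    have h3 : lam r (rm s w p) (X.erase e) ≤ 1 := by linarith
    refine hmw s (X.erase e) ⟨(erase_subset _ _).trans hX, h3, TwoA_er hr hqw hXw hvX h3,
      TwoA_mono hvY ?_⟩ (erase_ssubset he)
    exact sdiff_subset_sdiff (subset_refl _) (erase_subset _ _)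
  have s0e : 1 ≤ lam r (rm s e p) {w} := by
    have h1 : 1 ≤ lam r p {e} := by
      refine hc {e} (singleton_subset_iff.2 heg) (singleton_nonempty e) ⟨w, ?_⟩
      exact mem_sdiff.2 ⟨hw, fun h => hew (mem_singleton.1 h).symm⟩
    have h2 : 1 ≤ lam r p {w} := by
      refine hc {w} (singleton_subset_iff.2 hw) (singleton_nonempty w) ⟨e, ?_⟩
      exact mem_sdiff.2 ⟨heg, fun h => hew (mem_singleton.1 h)⟩
    rw [lam_deg hr hp hw heg hew h1 h2]
    exact s0
  -- (1)
  have hcY : gs (rm s w p) \ X = Y := by rw [gw]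
  have lY : lam r (rm s w p) Y ≤ 1 := by
    rw [← hcY, lam_compl r hqw hXw]
    exact hlX
  have hcwe : gs (rm s e (rm s w p)) \ Y = X.erase e := by
    rw [gwe]
    ext y
    have h3 : y ∈ X → y ∈ (gs p).erase w := fun h => hX h
    simp only [hY, mem_sdiff, mem_erase] at h3 ⊢
    tauto
  have hYgwe : Y ⊆ gs (rm s e (rm s w p)) := by rw [gwe]; exact hYwe'
  have hXgwe : X.erase e ⊆ gs (rm s e (rm s w p)) := by
    rw [gwe]; exact erase_subset_erase e hX
  have lY1 : 1 ≤ lam r (rm s e (rm s w p)) Y := by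
    refine ce Y hYgwe (TwoA_ne' hvY) ?_
    rw [hcwe]
    exact TwoA_ne hvX e
  have lYwe : lam r (rm s e (rm s w p)) Y ≤ 1 := (lam_rm_le hr hegw hYwe).trans lY
  have lXwe : lam r (rm s e (rm s w p)) (X.erase e) ≤ 1 := by
    rw [← hcwe, lam_compl r hqwe hYgwe]
    exact lYwe
  have s1 : ∀ A₁ : Finset E, A₁ ⊆ Y → lam r p A₁ ≤ lam r (rm s e p) A₁ := by
    intro A₁ h
    have h1 := lam_L3 (p := rm s w p) hr (t := s) hegw h hYwe
    have h2 := lam_L4 hr hp (s := s) (t := s) hw heg hew (h.trans hYwe') s0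
    linarith
  -- the main part
  have main : ∀ A : Finset E, A ⊆ gs (rm s e p) → lam r (rm s e p) A ≤ 1 → w ∉ A →
      Hv r (rm s e p) A → Hv r (rm s e p) (gs (rm s e p) \ A) → False := by
    intro A hA hl hwA hv hv'
    have hAe : e ∉ A := fun h => by
      have h1 := hA h
      rw [ge] at h1
      exact (mem_erase.1 h1).1 rfl
    have hAp : A ⊆ gs p := fun y hy => by
      have h1 := hA hy
      rw [ge] at h1
      exact (mem_erase.1 h1).2
    have hAwe : A ⊆ (gs (rm s e p)).erase w := fun y hy =>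
      mem_erase.2 ⟨fun h => hwA (h ▸ hy), hA hy⟩
    have hAgwe : A ⊆ gs (rm s e (rm s w p)) := by
      rw [← hcomm, gs_rm]
      exact hAwe
    have hvp : Hv r p (gs (rm s e p) \ A) := TwoA_up hv'
    have hAXY : ∀ y ∈ A, y ∈ X ∨ y ∈ Y := by
      intro y hy
      by_cases h : y ∈ X
      · exact Or.inl h
      · exact Or.inr (mem_sdiff.2 ⟨mem_erase.2 ⟨fun h1 => hwA (h1 ▸ hy), hAp hy⟩, h⟩)
    -- a heavy subset of A contained in X
    have killX : ∀ A₁ : Finset E, A₁ ⊆ A → A₁ ⊆ X → lam r (rm s e p) A₁ ≤ 1 →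
        Hv r (rm s e p) A₁ → False := by
      intro A₁ h1 h2 h3 h4
      refine hme s A₁ ⟨?_, h3, h4, ?_⟩ ?_
      · rw [← ge]; exact h1.trans hA
      · rw [← ge]
        exact TwoA_mono hv' (sdiff_subset_sdiff (subset_refl _) h1)
      · exact ⟨h2, fun h => hAe (h1 (h he))⟩
    have killY : ∀ A₁ : Finset E, A₁ ⊆ A → A₁ ⊆ Y → lam r (rm s e p) A₁ ≤ 1 →
        Hv r (rm s e p) A₁ → False := by
      intro A₁ h1 h2 h3 h4
      refine ho A₁ (h2.trans hYp) ((s1 A₁ h2).trans h3) ⟨TwoA_up h4, TwoA_mono hvp ?_⟩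
      intro y hy
      have h5 := mem_sdiff.1 hy
      have h6 := h5.1
      rw [ge] at h6
      exact mem_sdiff.2 ⟨(mem_erase.1 h6).2, fun h => h5.2 (h1 h)⟩
    by_cases hAX : A ⊆ X
    · exact killX A (subset_refl _) hAX hl hv
    by_cases hAY : A ⊆ Y
    · exact killY A (subset_refl _) hAY hl hv
    obtain ⟨a, ha, haX⟩ := not_subset.1 hAX
    obtain ⟨a', ha', haY⟩ := not_subset.1 hAY
    have haY' : a ∈ Y := (hAXY a ha).resolve_left haX
    have haX' : a' ∈ X := (hAXY a' ha').resolve_right haY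
    -- the complement in the double minor
    have hcA : gs (rm s e (rm s w p)) \ A = (gs (rm s e p) \ A).erase w := by
      rw [← hcomm, gs_rm]
      ext y; simp only [mem_sdiff, mem_erase]; tauto
    have lA1 : 1 ≤ lam r (rm s e (rm s w p)) A := by
      refine ce A hAgwe ⟨a, ha⟩ ?_
      rw [hcA]
      exact TwoA_ne hv' w
    have lAwe : lam r (rm s e (rm s w p)) A ≤ 1 := by
      have h1 := lam_rm_le (p := rm s e p) hr (t := s) hwge hAwe
      rw [hcomm] at h1
      linarith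
    have s3 : ∀ A₁ : Finset E, A₁ ⊆ A →
        lam r (rm s e p) A₁ ≤ lam r (rm s e (rm s w p)) A₁ := by
      intro A₁ h
      have h1 := lam_L3 (p := rm s e p) hr (t := s) hwge h hAwe
      rw [hcomm] at h1
      linarith
    by_cases hBY : ∃ b ∈ Y, b ∉ A
    · by_cases hBX : ∃ b ∈ X.erase e, b ∉ A
      · -- (a)
        obtain ⟨b, hb, hbA⟩ := hBY
        obtain ⟨b', hb', hbA'⟩ := hBX
        have u1 := lam_sub (p := rm s e (rm s w p)) hr A (X.erase e)
        have u2 := lam_sub (p := rm s e (rm s w p)) hr A Y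
        have c1 : 1 ≤ lam r (rm s e (rm s w p)) (A ∪ X.erase e) := by
          refine ce _ (union_subset hAgwe hXgwe) ⟨a, mem_union_left _ ha⟩ ⟨b, ?_⟩
          refine mem_sdiff.2 ⟨hYgwe hb, fun h => ?_⟩
          rcases mem_union.1 h with h | h
          · exact hbA h
          · exact (mem_sdiff.1 hb).2 (mem_erase.1 h).2
        have c2 : 1 ≤ lam r (rm s e (rm s w p)) (A ∪ Y) := by
          refine ce _ (union_subset hAgwe hYgwe) ⟨a, mem_union_left _ ha⟩ ⟨b', ?_⟩
          refine mem_sdiff.2 ⟨hXgwe hb', fun h => ?_⟩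
          rcases mem_union.1 h with h | h
          · exact hbA' h
          · exact (mem_sdiff.1 h).2 (mem_erase.1 hb').2
        have d1 : lam r (rm s e p) (A ∩ X.erase e) ≤ 1 := by
          have := s3 (A ∩ X.erase e) inter_subset_left
          linarith
        have d2 : lam r (rm s e p) (A ∩ Y) ≤ 1 := by
          have := s3 (A ∩ Y) inter_subset_left
          linarith
        have hcov : A ⊆ (A ∩ X.erase e) ∪ (A ∩ Y) := by
          intro y hy
          rcases hAXY y hy with h | h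
          · exact mem_union_left _ (mem_inter.2 ⟨hy, mem_erase.2 ⟨fun h1 => hAe (h1 ▸ hy), h⟩⟩)
          · exact mem_union_right _ (mem_inter.2 ⟨hy, h⟩)
        rcases TwoA_sp hr hqe (inter_subset_left.trans hA) (inter_subset_left.trans hA) hcov hv
          d1 d2 with h | h
        · exact killX _ inter_subset_left (inter_subset_right.trans (erase_subset _ _)) d1 h
        · exact killY _ inter_subset_left inter_subset_right d2 h
      · -- (c)
        push Not at hBX
        have hXA : X.erase e ⊆ A := fun y hy => hBX y hy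
        have h1 := s3 (X.erase e) hXA
        have h2 := lam_L6 hr hp (t := s) hw heg hew (A := X.erase e)
          (by rw [← gwe]; exact hXgwe) s0e
        rw [insert_erase he, hcomm] at h2
        refine ho X hXp (by linarith) ⟨TwoA_up hvX, TwoA_mono (TwoA_up hvY) ?_⟩
        intro y hy
        have h5 := mem_sdiff.1 hy
        exact mem_sdiff.2 ⟨(mem_erase.1 h5.1).2, h5.2⟩
    · -- (b)
      push Not at hBY
      have hYA : Y ⊆ A := fun y hy => hBY y hy
      have h1 := s3 Y hYA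
      have h2 := s1 Y (subset_refl _)
      refine ho Y hYp (by linarith) ⟨TwoA_up hvY, TwoA_mono (TwoA_up hvX) ?_⟩
      intro y hy
      exact mem_sdiff.2 ⟨hXp hy, fun h => (mem_sdiff.1 h).2 hy⟩
  intro A hA hl hv
  by_cases hwA : w ∈ A
  · refine main (gs (rm s e p) \ A) sdiff_subset ?_ ?_ hv.2 ?_
    · rw [lam_compl r hqe hA]; exact hl
    · exact fun h => (mem_sdiff.1 h).2 hwA
    · rw [Finset.sdiff_sdiff_eq_self hA]; exact hv.1
  · exact main A hA hl hwA hv.1 hv.2

/-- LEMMA 2''(a). `p` connected and fine, `X` a minimal side of splits, a side of a split at `w` of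
type `s`, `e ∈ X` with `p_{w,e}` connected for the SAME type `s`: then `p_e` is fine. -/
theorem two_same (hr : Rk r) (hp : p.1 ⊆ p.2) {w e : E} {s : Bool} {X : Finset E}
    (hw : w ∈ gs p) (hc : Cn r p) (ho : Ok r p) (hn : Nbs r p w s X) (hm : Mnl r p X)
    (he : e ∈ X) (ce : Cn r (rm s e (rm s w p))) : Ok r (rm s e p) :=
  two_same_w hr hp hw hc ho hn (hm.at hw) (hm.at (mem_of_mem_erase (hn.1 he))) he ce

end QUB
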