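import Pool.Agent.QUB.Lam2
import Pool.Agent.QUB.Line

/-! LEMMA 2'', opposite type.

PLAN: as in `TwoA` (read its header; (L4') is unconditional for different types, so (0) is not needed). Let `A ⊆ gs p_e`,
`lam p_e A ≤ 1`, both sides heavy in `p_e`, `B` the complement, by symmetry `w ∈ B`. Cases (i), (ii), (iii)(a), (iii)(b) are
contradictions as in `TwoA`. What remains is (c): `B = insert w Z`, `Z ⊆ Y`, `X - e ⊆ A`, and the claims are:
`Z` nonempty (`B` is heavy, so has three elements), `Y \ Z ≠ ∅` (`A` meets `Y`, otherwise case (i)), `lam p_e (insert w Z) ≤ 1`, heavy sides;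
`δ_w^{p_e}(A) ≤ 1 - 1 = 0` gives by (L3) the last claim (`≤` by (L3), `≥` by `lam_rm_le`); `lam p_{e,w} Z = lam p_{e,w} A ≤ 1` and
`lam p_w Z ≤ lam p_{w,e} Z` by (1) (`δ_e^{p_w}(Y) ≤ 0`); `2 ≤ lam p Z`: if `lam p Z ≤ 1` then `lam p_e Z ≤ 1`, so `Z` is heavy in `p_e`
by (F1) (`N` has at least two elements in `Z`), and `Z` contradicts `ho`; `lam p_e (X - e) = lam p_{e,w} (X - e) ≤ lam p_w X ≤ 1`;
`X - e` heavy in `p_e` would give `Nbs p e (!s) (X - e)` (complement contains `B`), against `hm`.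
Warning: `A = ((gs p).erase w \ Z).erase e`.
-/

namespace QUB

open Finset

variable {E : Type*} [DecidableEq E] {r : Finset E → ℤ} {p : Mn E}

private theorem TwoB_mono {A B : Finset E} (h : Hv r p A) (hAB : A ⊆ B) : Hv r p B := by
  obtain ⟨N, hN, hc⟩ := h
  exact ⟨N, hN, hc.trans (card_le_card (inter_subset_inter_left hAB))⟩

private theorem TwoB_rm {t : Bool} {x : E} {A : Finset E} (h : Hv r (rm t x p) A) : Hv r p A := by
  obtain ⟨N, hN, hc⟩ := h
  exact ⟨N, Ln.rm hN, hc⟩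

private theorem TwoB_card {A : Finset E} (h : Hv r p A) : 3 ≤ A.card := by
  obtain ⟨N, -, hc⟩ := h
  exact hc.trans (card_le_card inter_subset_right)

private theorem TwoB_split (hr : Rk r) (hp : p.1 ⊆ p.2) {A B C : Finset E} (hA : A ⊆ gs p)
    (hB : B ⊆ gs p) (lA : lam r p A ≤ 1) (lB : lam r p B ≤ 1) (hC : C ⊆ A ∪ B)
    (h : Hv r p C) : Hv r p A ∨ Hv r p B := by
  obtain ⟨N, hN, hc⟩ := h
  have h1 := F1 hr hp hA lA hN
  have h2 := F1 hr hp hB lB hN
  have h3 : N ∩ C ⊆ (N ∩ A) ∪ (N ∩ B) := by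
    intro y hy
    rw [mem_inter] at hy
    rw [mem_union, mem_inter, mem_inter]
    rcases mem_union.1 (hC hy.2) with h | h
    · exact Or.inl ⟨hy.1, h⟩
    · exact Or.inr ⟨hy.1, h⟩
  have h4 := (card_le_card h3).trans (card_union_le _ _)
  by_cases h5 : 3 ≤ (N ∩ A).card
  · exact Or.inl ⟨N, hN, h5⟩
  · refine Or.inr ⟨N, hN, ?_⟩
    omega

/-- LEMMA 2''(b), first part. `p` connected and fine, `X` a minimal side of splits, a side of a split
at `w` of type `s`, `e ∈ X` with `p_{w,e}` connected for the OPPOSITE type.  Then `p_e` is fine, or there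
is `Z ⊆ Y` (the other side) with the following properties. -/
theorem two_opp_w (hr : Rk r) (hp : p.1 ⊆ p.2) {w e : E} {s : Bool} {X : Finset E}
    (hw : w ∈ gs p) (hc : Cn r p) (ho : Ok r p) (hn : Nbs r p w s X) (hme : Mne r p e X)
    (he : e ∈ X) (ce : Cn r (rm (!s) e (rm s w p))) (hno : ¬ Ok r (rm (!s) e p)) :
    ∃ Z ⊆ (gs p).erase w \ X, Z.Nonempty ∧ ((gs p).erase w \ X) \ Z ≠ ∅ ∧
      lam r (rm (!s) e p) (insert w Z) ≤ 1 ∧ Hv r (rm (!s) e p) (insert w Z) ∧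
      Hv r (rm (!s) e p) (((gs p).erase w \ Z).erase e) ∧
      lam r (rm s w p) Z ≤ 1 ∧ 2 ≤ lam r p Z ∧
      lam r (rm (!s) e p) (X.erase e) ≤ 1 ∧ ¬ Hv r (rm (!s) e p) (X.erase e) ∧
      (∀ A ⊆ ((gs p).erase w \ Z).erase e, lam r (rm (!s) e p) A = lam r (rm s w (rm (!s) e p)) A) := by
  obtain ⟨hXs, lX, hX, hY⟩ := hn
  have heg : e ∈ gs p := mem_of_mem_erase (hXs he)
  have hew : e ≠ w := (mem_erase.1 (hXs he)).1
  -- the minors
  have gw : gs (rm s w p) = (gs p).erase w := gs_rm s w p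
  have ge : gs (rm (!s) e p) = (gs p).erase e := gs_rm _ e p
  have wfw : (rm s w p).1 ⊆ (rm s w p).2 := wf_rm hp hw
  have wfe : (rm (!s) e p).1 ⊆ (rm (!s) e p).2 := wf_rm hp heg
  have hwe : w ∈ gs (rm (!s) e p) := by rw [ge]; exact mem_erase.2 ⟨hew.symm, hw⟩
  have hee : e ∈ gs (rm s w p) := by rw [gw]; exact mem_erase.2 ⟨hew, heg⟩
  have eR : rm (!s) e (rm s w p) = rm s w (rm (!s) e p) := rm_comm _ _ p
  obtain ⟨R, hR⟩ : ∃ R, R = rm s w (rm (!s) e p) := ⟨_, rfl⟩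
  have hR' : R = rm (!s) e (rm s w p) := by rw [hR, eR]
  have gR : gs R = ((gs p).erase e).erase w := by rw [hR, gs_rm, ge]
  have wfR : R.1 ⊆ R.2 := by rw [hR]; exact wf_rm wfe hwe
  rw [← hR'] at ce
  rw [← hR]
  obtain ⟨Y, hYd⟩ : ∃ Y, Y = (gs p).erase w \ X := ⟨_, rfl⟩
  rw [← hYd] at hY ⊢
  have memX : ∀ y ∈ X, y ≠ w ∧ y ∈ gs p := fun y hy => mem_erase.1 (hXs hy)
  have memY : ∀ y, y ∈ Y ↔ (y ≠ w ∧ y ∈ gs p) ∧ y ∉ X := by
    intro y
    rw [hYd, mem_sdiff, mem_erase]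
  have memR : ∀ y, y ∈ gs R ↔ y ≠ w ∧ y ≠ e ∧ y ∈ gs p := by
    intro y
    rw [gR, mem_erase, mem_erase]
  have eY : e ∉ Y := fun h => ((memY e).1 h).2 he
  have hYn : Y.Nonempty := card_pos.1 (by have := TwoB_card hY; omega)
  have hXn : (X.erase e).Nonempty := by
    refine card_pos.1 ?_
    have h1 := TwoB_card hX
    have h2 := card_erase_of_mem he
    omega
  have hYR : Y ⊆ gs R := fun y hy => by
    have h1 := (memY y).1 hy
    exact (memR y).2 ⟨h1.1.1, fun h => eY (h ▸ hy), h1.1.2⟩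
  have hXR : X.erase e ⊆ gs R := fun y hy => by
    have h1 := mem_erase.1 hy
    exact (memR y).2 ⟨(memX y h1.2).1, h1.1, (memX y h1.2).2⟩
  have cX : gs R \ X.erase e = Y := by
    ext y
    rw [mem_sdiff, memR, memY, mem_erase]
    constructor
    · rintro ⟨⟨h1, h2, h3⟩, h4⟩
      exact ⟨⟨h1, h3⟩, fun h => h4 ⟨h2, h⟩⟩
    · rintro ⟨⟨h1, h3⟩, h4⟩
      exact ⟨⟨h1, fun h => h4 (h ▸ he), h3⟩, fun h => h4 h.2⟩
  have cY : gs R \ Y = X.erase e := by
    rw [← cX, Finset.sdiff_sdiff_eq_self hXR]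
  have lwY : lam r (rm s w p) Y ≤ 1 := by
    have h1 := lam_compl r wfw (A := X) (by rw [gw]; exact hXs)
    rw [gw, ← hYd] at h1
    rw [h1]
    exact lX
  have hYwe : Y ⊆ (gs (rm s w p)).erase e := by
    intro y hy
    rw [gw]
    have h1 := (memY y).1 hy
    exact mem_erase.2 ⟨fun h => eY (h ▸ hy), mem_erase.2 h1.1⟩
  have lRY1 : 1 ≤ lam r R Y := ce Y hYR hYn (by rw [cY]; exact hXn)
  have lRY2 : lam r R Y ≤ lam r (rm s w p) Y := by
    rw [hR']
    exact lam_rm_le hr hee hYwe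
  have lRX : lam r R (X.erase e) ≤ 1 := by
    have h1 := lam_compl r wfR hXR
    rw [cX] at h1
    linarith
  -- (1)
  have one1 : ∀ A₁ ⊆ Y, lam r (rm s w p) A₁ ≤ lam r R A₁ := by
    intro A₁ h1
    have h2 := lam_L3 (p := rm s w p) hr (t := !s) hee h1 hYwe
    rw [← hR'] at h2
    linarith
  have one2 : ∀ A₁ ⊆ Y, lam r p A₁ ≤ lam r (rm (!s) e p) A₁ := by
    intro A₁ h1
    have h2 : A₁ ⊆ ((gs p).erase w).erase e := by
      intro y hy
      have h3 := hYwe (h1 hy)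
      rw [gw] at h3
      exact h3
    have h3 := lam_L4' hr hp (s := s) hw heg hew h2
    rw [← hR'] at h3
    have h4 := one1 A₁ h1
    linarith
  -- a bad separation with `w` in the second side
  have hex : ∃ A ⊆ gs (rm (!s) e p), w ∉ A ∧ lam r (rm (!s) e p) A ≤ 1 ∧
      Hv r (rm (!s) e p) A ∧ Hv r (rm (!s) e p) (gs (rm (!s) e p) \ A) := by
    unfold Ok at hno
    push Not at hno
    obtain ⟨A, hA, lA, hA1, hA2⟩ := hno
    by_cases hwA : w ∈ A
    · refine ⟨gs (rm (!s) e p) \ A, sdiff_subset, fun h => (mem_sdiff.1 h).2 hwA, ?_, hA2, ?_⟩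
      · rw [lam_compl r wfe hA]
        exact lA
      · rw [Finset.sdiff_sdiff_eq_self hA]
        exact hA1
    · exact ⟨A, hA, hwA, lA, hA1, hA2⟩
  obtain ⟨A, hA, hwA, lA, hA1, hA2⟩ := hex
  obtain ⟨B, hBd⟩ : ∃ B, B = gs (rm (!s) e p) \ A := ⟨_, rfl⟩
  rw [← hBd] at hA2
  have memB : ∀ y, y ∈ B ↔ (y ≠ e ∧ y ∈ gs p) ∧ y ∉ A := by
    intro y
    rw [hBd, mem_sdiff, ge, mem_erase]
  have memA : ∀ y ∈ A, y ≠ w ∧ y ≠ e ∧ y ∈ gs p := by
    intro y hy
    have h1 := hA hy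
    rw [ge, mem_erase] at h1
    exact ⟨fun h => hwA (h ▸ hy), h1.1, h1.2⟩
  have hAR : A ⊆ gs R := fun y hy => (memR y).2 (memA y hy)
  have hwB : w ∈ B := (memB w).2 ⟨⟨hew.symm, hw⟩, hwA⟩
  have cA : gs R \ A = B.erase w := by
    ext y
    rw [mem_sdiff, memR, mem_erase, memB]
    tauto
  have hBn : (B.erase w).Nonempty := by
    refine card_pos.1 ?_
    have h1 := TwoB_card hA2
    have h2 := card_erase_of_mem hwB
    omega
  have hAn : A.Nonempty := card_pos.1 (by have := TwoB_card hA1; omega)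
  have hAwe : A ⊆ (gs (rm (!s) e p)).erase w := fun y hy =>
    mem_erase.2 ⟨(memA y hy).1, hA hy⟩
  have lRA1 : 1 ≤ lam r R A := ce A hAR hAn (by rw [cA]; exact hBn)
  have lRA2 : lam r R A ≤ lam r (rm (!s) e p) A := by
    rw [hR]
    exact lam_rm_le hr hwe hAwe
  -- `δ_w (A) ≤ 0`
  have two1 : ∀ A₁ ⊆ A, lam r (rm (!s) e p) A₁ ≤ lam r R A₁ := by
    intro A₁ h1
    have h2 := lam_L3 (p := rm (!s) e p) hr (t := s) hwe h1 hAwe
    rw [← hR] at h2
    linarith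
  -- minimality
  have hmin : ∀ A₁ ⊆ A, A₁ ⊆ X.erase e → lam r (rm (!s) e p) A₁ ≤ 1 →
      ¬ Hv r (rm (!s) e p) A₁ := by
    intro A₁ h1 h2 h3 h4
    refine hme (!s) A₁ ⟨?_, h3, h4, ?_⟩ ?_
    · intro y hy
      have h5 := memA y (h1 hy)
      exact mem_erase.2 h5.2
    · refine TwoB_mono hA2 fun y hy => ?_
      have h5 := (memB y).1 hy
      exact mem_sdiff.2 ⟨mem_erase.2 h5.1, fun h => h5.2 (h1 h)⟩
    · refine ⟨h2.trans (erase_subset e X), fun h => ?_⟩
      exact (mem_erase.1 (h2 (h he))).1 rfl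
  have hok : ∀ A₁ ⊆ A, A₁ ⊆ Y → lam r (rm (!s) e p) A₁ ≤ 1 →
      ¬ Hv r (rm (!s) e p) A₁ := by
    intro A₁ h1 h2 h3 h4
    refine ho A₁ (fun y hy => (memA y (h1 hy)).2.2) ((one2 A₁ h2).trans h3) ⟨TwoB_rm h4, ?_⟩
    refine TwoB_mono (TwoB_rm hA2) fun y hy => ?_
    have h5 := (memB y).1 hy
    exact mem_sdiff.2 ⟨h5.1.2, fun h => h5.2 (h1 h)⟩
  have hsplit : A ⊆ (A ∩ X.erase e) ∪ (A ∩ Y) := by
    intro y hy
    have h1 := memA y hy
    by_cases h2 : y ∈ X
    · exact mem_union_left _ (mem_inter.2 ⟨hy, mem_erase.2 ⟨h1.2.1, h2⟩⟩)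
    · exact mem_union_right _ (mem_inter.2 ⟨hy, (memY y).2 ⟨⟨h1.1, h1.2.2⟩, h2⟩⟩)
  have hAe : A ⊆ gs (rm (!s) e p) := hA
  -- (i) and (ii)
  have hAY : ¬ A ⊆ X.erase e := fun h => hmin A (Subset.refl A) h lA hA1
  have hAX : ¬ A ⊆ Y := fun h => hok A (Subset.refl A) h lA hA1
  by_cases hBX : ∃ b ∈ B.erase w, b ∈ X
  · exfalso
    obtain ⟨b, hb, hbX⟩ := hBX
    have hb1 := (memB b).1 (mem_of_mem_erase hb)
    have hbX' : b ∈ X.erase e := mem_erase.2 ⟨hb1.1.1, hbX⟩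
    by_cases hBY : ∃ c ∈ B.erase w, c ∈ Y
    · -- (a)
      obtain ⟨c, hc1, hcY⟩ := hBY
      have hc2 := (memB c).1 (mem_of_mem_erase hc1)
      have hcX : c ∉ X := ((memY c).1 hcY).2
      have lRA3 : lam r R A ≤ 1 := by linarith
      have u1 := lam_sub (p := R) hr A (X.erase e)
      have u2 : 1 ≤ lam r R (A ∪ X.erase e) := by
        refine ce _ (union_subset hAR hXR) (hAn.mono subset_union_left) ⟨c, ?_⟩
        refine mem_sdiff.2 ⟨hYR hcY, fun h => ?_⟩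
        rcases mem_union.1 h with h | h
        · exact hc2.2 h
        · exact hcX (mem_of_mem_erase h)
      have u3 := lam_sub (p := R) hr A Y
      have u4 : 1 ≤ lam r R (A ∪ Y) := by
        refine ce _ (union_subset hAR hYR) (hAn.mono subset_union_left) ⟨b, ?_⟩
        refine mem_sdiff.2 ⟨hXR hbX', fun h => ?_⟩
        rcases mem_union.1 h with h | h
        · exact hb1.2 h
        · exact ((memY b).1 h).2 hbX
      have v1 : lam r (rm (!s) e p) (A ∩ X.erase e) ≤ 1 := by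
        have := two1 (A ∩ X.erase e) inter_subset_left
        linarith
      have v2 : lam r (rm (!s) e p) (A ∩ Y) ≤ 1 := by
        have := two1 (A ∩ Y) inter_subset_left
        linarith
      rcases TwoB_split hr wfe (inter_subset_left.trans hAe) (inter_subset_left.trans hAe) v1 v2
        hsplit hA1 with h | h
      · exact hmin _ inter_subset_left inter_subset_right v1 h
      · exact hok _ inter_subset_left inter_subset_right v2 h
    · -- (b)
      have hYA : Y ⊆ A := by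
        intro y hy
        by_contra h
        have h1 := (memY y).1 hy
        exact hBY ⟨y, mem_erase.2 ⟨h1.1.1, (memB y).2 ⟨⟨fun h2 => eY (h2 ▸ hy), h1.1.2⟩, h⟩⟩, hy⟩
      have h1 := two1 Y hYA
      have h2 := one2 Y (Subset.refl Y)
      refine ho Y (fun y hy => ((memY y).1 hy).1.2) (by linarith) ⟨TwoB_rm hY, ?_⟩
      refine TwoB_mono (TwoB_rm hX) fun y hy => ?_
      exact mem_sdiff.2 ⟨(memX y hy).2, fun h => ((memY y).1 h).2 hy⟩
  · -- (c)
    have hZY : B.erase w ⊆ Y := by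
      intro y hy
      have h1 := (memB y).1 (mem_of_mem_erase hy)
      exact (memY y).2 ⟨⟨(mem_erase.1 hy).1, h1.1.2⟩, fun h => hBX ⟨y, hy, h⟩⟩
    have hXA : X.erase e ⊆ A := by
      intro y hy
      by_contra h
      have h1 := mem_erase.1 hy
      have h2 := memX y h1.2
      exact hBX ⟨y, mem_erase.2 ⟨h2.1, (memB y).2 ⟨⟨h1.1, h2.2⟩, h⟩⟩, h1.2⟩
    have hBi : insert w (B.erase w) = B := insert_erase hwB
    have hAeq : ((gs p).erase w \ B.erase w).erase e = A := by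
      ext y
      rw [mem_erase, mem_sdiff, mem_erase, mem_erase, memB]
      constructor
      · rintro ⟨h1, ⟨h2, h3⟩, h4⟩
        by_contra h
        exact h4 ⟨h2, ⟨h1, h3⟩, h⟩
      · intro hy
        have h1 := memA y hy
        exact ⟨h1.2.1, ⟨h1.1, h1.2.2⟩, fun h => h.2.2 hy⟩
    have lB : lam r (rm (!s) e p) B ≤ 1 := by
      rw [hBd, lam_compl r wfe hA]
      exact lA
    have lRZ : lam r R (B.erase w) = lam r R A := by
      rw [← cA, lam_compl r wfR hAR]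
    have lX' : lam r (rm (!s) e p) (X.erase e) ≤ 1 := by
      have := two1 (X.erase e) hXA
      linarith
    refine ⟨B.erase w, hZY, hBn, ?_, ?_, ?_, ?_, ?_, ?_, lX', ?_, ?_⟩
    · intro h
      refine hAY fun y hy => ?_
      have h1 := memA y hy
      by_contra h2
      have h3 : y ∉ X := fun h4 => h2 (mem_erase.2 ⟨h1.2.1, h4⟩)
      have h4 : y ∈ Y \ B.erase w := mem_sdiff.2 ⟨(memY y).2 ⟨⟨h1.1, h1.2.2⟩, h3⟩,
        fun h5 => ((memB y).1 (mem_of_mem_erase h5)).2 hy⟩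
      rw [h] at h4
      exact notMem_empty _ h4
    · rw [hBi]
      exact lB
    · rw [hBi]
      exact hA2
    · rw [hAeq]
      exact hA1
    · have h1 := one1 _ hZY
      linarith
    · by_contra h
      have h1 : lam r p (B.erase w) ≤ 1 := by omega
      have hZe : B.erase w ⊆ (gs p).erase e := fun y hy =>
        mem_erase.2 ((memB y).1 (mem_of_mem_erase hy)).1
      have h2 : lam r (rm (!s) e p) (B.erase w) ≤ 1 := (lam_rm_le hr heg hZe).trans h1
      have h3 : Hv r (rm (!s) e p) (B.erase w) := by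
        obtain ⟨N, hN, hc⟩ := hA2
        refine ⟨N, hN, ?_⟩
        have h4 := F1 hr wfe (by rw [ge]; exact hZe) h2 hN
        have h5 : N ∩ B ⊆ insert w (N ∩ B.erase w) := by
          intro y hy
          rw [mem_inter] at hy
          by_cases h6 : y = w
          · exact mem_insert.2 (Or.inl h6)
          · exact mem_insert.2 (Or.inr (mem_inter.2 ⟨hy.1, mem_erase.2 ⟨h6, hy.2⟩⟩))
        have h6 := (card_le_card h5).trans (card_insert_le _ _)
        omega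
      refine ho (B.erase w) (hZe.trans (erase_subset _ _)) h1 ⟨TwoB_rm h3, ?_⟩
      refine TwoB_mono (TwoB_rm hA1) fun y hy => ?_
      exact mem_sdiff.2 ⟨(memA y hy).2.2,
        fun h5 => ((memB y).1 (mem_of_mem_erase h5)).2 hy⟩
    · exact hmin _ hXA (Subset.refl _) lX'
    · intro A₁ h1
      rw [hAeq] at h1
      refine le_antisymm (two1 A₁ h1) ?_
      rw [hR]
      exact lam_rm_le hr hwe (h1.trans hAwe)

/-- LEMMA 2''(b), first part, for a minimal side `X`. -/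
theorem two_opp (hr : Rk r) (hp : p.1 ⊆ p.2) {w e : E} {s : Bool} {X : Finset E}
    (hw : w ∈ gs p) (hc : Cn r p) (ho : Ok r p) (hn : Nbs r p w s X) (hm : Mnl r p X)
    (he : e ∈ X) (ce : Cn r (rm (!s) e (rm s w p))) (hno : ¬ Ok r (rm (!s) e p)) :
    ∃ Z ⊆ (gs p).erase w \ X, Z.Nonempty ∧ ((gs p).erase w \ X) \ Z ≠ ∅ ∧
      lam r (rm (!s) e p) (insert w Z) ≤ 1 ∧ Hv r (rm (!s) e p) (insert w Z) ∧
      Hv r (rm (!s) e p) (((gs p).erase w \ Z).erase e) ∧
      lam r (rm s w p) Z ≤ 1 ∧ 2 ≤ lam r p Z ∧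
      lam r (rm (!s) e p) (X.erase e) ≤ 1 ∧ ¬ Hv r (rm (!s) e p) (X.erase e) ∧
      (∀ A ⊆ ((gs p).erase w \ Z).erase e, lam r (rm (!s) e p) A = lam r (rm s w (rm (!s) e p)) A) :=
  two_opp_w hr hp hw hc ho hn (hm.at (mem_of_mem_erase (hn.1 he))) he ce hno

end QUB
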