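import Pool.Agent.QUB.TwoB
import Pool.Agent.QUB.Dual
import Pool.Agent.QUB.Move

/-! LEMMA 2'', opposite type: uniqueness of the exception.

PLAN for `two_unique_del`. `C = p.1`, `G = p.2`, all ranks relative to `C`; write `Q = p`. Suppose both fail; `two_opp` (with `s = true`)
gives `Z` for `e` and `Z'` for `a`. `Y = (gs p).erase w \ X`, `A = ((gs p).erase w \ Z).erase e`, `A' = ((gs p).erase w \ Z').erase a`.
(5) `Z ∩ Z' ≠ ∅`: otherwise `Z ⊆ A'`, so `δ_w^{Q_a}(Z) = 0` (last claim of `two_opp`), so `lam Q Z ≤ lam Q_w Z ≤ 1` by (L4'), against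
`2 ≤ lam p Z`. (6) `U = Z ∪ Z'`: `lam Q_w U ≤ 1` by `lam_sub` and connectivity of `Q_w`.
(7) in ranks: `w ∈ cl(Z ∪ e)`, `w ∈ cl(Z' ∪ a)` (last claims, `w` is no coloop of `p`), `w ∉ cl(Y)` (otherwise `lam Q X ≤ 1`, against `ho`), so `a ∈ cl(Z' ∪ w)`; hence `U ∪ e` spans `w` and `a`.
`e ∉ cl(Y)` (since `lam Q_{w,e} Y = 1`), and in `Q_{w,e} = Q \ w / e`: `a ∈ cl(U)`, so `lam Q_{w,e} (U ∪ a) ≤ lam Q_{w,e} U ≤ 1`; with
`lam Q_{w,e} (X - e) ≤ 1` and `1 ≤ lam Q_{w,e} {a}` (connected) submodularity gives `lam Q_{w,e} (U ∪ (X - e)) ≤ 1`, that is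
`lam Q_{w,e} C₀ ≤ 1` for `C₀ = Y \ U`, and `lam Q_w C₀ ≤ 1` (`δ_e^{Q_w}(Y) = 0`), and `lam Q C₀ ≤ 1` (`δ_w^{Q_e}(C₀) = 0` since `C₀ ⊆ A`, (L4')).
So `C₀` is not heavy in `Q` (`ho`; the complement contains `X`). (8) `C₁ = Z' \ Z` and `C₂ = Z \ Z'`: by `lam_pos` and connectivity, if both are
nonempty, `lam Q_w ≤ 1` for both; `C₁ ⊆ A` gives `lam Q C₁ ≤ 1`, not heavy in `Q`; likewise `C₂`. If one is empty, name `e`, `a` so that
`C₁ = ∅`. (9) `A = (X - e) ∪ C₁ ∪ C₀` is heavy in `Q_e` by `N`: `|N ∩ A| ≥ 3`. By (F1) in `Q_e` (`lam Q_e ≤ lam Q`) `N` meets each of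
`X - e`, `C₁`, `C₀` in at most one element (none of them is heavy in `Q_e`), so exactly one in each, so `C₁ ≠ ∅` and
`lam Q_e ((X - e) ∪ C₀) ≤ 1`: it is the complement of `U ∪ w` in `Q_e`, `w ∈ cl(U)` in `Q_e`, so it is `lam Q_{w,e} ((X - e) ∪ C₀)`
`= lam Q_{w,e} U ≤ lam Q_w U ≤ 1` (`δ_w^{Q_e}(A) = 0` and `(X - e) ∪ C₀ ⊆ A`). But `N` meets it in exactly two elements: contradiction to (F1).
`two_unique`: `s = true` is `two_unique_del`; `s = false`: apply it to `rd r`, `dp p` (module Dual).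
-/

namespace QUB

open Finset

variable {E : Type*} [DecidableEq E] {r : Finset E → ℤ} {p : Mn E}

private theorem tcs1 {G C T : Finset E} {w b : E} (hC : C ⊆ G) (hT : T ⊆ G) (hw : w ∈ G)
    (hb : b ∈ G) : G \ (((G \ C).erase w \ T).erase b) = insert w (insert b (C ∪ T)) := by
  ext y
  have h1 : y ∈ C → y ∈ G := fun h => hC h
  have h2 : y ∈ T → y ∈ G := fun h => hT h
  have h3 : y = w → y ∈ G := by rintro rfl; exact hw
  have h4 : y = b → y ∈ G := by rintro rfl; exact hb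
  clear hC hT hw hb
  simp only [mem_sdiff, mem_erase, mem_insert, mem_union]
  tauto

private theorem tcs2 {G C T : Finset E} {w b : E} (hC : C ⊆ G.erase w) (hT : T ⊆ G.erase w)
    (hb : b ∈ G.erase w) :
    G.erase w \ (((G \ C).erase w \ T).erase b) = insert b (C ∪ T) := by
  ext y
  have h1 : y ∈ C → y ∈ G.erase w := fun h => hC h
  have h2 : y ∈ T → y ∈ G.erase w := fun h => hT h
  have h4 : y = b → y ∈ G.erase w := by rintro rfl; exact hb
  clear hC hT hb
  simp only [mem_sdiff, mem_erase, mem_insert, mem_union] at *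
  tauto

private theorem tcs3 {G C X : Finset E} {w : E} (hC : C ⊆ G) (hw : w ∈ G)
    (hX : X ⊆ (G \ C).erase w) : G \ X = insert w (C ∪ ((G \ C).erase w \ X)) := by
  ext y
  have h1 : y ∈ C → y ∈ G := fun h => hC h
  have h2 : y ∈ X → y ∈ (G \ C).erase w := fun h => hX h
  have h3 : y = w → y ∈ G := by rintro rfl; exact hw
  clear hC hX hw
  simp only [mem_sdiff, mem_erase, mem_insert, mem_union] at *
  tauto

private theorem tcs4 {G C X : Finset E} {w : E} (hC : C ⊆ G.erase w)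
    (hX : X ⊆ (G \ C).erase w) : G.erase w \ X = C ∪ ((G \ C).erase w \ X) := by
  ext y
  have h1 : y ∈ C → y ∈ G.erase w := fun h => hC h
  have h2 : y ∈ X → y ∈ (G \ C).erase w := fun h => hX h
  clear hC hX
  simp only [mem_sdiff, mem_erase, mem_union] at *
  tauto

private theorem tcs5 {X U : Finset E} {a e : E} (ha : a ∈ X) (hea : e ≠ a)
    (hU : ∀ y ∈ U, y ∉ X) : insert a U ∩ X.erase e = {a} := by
  ext y
  have h1 : y ∈ U → y ∉ X := hU y
  have h2 : y = a → y ∈ X ∧ y ≠ e := by rintro rfl; exact ⟨ha, hea.symm⟩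
  clear ha hea hU
  simp only [mem_inter, mem_insert, mem_erase, mem_singleton]
  tauto

private theorem tcs6 {X U : Finset E} {a e : E} (ha : a ∈ X) (hea : e ≠ a) :
    insert a U ∪ X.erase e = U ∪ X.erase e := by
  ext y
  have h2 : y = a → y ∈ X ∧ y ≠ e := by rintro rfl; exact ⟨ha, hea.symm⟩
  clear ha hea
  simp only [mem_insert, mem_union, mem_erase]
  tauto

private theorem tcs7 {S X U : Finset E} {e : E} (he : e ∈ X) :
    S.erase e \ (U ∪ X.erase e) = (S \ X) \ U := by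
  ext y
  have hy4 : y = e → y ∈ X := by rintro rfl; exact he
  clear he
  simp only [mem_sdiff, mem_union, mem_erase]
  tauto

private theorem tcs8 {S X Z Z' N : Finset E} {e : E} (he : e ∈ X) (hX : X ⊆ S)
    (hZ : ∀ y ∈ Z, y ∉ X) (hZ' : Z' ⊆ S \ X) :
    N ∩ (S \ Z).erase e = (N ∩ (X.erase e ∪ (S \ X) \ (Z ∪ Z'))) ∪ (N ∩ (Z' \ Z)) := by
  ext y
  have hy1 : y ∈ X → y ∈ S := fun h => hX h
  have hy2 : y ∈ Z → y ∉ X := hZ y
  have hy3 : y ∈ Z' → y ∈ S ∧ y ∉ X := fun h => mem_sdiff.1 (hZ' h)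
  have hy4 : y = e → y ∈ X := by rintro rfl; exact he
  clear he hX hZ hZ'
  simp only [mem_inter, mem_union, mem_sdiff, mem_erase]
  by_cases h1 : y ∈ N <;> by_cases h2 : y ∈ X <;> by_cases h3 : y ∈ Z <;>
    by_cases h4 : y ∈ Z' <;> by_cases h5 : y = e <;> simp_all

private theorem tcs9 {S X U : Finset E} {e : E} (he : e ∈ X) (hX : X ⊆ S)
    (hU : ∀ y ∈ U, y ∉ X) : S.erase e \ U = X.erase e ∪ (S \ X) \ U := by
  ext y
  have hy1 : y ∈ X → y ∈ S := fun h => hX h
  have hy2 : y ∈ U → y ∉ X := hU y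
  have hy4 : y = e → y ∈ X := by rintro rfl; exact he
  clear he hX hU
  simp only [mem_union, mem_sdiff, mem_erase]
  tauto

/-- The numeric part: from the data of `two_opp` for `e` and `a`. -/
private theorem tc_core (hr : Rk r) (hp : p.1 ⊆ p.2) {w e a : E} {X Z Z' : Finset E}
    (hw : w ∈ gs p) (hc : Cn r p) (ho : Ok r p) (hn : Nbs r p w true X)
    (he : e ∈ X) (ha : a ∈ X) (hea : e ≠ a) (ce : Cn r (rm false e (rm true w p)))
    (z1 : Z ⊆ (gs p).erase w \ X) (z3 : lam r (rm true w p) Z ≤ 1) (z4 : 2 ≤ lam r p Z)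
    (z5 : lam r (rm false e p) (X.erase e) ≤ 1) (z6 : ¬ Hv r (rm false e p) (X.erase e))
    (z7 : ∀ A ⊆ ((gs p).erase w \ Z).erase e,
      lam r (rm false e p) A = lam r (rm true w (rm false e p)) A)
    (z8 : Hv r (rm false e p) (((gs p).erase w \ Z).erase e))
    (y1 : Z' ⊆ (gs p).erase w \ X) (y3 : lam r (rm true w p) Z' ≤ 1)
    (y7 : ∀ A ⊆ ((gs p).erase w \ Z').erase a,
      lam r (rm false a p) A = lam r (rm true w (rm false a p)) A)
    (h12 : Z' \ Z = ∅ ∨ (Z \ Z').Nonempty) : False := by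
  obtain ⟨hX, hX1, hX2, hX3⟩ := hn
  have hXg : ∀ y ∈ X, y ≠ w ∧ y ∈ p.2 ∧ y ∉ p.1 := fun y hy => by
    have h := mem_erase.1 (hX hy)
    exact ⟨h.1, mem_sdiff.1 h.2⟩
  have hYg : ∀ y ∈ (gs p).erase w \ X, y ≠ w ∧ y ∈ p.2 ∧ y ∉ p.1 ∧ y ∉ X := fun y hy => by
    have h0 := mem_sdiff.1 hy
    have h := mem_erase.1 h0.1
    have h2 := mem_sdiff.1 h.2
    exact ⟨h.1, h2.1, h2.2, h0.2⟩
  have hZg := fun y (hy : y ∈ Z) => hYg y (z1 hy)
  have hZg' := fun y (hy : y ∈ Z') => hYg y (y1 hy)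
  have hwg := mem_sdiff.1 hw
  have heg := hXg e he
  have hag := hXg a ha
  have heS : e ∈ gs p := mem_sdiff.2 heg.2
  have haS : a ∈ gs p := mem_sdiff.2 hag.2
  have heW : e ∈ gs (rm true w p) := by rw [gs_rm]; exact mem_erase.2 ⟨heg.1, heS⟩
  have wfw : (rm true w p).1 ⊆ (rm true w p).2 := wf_rm hp hw
  have wfe : (rm false e p).1 ⊆ (rm false e p).2 := wf_rm hp heS
  have wfwe : (rm false e (rm true w p)).1 ⊆ (rm false e (rm true w p)).2 := wf_rm wfw heW
  have gw : gs (rm true w p) = (gs p).erase w := gs_rm _ _ _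
  have gwe : gs (rm false e (rm true w p)) = ((gs p).erase w).erase e := by rw [gs_rm, gs_rm]
  have hcomm : rm true w (rm false e p) = rm false e (rm true w p) := rm_comm _ _ _
  have hcomma : rm true w (rm false a p) = rm false a (rm true w p) := rm_comm _ _ _
  -- subsets of `Y`
  have hsub : ∀ B, B ⊆ (gs p).erase w \ X → B ⊆ ((gs p).erase w).erase e := by
    intro B hB y hy
    have h := mem_sdiff.1 (hB hy)
    refine mem_erase.2 ⟨?_, h.1⟩
    rintro rfl
    exact h.2 he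
  have hsuba : ∀ B, B ⊆ (gs p).erase w \ X → B ⊆ ((gs p).erase w).erase a := by
    intro B hB y hy
    have h := mem_sdiff.1 (hB hy)
    refine mem_erase.2 ⟨?_, h.1⟩
    rintro rfl
    exact h.2 ha
  have haWE : a ∈ ((gs p).erase w).erase e :=
    mem_erase.2 ⟨hea.symm, mem_erase.2 ⟨hag.1, haS⟩⟩
  have hlow : ∀ B, B ⊆ (gs p).erase w \ X → B.Nonempty →
      1 ≤ lam r (rm false e (rm true w p)) B := by
    intro B hB hBn
    refine ce B ?_ hBn ⟨a, ?_⟩
    · rw [gwe]; exact hsub B hB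
    · rw [gwe]
      exact mem_sdiff.2 ⟨haWE, fun h => (hYg a (hB h)).2.2.2 ha⟩
  have hdec : ∀ B, B ⊆ (gs p).erase w \ X →
      lam r (rm false e (rm true w p)) B ≤ lam r (rm true w p) B := by
    intro B hB
    refine lam_rm_le hr heW ?_
    rw [gw]; exact hsub B hB
  have hLe : ∀ B, B ⊆ (gs p).erase w \ X → B ⊆ ((gs p).erase w \ Z).erase e →
      lam r p B ≤ lam r (rm true w p) B := by
    intro B hB hB2
    have h := lam_L4' (s := true) hr hp hw heS heg.1 (hsub B hB)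
    have h2 := z7 B hB2
    rw [hcomm] at h2
    have h3 : lam r p B + lam r (rm false e (rm true w p)) B ≤
      lam r (rm true w p) B + lam r (rm false e p) B := h
    linarith
  have hLa : ∀ B, B ⊆ (gs p).erase w \ X → B ⊆ ((gs p).erase w \ Z').erase a →
      lam r p B ≤ lam r (rm true w p) B := by
    intro B hB hB2
    have h := lam_L4' (s := true) hr hp hw haS hag.1 (hsuba B hB)
    have h2 := y7 B hB2
    rw [hcomma] at h2
    have h3 : lam r p B + lam r (rm false a (rm true w p)) B ≤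
      lam r (rm true w p) B + lam r (rm false a p) B := h
    linarith
  -- (5)
  have h5 : (Z ∩ Z').Nonempty := by
    by_contra hne
    have h1 : Z ⊆ ((gs p).erase w \ Z').erase a := by
      intro y hy
      have h2 := hZg y hy
      refine mem_erase.2 ⟨?_, mem_sdiff.2 ⟨(mem_sdiff.1 (z1 hy)).1, fun h => hne ⟨y, mem_inter.2 ⟨hy, h⟩⟩⟩⟩
      rintro rfl
      exact h2.2.2.2 ha
    have h2 := hLa Z z1 h1
    linarith
  -- (6)
  have hU0 : Z ∪ Z' ⊆ (gs p).erase w \ X := union_subset z1 y1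
  have h6 : lam r (rm true w p) (Z ∪ Z') ≤ 1 := by
    have h1 := lam_sub (p := rm true w p) hr Z Z'
    have hI : Z ∩ Z' ⊆ (gs p).erase w \ X := inter_subset_left.trans z1
    have h2 := (hlow _ hI h5).trans (hdec _ hI)
    linarith
  have hCw : p.1 ⊆ p.2.erase w := fun y hy => mem_erase.2 ⟨fun h => hwg.2 (h ▸ hy), hp hy⟩
  -- ranks
  have hrG : r (p.2.erase w) = r p.2 := by
    have h1 : 1 ≤ lam r p {w} := hc.single hw ⟨e, mem_erase.2 ⟨heg.1, heS⟩⟩
    have h2 := hr.unit p.1 w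
    have h3 := hr.mono _ _ (erase_subset w p.2)
    have e1 : p.1 ∪ {w} = insert w p.1 := by
      rw [union_comm]
      rfl
    unfold lam at h1
    rw [e1, sdiff_singleton_eq_erase] at h1
    linarith
  have hcl : ∀ (b : E) (T : Finset E), b ∈ X → T ⊆ (gs p).erase w \ X →
      (∀ A ⊆ ((gs p).erase w \ T).erase b,
        lam r (rm false b p) A = lam r (rm true w (rm false b p)) A) →
      r (insert w (insert b (p.1 ∪ T))) = r (insert b (p.1 ∪ T)) := by
    intro b T hb hT h7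
    have h1 := h7 _ (Subset.refl _)
    have hbg := hXg b hb
    have e1 : p.2 \ (((gs p).erase w \ T).erase b) = insert w (insert b (p.1 ∪ T)) :=
      tcs1 hp (fun y hy => (hYg y (hT hy)).2.1) hwg.1 hbg.2.1
    have e2 : p.2.erase w \ (((gs p).erase w \ T).erase b) = insert b (p.1 ∪ T) :=
      tcs2 hCw (fun y hy => mem_erase.2 ⟨(hYg y (hT hy)).1, (hYg y (hT hy)).2.1⟩)
        (mem_erase.2 ⟨hbg.1, hbg.2.1⟩)
    have h2 : r (insert b p.1 ∪ ((gs p).erase w \ T).erase b) +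
        r (p.2 \ (((gs p).erase w \ T).erase b)) - r p.2 - r (insert b p.1) =
        r (insert b p.1 ∪ ((gs p).erase w \ T).erase b) +
        r (p.2.erase w \ (((gs p).erase w \ T).erase b)) - r (p.2.erase w) -
          r (insert b p.1) := h1
    rw [e1, e2, hrG] at h2
    linarith
  have hclZ := hcl e Z he z1 z7
  have hclZ' := hcl a Z' ha y1 y7
  have hwY : r (p.1 ∪ ((gs p).erase w \ X)) + 1 ≤ r (insert w (p.1 ∪ ((gs p).erase w \ X))) := by
    by_contra hlt
    have h1 : r (insert w (p.1 ∪ ((gs p).erase w \ X))) ≤ r (p.1 ∪ ((gs p).erase w \ X)) := by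
      linarith [not_le.1 hlt]
    have hXs : X ⊆ gs p := hX.trans (erase_subset _ _)
    have e1 : p.2 \ X = insert w (p.1 ∪ ((gs p).erase w \ X)) := tcs3 hp hwg.1 hX
    have e2 : p.2.erase w \ X = p.1 ∪ ((gs p).erase w \ X) := tcs4 hCw hX
    have h2 : lam r p X ≤ 1 := by
      have h3 : r (p.1 ∪ X) + r (p.2.erase w \ X) - r (p.2.erase w) - r p.1 ≤ 1 := hX1
      rw [e2, hrG] at h3
      unfold lam
      rw [e1]
      linarith
    refine ho X hXs h2 ⟨hX2.rm, ?_⟩
    refine (Hv.rm hX3).mono ?_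
    intro y hy
    have h3 := mem_sdiff.1 hy
    exact mem_sdiff.2 ⟨(mem_erase.1 h3.1).2, h3.2⟩
  have hwZ' : r (p.1 ∪ Z') + 1 ≤ r (insert w (p.1 ∪ Z')) := by
    have h1 := marg hr (union_subset_union_right (s := p.1) y1) w
    linarith
  have h7a : r (insert a (insert w (p.1 ∪ Z'))) ≤ r (insert w (p.1 ∪ Z')) := by
    have h1 := hr.unit (p.1 ∪ Z') a
    rw [Finset.insert_comm, hclZ']
    linarith
  have h7w : r (insert w (insert e (p.1 ∪ (Z ∪ Z')))) ≤ r (insert e (p.1 ∪ (Z ∪ Z'))) := by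
    have hs : insert e (p.1 ∪ Z) ⊆ insert e (p.1 ∪ (Z ∪ Z')) :=
      insert_subset_insert _ (union_subset_union_right subset_union_left)
    have h1 := marg hr hs w
    linarith
  have h7b : r (insert a (insert w (insert e (p.1 ∪ (Z ∪ Z'))))) ≤
      r (insert w (insert e (p.1 ∪ (Z ∪ Z')))) := by
    have hs : insert w (p.1 ∪ Z') ⊆ insert w (insert e (p.1 ∪ (Z ∪ Z'))) :=
      insert_subset_insert _ ((union_subset_union_right subset_union_right).trans
        (subset_insert _ _))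
    have h1 := marg hr hs a
    linarith
  have h7c : r (insert a (insert e (p.1 ∪ (Z ∪ Z')))) ≤ r (insert e (p.1 ∪ (Z ∪ Z'))) := by
    have hs : insert a (insert e (p.1 ∪ (Z ∪ Z'))) ⊆
        insert a (insert w (insert e (p.1 ∪ (Z ∪ Z')))) :=
      insert_subset_insert _ (subset_insert _ _)
    have h1 := hr.mono _ _ hs
    linarith
  have h7d : lam r (rm false e (rm true w p)) (insert a (Z ∪ Z')) ≤
      lam r (rm false e (rm true w p)) (Z ∪ Z') := by
    have e1 : insert e p.1 ∪ insert a (Z ∪ Z') = insert a (insert e (p.1 ∪ (Z ∪ Z'))) := by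
      rw [union_insert, insert_union]
    have e2 : insert e p.1 ∪ (Z ∪ Z') = insert e (p.1 ∪ (Z ∪ Z')) := insert_union _ _ _
    have h1 := hr.mono (p.2.erase w \ insert a (Z ∪ Z')) (p.2.erase w \ (Z ∪ Z'))
      (sdiff_subset_sdiff (Subset.refl _) (subset_insert _ _))
    show r (insert e p.1 ∪ insert a (Z ∪ Z')) + r (p.2.erase w \ insert a (Z ∪ Z')) -
      r (p.2.erase w) - r (insert e p.1) ≤ r (insert e p.1 ∪ (Z ∪ Z')) +
      r (p.2.erase w \ (Z ∪ Z')) - r (p.2.erase w) - r (insert e p.1)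
    rw [e1, e2]
    linarith
  have hUwe : lam r (rm false e (rm true w p)) (Z ∪ Z') ≤ 1 := (hdec _ hU0).trans h6
  have hXe : lam r (rm false e (rm true w p)) (X.erase e) ≤ 1 := by
    have h1 : X.erase e ⊆ (gs (rm true w p)).erase e := by
      rw [gw]
      exact erase_subset_erase _ hX
    have h2 := lam_rm_le' hr wfw (t := false) heW h1
    rw [insert_erase he] at h2
    exact h2.trans hX1
  have hYne : ((gs p).erase w \ X).Nonempty := by
    obtain ⟨y, hy⟩ := h5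
    exact ⟨y, z1 (mem_inter.1 hy).1⟩
  have ha1 : 1 ≤ lam r (rm false e (rm true w p)) {a} := by
    obtain ⟨y, hy⟩ := hYne
    refine ce {a} ?_ (singleton_nonempty a) ⟨y, ?_⟩
    · rw [gwe]; exact singleton_subset_iff.2 haWE
    · rw [gwe]
      refine mem_sdiff.2 ⟨hsub _ (Subset.refl _) hy, ?_⟩
      rw [mem_singleton]
      rintro rfl
      exact (hYg y hy).2.2.2 ha
  have hCU : lam r (rm false e (rm true w p)) ((Z ∪ Z') ∪ X.erase e) ≤ 1 := by
    have h1 := lam_sub (p := rm false e (rm true w p)) hr (insert a (Z ∪ Z')) (X.erase e)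
    have e1 : insert a (Z ∪ Z') ∩ X.erase e = {a} :=
      tcs5 ha hea fun y hy => (hYg y (hU0 hy)).2.2.2
    have e2 : insert a (Z ∪ Z') ∪ X.erase e = (Z ∪ Z') ∪ X.erase e := tcs6 ha hea
    rw [e1, e2] at h1
    linarith
  have hC0s : ((gs p).erase w \ X) \ (Z ∪ Z') ⊆ (gs p).erase w \ X := sdiff_subset
  have hC0we : lam r (rm false e (rm true w p)) (((gs p).erase w \ X) \ (Z ∪ Z')) ≤ 1 := by
    have h1 : (Z ∪ Z') ∪ X.erase e ⊆ gs (rm false e (rm true w p)) := by
      rw [gwe]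
      exact union_subset (hsub _ hU0) (erase_subset_erase _ hX)
    have h2 := lam_compl r wfwe h1
    have e1 : gs (rm false e (rm true w p)) \ ((Z ∪ Z') ∪ X.erase e) =
        ((gs p).erase w \ X) \ (Z ∪ Z') := by
      rw [gwe]
      exact tcs7 he
    rw [e1] at h2
    rw [h2]
    exact hCU
  have hYw : lam r (rm true w p) ((gs p).erase w \ X) ≤ 1 := by
    have h1 : X ⊆ gs (rm true w p) := by rw [gw]; exact hX
    have h2 := lam_compl r wfw h1
    rw [gw] at h2
    rw [h2]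
    exact hX1
  have hC0w : lam r (rm true w p) (((gs p).erase w \ X) \ (Z ∪ Z')) ≤ 1 := by
    have h1 : (gs p).erase w \ X ⊆ (gs (rm true w p)).erase e := by
      rw [gw]; exact hsub _ (Subset.refl _)
    have h2 := lam_L3 hr (t := false) heW hC0s h1
    have h3 := hlow _ (Subset.refl _) hYne
    linarith
  have hC0A : ((gs p).erase w \ X) \ (Z ∪ Z') ⊆ ((gs p).erase w \ Z).erase e := by
    intro y hy
    have h1 := mem_sdiff.1 hy
    have h2 := mem_sdiff.1 h1.1
    refine mem_erase.2 ⟨?_, mem_sdiff.2 ⟨h2.1, fun h => h1.2 (mem_union_left _ h)⟩⟩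
    rintro rfl
    exact h2.2 he
  have hC0 : lam r p (((gs p).erase w \ X) \ (Z ∪ Z')) ≤ 1 := (hLe _ hC0s hC0A).trans hC0w
  -- subsets of `Y` of order two are not heavy
  have hnh : ∀ B, B ⊆ (gs p).erase w \ X → lam r p B ≤ 1 →
      lam r (rm false e p) B ≤ 1 ∧ ¬ Hv r (rm false e p) B := by
    intro B hB hB1
    have hBs : B ⊆ gs p := fun y hy => mem_sdiff.2 ⟨(hYg y (hB hy)).2.1, (hYg y (hB hy)).2.2.1⟩
    refine ⟨(lam_rm_le hr heS ?_).trans hB1, fun h => ho B hBs hB1 ⟨h.rm, ?_⟩⟩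
    · intro y hy
      refine mem_erase.2 ⟨?_, hBs hy⟩
      rintro rfl
      exact (hYg _ (hB hy)).2.2.2 he
    · refine (Hv.rm hX2).mono ?_
      intro y hy
      exact mem_sdiff.2 ⟨(mem_erase.1 (hX hy)).2, fun h => (hYg y (hB h)).2.2.2 hy⟩
  -- (8)
  have hC1s : Z' \ Z ⊆ (gs p).erase w \ X := sdiff_subset.trans y1
  have hC2s : Z \ Z' ⊆ (gs p).erase w \ X := sdiff_subset.trans z1
  have h8 : Z' \ Z = ∅ ∨ lam r p (Z' \ Z) ≤ 1 := by
    rcases h12 with h | h
    · exact Or.inl h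
    · rcases (Z' \ Z).eq_empty_or_nonempty with h1 | h1
      · exact Or.inl h1
      · right
        have hZw : Z ⊆ gs (rm true w p) := by rw [gw]; exact z1.trans sdiff_subset
        have hZw' : Z' ⊆ gs (rm true w p) := by rw [gw]; exact y1.trans sdiff_subset
        have h2 := lam_pos hr wfw hZw hZw'
        have h3 := (hlow _ hC2s h).trans (hdec _ hC2s)
        have h4 : Z' \ Z ⊆ ((gs p).erase w \ Z).erase e := by
          intro y hy
          have h1 := mem_sdiff.1 hy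
          have h2 := mem_sdiff.1 (y1 h1.1)
          refine mem_erase.2 ⟨?_, mem_sdiff.2 ⟨h2.1, h1.2⟩⟩
          rintro rfl
          exact h2.2 he
        have h5 := hLe _ hC1s h4
        linarith
  -- (9)
  obtain ⟨N, hN, hN3⟩ := z8
  have hNX : (N ∩ X.erase e).card ≤ 1 := by
    have h1 := F1 hr wfe (A := X.erase e) (by
      rw [gs_rm]
      exact erase_subset_erase _ (hX.trans (erase_subset _ _))) z5 hN
    by_contra h2
    exact z6 ⟨N, hN, by omega⟩
  have hBe : ∀ B, B ⊆ (gs p).erase w \ X → B ⊆ gs (rm false e p) := by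
    intro B hB y hy
    rw [gs_rm]
    refine mem_erase.2 ⟨?_, mem_sdiff.2 ⟨(hYg y (hB hy)).2.1, (hYg y (hB hy)).2.2.1⟩⟩
    rintro rfl
    exact (hYg _ (hB hy)).2.2.2 he
  have hNB : ∀ B, B ⊆ (gs p).erase w \ X → lam r p B ≤ 1 → (N ∩ B).card ≤ 1 := by
    intro B hB hB1
    obtain ⟨h1, h2⟩ := hnh B hB hB1
    have h3 := F1 hr wfe (hBe B hB) h1 hN
    by_contra h4
    exact h2 ⟨N, hN, by omega⟩
  have hN0 := hNB _ hC0s hC0
  have hN1 : (N ∩ (Z' \ Z)).card ≤ 1 := by
    rcases h8 with h | h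
    · rw [h, inter_empty, card_empty]
      exact Nat.zero_le _
    · exact hNB _ hC1s h
  have hcov : N ∩ ((gs p).erase w \ Z).erase e =
      (N ∩ (X.erase e ∪ ((gs p).erase w \ X) \ (Z ∪ Z'))) ∪ (N ∩ (Z' \ Z)) :=
    tcs8 he hX (fun y hy => (hZg y hy).2.2.2) y1
  have hN4 : 2 ≤ (N ∩ (X.erase e ∪ ((gs p).erase w \ X) \ (Z ∪ Z'))).card := by
    rw [hcov] at hN3
    have h1 := card_union_le (N ∩ (X.erase e ∪ ((gs p).erase w \ X) \ (Z ∪ Z'))) (N ∩ (Z' \ Z))
    omega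
  have hN5 : (N ∩ (X.erase e ∪ ((gs p).erase w \ X) \ (Z ∪ Z'))).card ≤ 2 := by
    rw [inter_union_distrib_left]
    have h1 := card_union_le (N ∩ X.erase e) (N ∩ (((gs p).erase w \ X) \ (Z ∪ Z')))
    omega
  have hlast : lam r (rm false e p) (X.erase e ∪ ((gs p).erase w \ X) \ (Z ∪ Z')) ≤ 1 := by
    have h1 : X.erase e ∪ ((gs p).erase w \ X) \ (Z ∪ Z') ⊆ ((gs p).erase w \ Z).erase e := by
      refine union_subset ?_ hC0A
      intro y hy
      have h2 := mem_erase.1 hy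
      exact mem_erase.2 ⟨h2.1, mem_sdiff.2 ⟨hX h2.2, fun h => (hZg y h).2.2.2 h2.2⟩⟩
    rw [z7 _ h1, hcomm]
    have h2 : Z ∪ Z' ⊆ gs (rm false e (rm true w p)) := by
      rw [gwe]; exact hsub _ hU0
    have h3 := lam_compl r wfwe h2
    have e1 : gs (rm false e (rm true w p)) \ (Z ∪ Z') =
        X.erase e ∪ ((gs p).erase w \ X) \ (Z ∪ Z') := by
      rw [gwe]
      exact tcs9 he hX fun y hy => (hYg y (hU0 hy)).2.2.2
    rw [e1] at h3
    rw [h3]
    exact hUwe
  have hF := F1 hr wfe (A := X.erase e ∪ ((gs p).erase w \ X) \ (Z ∪ Z')) (by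
    refine union_subset ?_ (hBe _ hC0s)
    rw [gs_rm]
    exact erase_subset_erase _ (hX.trans (erase_subset _ _))) hlast hN
  omega

/-- The case `w` deleted, `e` and `a` contracted, weak minimality. -/
theorem two_unique_del_w (hr : Rk r) (hp : p.1 ⊆ p.2) {w e a : E} {X : Finset E}
    (hw : w ∈ gs p) (hc : Cn r p) (ho : Ok r p) (hn : Nbs r p w true X) (hme : Mne r p e X)
    (hma : Mne r p a X)
    (he : e ∈ X) (ha : a ∈ X) (hea : e ≠ a) (ce : Cn r (rm false e (rm true w p)))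
    (ca : Cn r (rm false a (rm true w p))) : Ok r (rm false e p) ∨ Ok r (rm false a p) := by
  by_contra hcon
  rw [not_or] at hcon
  obtain ⟨h1, h2⟩ := hcon
  obtain ⟨Z, z1, -, -, -, -, z8, z3, z4, z5, z6, z7⟩ :=
    two_opp_w (s := true) hr hp hw hc ho hn hme he ce h1
  obtain ⟨Z', y1, -, -, -, -, y8, y3, y4, y5, y6, y7⟩ :=
    two_opp_w (s := true) hr hp hw hc ho hn hma ha ca h2
  rcases (Z \ Z').eq_empty_or_nonempty with h | h
  · exact tc_core hr hp hw hc ho hn ha he hea.symm ca y1 y3 y4 y5 y6 y7 y8 z1 z3 z7 (Or.inl h)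
  · exact tc_core hr hp hw hc ho hn he ha hea ce z1 z3 z4 z5 z6 z7 z8 y1 y3 y7 (Or.inr h)

/-- LEMMA 2''(b), weak minimality. -/
theorem two_unique_w [Fintype E] (hr : Rk r) (hp : p.1 ⊆ p.2) {w e a : E} {s : Bool} {X : Finset E}
    (hw : w ∈ gs p) (hc : Cn r p) (ho : Ok r p) (hn : Nbs r p w s X) (hme : Mne r p e X)
    (hma : Mne r p a X)
    (he : e ∈ X) (ha : a ∈ X) (hea : e ≠ a) (ce : Cn r (rm (!s) e (rm s w p)))
    (ca : Cn r (rm (!s) a (rm s w p))) : Ok r (rm (!s) e p) ∨ Ok r (rm (!s) a p) := by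
  cases s
  · have hp' := wf_dp hp
    have hwg : w ∈ gs (dp p) := by rw [gs_dp]; exact hw
    have hwp : w ∈ gs p := hw
    have heS : e ∈ gs p := (mem_erase.1 (hn.1 he)).2
    have haS : a ∈ gs p := (mem_erase.1 (hn.1 ha)).2
    have wfw : (rm false w p).1 ⊆ (rm false w p).2 := wf_rm hp hw
    have key : ∀ b, b ∈ X → b ∈ gs p → Cn r (rm true b (rm false w p)) →
        Cn (rd r) (rm false b (rm true w (dp p))) := by
      intro b hb hbS hcn
      have h1 : rm true w (dp p) = dp (rm false w p) := rm_dp true w p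
      have h2 : rm false b (dp (rm false w p)) = dp (rm true b (rm false w p)) :=
        rm_dp false b _
      have hbw : b ∈ gs (rm false w p) := by
        rw [gs_rm]
        exact hn.1 hb
      rw [h1, h2]
      exact (cn_dp (wf_rm wfw hbw)).2 hcn
    have mn : ∀ b, b ∈ gs p → Mne r p b X → Mne (rd r) (dp p) b X := fun b hb h t A hA =>
      h (!t) A ((nbs_dp hr hp hb t A).1 hA)
    have h := two_unique_del_w (rk_rd hr) hp' hwg ((cn_dp hp).2 hc) ((ok_dp hr hp).2 ho)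
      ((nbs_dp hr hp hw true X).2 hn) (mn e heS hme) (mn a haS hma) he ha hea (key e he heS ce)
      (key a ha haS ca)
    have ok : ∀ b, b ∈ gs p → Ok (rd r) (rm false b (dp p)) → Ok r (rm true b p) := by
      intro b hb h1
      have h2 : rm false b (dp p) = dp (rm true b p) := rm_dp false b p
      rw [h2] at h1
      exact (ok_dp hr (wf_rm hp hb)).1 h1
    rcases h with h | h
    · exact Or.inl (ok e heS h)
    · exact Or.inr (ok a haS h)
  · exact two_unique_del_w hr hp hw hc ho hn hme hma he ha hea ce ca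

/-- LEMMA 2''(b). -/
theorem two_unique [Fintype E] (hr : Rk r) (hp : p.1 ⊆ p.2) {w e a : E} {s : Bool} {X : Finset E}
    (hw : w ∈ gs p) (hc : Cn r p) (ho : Ok r p) (hn : Nbs r p w s X) (hm : Mnl r p X)
    (he : e ∈ X) (ha : a ∈ X) (hea : e ≠ a) (ce : Cn r (rm (!s) e (rm s w p)))
    (ca : Cn r (rm (!s) a (rm s w p))) : Ok r (rm (!s) e p) ∨ Ok r (rm (!s) a p) :=
  two_unique_w hr hp hw hc ho hn (hm.at (mem_of_mem_erase (hn.1 he)))
    (hm.at (mem_of_mem_erase (hn.1 ha))) he ha hea ce ca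

end QUB
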